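import Pool.Agent.X209.Vi.Nodes

/-!
# Extending and amalgamating conditions
-/

set_option autoImplicit false

open Set

namespace Pool.Agent.X209.Vi

open Setup

variable {K : Type} [LinearOrder K] [WellFoundedLT K] {E : Setup K}

namespace Cnd

theorem self_cut (D : Set K) (δ : K) : δ ∈ cut D δ := fun _ _ h => h

/-- the elements of a node that belong to `D` are below the predecessor -/
theorem pr_spec {D : Set K} {x δ : K} (h : x ∈ cut D δ) {η : K} (hη : η ∈ D) (h1 : η ≤ x) : η ≤ δ :=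
  h η hη h1

/-- Adding a height to a condition. -/
def addHt (p : Cnd E) (γ : K) (hγ : E.Ht γ)
    (h : ∀ N ∈ p.M, ∀ x ∈ N, γ ≤ x → (∀ δ ∈ p.D, δ ≤ x → δ < γ) → γ ∈ N) : Cnd E where
  D := insert γ p.D
  M := p.M
  finD := p.finD.insert γ
  finM := p.finM
  bot := Or.inr p.bot
  ht := by
    rintro δ (rfl | hδ) h1
    · exact hγ
    · exact p.ht δ hδ h1
  nd := p.nd
  pr := by
    intro N hN x hx
    obtain ⟨δ, h1, h2, h3, h4⟩ := p.pr N hN x hx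
    by_cases h5 : γ ≤ x ∧ δ < γ
    · refine ⟨γ, Or.inl rfl, h N hN x hx h5.1 fun δ' h6 h7 => (h4 δ' h6 h7).trans_lt h5.2, h5.1, ?_⟩
      rintro δ' (rfl | h6) h7
      · exact le_rfl
      · exact (h4 δ' h6 h7).trans h5.2.le
    · refine ⟨δ, Or.inr h1, h2, h3, ?_⟩
      rintro δ' (rfl | h6) h7
      · by_contra h8
        exact h5 ⟨h7, not_le.1 h8⟩
      · exact h4 δ' h6 h7
  cp := by
    have hht : ∀ δ ∈ insert γ p.D, δ ≠ E.b0 → E.Ht δ := by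
      rintro δ (rfl | hδ) h1
      · exact hγ
      · exact p.ht δ hδ h1
    intro N hN N' hN' δ hδ h1 h2
    obtain ⟨η, h3, h4, h5, h6⟩ := p.pr N hN δ h1
    obtain ⟨η', h3', h4', h5', h6'⟩ := p.pr N' hN' δ h2
    have h7 : η = η' := le_antisymm (h6' η h3 h5) (h6 η' h3' h5')
    subst h7
    exact cp_anti p.finD (p.finD.insert γ) p.ht hht (fun x hx => Or.inr hx) (p.nd N hN)
      (p.nd N' hN') h6 (p.cp N hN N' hN' η h3 h4 h4')

theorem addHt_le (p : Cnd E) (γ : K) (hγ : E.Ht γ) (h) : addHt p γ hγ h ≤ p :=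
  ⟨fun _ hx => Or.inr hx, subset_rfl⟩

/-- Adding a node above everything. -/
def addNd (p : Cnd E) (X : Set K) (hX : E.Nd X) (h1 : p.D ⊆ X) (h2 : ∀ N ∈ p.M, E.cd N ∈ X) :
    Cnd E where
  D := p.D
  M := insert X p.M
  finD := p.finD
  finM := p.finM.insert X
  bot := p.bot
  ht := p.ht
  nd := by
    rintro N (rfl | hN)
    · exact hX
    · exact p.nd N hN
  pr := by
    rintro N (rfl | hN) x hx
    · have h3 : ({δ | δ ∈ p.D ∧ δ ≤ x} : Set K).Nonempty := ⟨E.b0, p.bot, E.b0_le x⟩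
      obtain ⟨δ, h4, h5⟩ := (p.finD.subset fun δ (hδ : δ ∈ p.D ∧ δ ≤ x) => hδ.1).exists_maximal h3
      refine ⟨δ, h4.1, h1 h4.1, h4.2, fun δ' h6 h7 => ?_⟩
      rcases le_total δ' δ with h8 | h8
      · exact h8
      · exact h5 ⟨h6, h7⟩ h8
    · exact p.pr N hN x hx
  cp := by
    rintro N (rfl | hN) N' (rfl | hN') δ hδ h3 h4
    · exact Or.inl rfl
    · exact (cp_cut p.finD p.ht (p.nd N' hN') hX (Or.inr (Or.inl (h2 N' hN'))) δ).symm
    · exact cp_cut p.finD p.ht (p.nd N hN) hX (Or.inr (Or.inl (h2 N hN))) δ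
    · exact p.cp N hN N' hN' δ hδ h3 h4

theorem addNd_le (p : Cnd E) (X : Set K) (hX : E.Nd X) (h1) (h2) : addNd p X hX h1 h2 ≤ p :=
  ⟨subset_rfl, fun _ hx => Or.inr hx⟩

theorem mem_addNd (p : Cnd E) (X : Set K) (hX : E.Nd X) (h1) (h2) : X ∈ (addNd p X hX h1 h2).M :=
  Or.inl rfl

/-- The parts of the nodes of a condition. -/
def Part (q : Cnd E) (N₁ : Set K) : Prop :=
  ∃ N ∈ q.M, N₁ = N ∨ ∃ δ ∈ q.D, δ ∈ N ∧ N₁ = N ∩ cut q.D δ

theorem part_finite (q : Cnd E) : {N₁ | Part q N₁}.Finite := by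
  have h1 : {N₁ | Part q N₁} ⊆ q.M ∪ (fun z : Set K × K => z.1 ∩ cut q.D z.2) '' (q.M ×ˢ q.D) := by
    rintro N₁ ⟨N, hN, rfl | ⟨δ, h1, h2, rfl⟩⟩
    · exact Or.inl hN
    · exact Or.inr ⟨(N, δ), ⟨hN, h1⟩, rfl⟩
  exact (q.finM.union ((q.finM.prod q.finD).image _)).subset h1

theorem Part.nd {q : Cnd E} {N₁ : Set K} (h : Part q N₁) : E.Nd N₁ := by
  obtain ⟨N, hN, rfl | ⟨δ, h1, h2, rfl⟩⟩ := h
  · exact q.nd _ hN
  · exact nd_cut q.finD q.ht (q.nd N hN) δ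

/-- the parts are closed under predecessors in `D` -/
theorem Part.pr {q : Cnd E} {N₁ : Set K} (h : Part q N₁) : ∀ x ∈ N₁, ∃ δ ∈ q.D, δ ∈ N₁ ∧ δ ≤ x ∧
    x ∈ cut q.D δ := by
  obtain ⟨N, hN, rfl | ⟨δ, h1, h2, rfl⟩⟩ := h
  · exact q.pr _ hN
  · rintro x ⟨hx, hx'⟩
    obtain ⟨η, h3, h4, h5, h6⟩ := q.pr N hN x hx
    exact ⟨η, h3, ⟨h4, fun η' h7 h8 => hx' η' h7 (h8.trans h5)⟩, h5, h6⟩

/-- the intervals of a part are the intervals of the node -/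
theorem Part.eq {q : Cnd E} {N₁ : Set K} (h : Part q N₁) : ∃ N ∈ q.M, N₁ ⊆ N ∧
    ∀ η ∈ q.D, η ∈ N₁ → N₁ ∩ cut q.D η = N ∩ cut q.D η := by
  obtain ⟨N, hN, rfl | ⟨δ, h1, h2, rfl⟩⟩ := h
  · exact ⟨N₁, hN, subset_rfl, fun _ _ _ => rfl⟩
  · refine ⟨N, hN, inter_subset_left, fun η h3 h4 => ?_⟩
    have h5 : η ≤ δ := h4.2 η h3 le_rfl
    ext x
    constructor
    · rintro ⟨⟨h6, -⟩, h7⟩
      exact ⟨h6, h7⟩
    · rintro ⟨h6, h7⟩
      exact ⟨⟨h6, fun ζ h8 h9 => (h7 ζ h8 h9).trans h5⟩, h7⟩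

theorem Part.cp {q : Cnd E} {N N' : Set K} (h : Part q N) (h' : Part q N') {η : K} (hη : η ∈ q.D)
    (h1 : η ∈ N) (h2 : η ∈ N') : Cp E (N ∩ cut q.D η) (N' ∩ cut q.D η) := by
  obtain ⟨M, hM, hs, he⟩ := h.eq
  obtain ⟨M', hM', hs', he'⟩ := h'.eq
  rw [he η hη h1, he' η hη h2]
  exact q.cp M hM M' hM' η hη (hs h1) (hs' h2)

/-- The residue of a condition in a node. -/
def res (q : Cnd E) (X : Set K) (hX : E.Nd X) : Cnd E where
  D := q.D ∩ X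
  M := {N | Part q N ∧ E.cd N ∈ X}
  finD := q.finD.inter_of_left X
  finM := (part_finite q).subset fun N h => h.1
  bot := ⟨q.bot, hX.b0⟩
  ht := fun δ h1 h2 => q.ht δ h1.1 h2
  nd := fun N h => h.1.nd
  pr := by
    rintro N ⟨h1, h2⟩ x hx
    obtain ⟨δ, h3, h4, h5, h6⟩ := h1.pr x hx
    exact ⟨δ, ⟨h3, hX.sub N h1.nd.cnt h2 h4⟩, h4, h5, fun η h7 h8 => h6 η h7.1 h8⟩
  cp := by
    have key : ∀ N, Part q N → E.cd N ∈ X → ∀ η, N ∩ cut (q.D ∩ X) η = N ∩ cut q.D η := by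
      intro N h1 h2 η
      ext x
      constructor
      · rintro ⟨h3, h4⟩
        refine ⟨h3, fun ζ h5 h6 => ?_⟩
        obtain ⟨δ, h7, h8, h9, h10⟩ := h1.pr x h3
        exact (h10 ζ h5 h6).trans (h4 δ ⟨h7, hX.sub N h1.nd.cnt h2 h8⟩ h9)
      · rintro ⟨h3, h4⟩
        exact ⟨h3, fun ζ h5 h6 => h4 ζ h5.1 h6⟩
    rintro N ⟨h1, h2⟩ N' ⟨h1', h2'⟩ δ hδ h3 h4
    rw [key N h1 h2, key N' h1' h2']
    exact h1.cp h1' hδ.1 h3 h4

/-- The condition belongs to the node. -/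
def In (X : Set K) (r : Cnd E) : Prop := r.D ⊆ X ∧ ∀ N ∈ r.M, E.cd N ∈ X

theorem in_res (q : Cnd E) (X : Set K) (hX : E.Nd X) : In X (res q X hX) :=
  ⟨inter_subset_right, fun _ h => h.2⟩

theorem res_le {p q : Cnd E} {X : Set K} (hX : E.Nd X) (h : q ≤ p) (hp : In X p) :
    res q X hX ≤ p :=
  ⟨fun δ hδ => ⟨h.1 hδ, hp.1 hδ⟩, fun N hN => ⟨⟨N, h.2 hN, Or.inl rfl⟩, hp.2 N hN⟩⟩

/-- The predecessor. -/
theorem exists_pred (q : Cnd E) (x : K) : ∃ δ ∈ q.D, δ ≤ x ∧ x ∈ cut q.D δ := by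
  have h3 : ({δ | δ ∈ q.D ∧ δ ≤ x} : Set K).Nonempty := ⟨E.b0, q.bot, E.b0_le x⟩
  obtain ⟨δ, h4, h5⟩ := (q.finD.subset fun δ (hδ : δ ∈ q.D ∧ δ ≤ x) => hδ.1).exists_maximal h3
  refine ⟨δ, h4.1, h4.2, fun δ' h6 h7 => ?_⟩
  rcases le_total δ' δ with h8 | h8
  · exact h8
  · exact h5 ⟨h6, h7⟩ h8

/-- the amalgamation of a condition with an extension of its residue -/
theorem exists_amalg (q r : Cnd E) {X : Set K} (hXq : X ∈ q.M) (hr : r ≤ res q X (q.nd X hXq))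
    (hrX : In X r) : ∃ s : Cnd E, s ≤ q ∧ s ≤ r ∧ s.D = q.D ∪ r.D ∧ s.M = q.M ∪ r.M := by
  have hX := q.nd X hXq
  have hD : q.D ∩ X ⊆ r.D := hr.1
  have hM : ∀ N, Part q N → E.cd N ∈ X → N ∈ r.M := fun N h1 h2 => hr.2 ⟨h1, h2⟩
  have hsub : ∀ R ∈ r.M, R ⊆ X := fun R h => hX.sub R (r.nd R h).cnt (hrX.2 R h)
  have hht : ∀ δ ∈ q.D ∪ r.D, δ ≠ E.b0 → E.Ht δ := by
    rintro δ (h | h) h1
    · exact q.ht δ h h1
    · exact r.ht δ h h1
  have hfin : (q.D ∪ r.D).Finite := q.finD.union r.finD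
  -- the two kinds of nodes
  have hmix : ∀ N ∈ q.M, ∀ R ∈ r.M, ∀ η ∈ q.D ∪ r.D, η ∈ N → η ∈ R →
      Cp E (N ∩ cut (q.D ∪ r.D) η) (R ∩ cut (q.D ∪ r.D) η) := by
    intro N hN R hR η hη h1 h2
    have h3 : η ∈ X := hsub R hR h2
    obtain ⟨δ, h4, h5, h6, h7⟩ := q.pr N hN η h1
    obtain ⟨δ', h4', h5', h6', h7'⟩ := q.pr X hXq η h3
    have h8 : δ = δ' := le_antisymm (h7' δ h4 h6) (h7 δ' h4' h6')
    subst h8
    have hcut : cut (q.D ∪ r.D) η ⊆ cut q.D δ := cut_anti (fun _ h => Or.inl h) h7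
    have hNe : N ∩ cut (q.D ∪ r.D) η = (N ∩ cut q.D δ) ∩ cut (q.D ∪ r.D) η := by
      rw [inter_assoc, inter_eq_self_of_subset_right hcut]
    have hXe : X ∩ cut (q.D ∪ r.D) η = (X ∩ cut q.D δ) ∩ cut (q.D ∪ r.D) η := by
      rw [inter_assoc, inter_eq_self_of_subset_right hcut]
    have hRe : R ∩ cut (q.D ∪ r.D) η = (R ∩ cut q.D δ) ∩ cut (q.D ∪ r.D) η := by
      rw [inter_assoc, inter_eq_self_of_subset_right hcut]
    rcases q.cp N hN X hXq δ h4 h5 h5' with h9 | h9 | h9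
    · have h10 := cp_cut hfin hht (r.nd R hR) hX (Or.inr (Or.inl (hrX.2 R hR))) η
      rw [hNe, h9, ← hXe]
      exact h10.symm
    · have h10 : N ∩ cut q.D δ ∈ r.M := hM _ ⟨N, hN, Or.inr ⟨δ, h4, h5, rfl⟩⟩ h9.1
      have h11 : η ∈ N ∩ cut q.D δ := ⟨h1, h7⟩
      obtain ⟨ρ, h12, h13, h14, h15⟩ := r.pr _ h10 η h11
      obtain ⟨ρ', h12', h13', h14', h15'⟩ := r.pr _ hR η h2
      have h16 : ρ = ρ' := le_antisymm (h15' ρ h12 h14) (h15 ρ' h12' h14')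
      subst h16
      have h17 := cp_anti r.finD hfin r.ht hht (fun _ h => Or.inr h) (r.nd _ h10) (r.nd R hR) h15
        (r.cp _ h10 R hR ρ h12 h13 h13')
      rwa [← hNe] at h17
    · have h10 : E.cd (R ∩ cut q.D δ) ∈ N := by
        have h11 := cd_cut q.finD q.ht (r.nd R hR) hX (hrX.2 R hR) δ
        exact (q.nd N hN).sub _ ((q.nd X hXq).cnt.mono inter_subset_left) h9.1 h11
      have h12 := cp_cut hfin hht (nd_cut q.finD q.ht (r.nd R hR) δ) (q.nd N hN)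
        (Or.inr (Or.inl h10)) η
      rw [← hRe] at h12
      exact h12.symm
  refine ⟨⟨q.D ∪ r.D, q.M ∪ r.M, hfin, q.finM.union r.finM, Or.inl q.bot, hht, ?_, ?_, ?_⟩,
    ⟨fun _ h => Or.inl h, fun _ h => Or.inl h⟩, ⟨fun _ h => Or.inr h, fun _ h => Or.inr h⟩,
    rfl, rfl⟩
  · rintro N (h | h)
    · exact q.nd N h
    · exact r.nd N h
  · rintro N (hN | hN) x hx
    · obtain ⟨δ, h1, h2, h3, h4⟩ := q.pr N hN x hx
      obtain ⟨ρ, h5, h6, h7⟩ := exists_pred r x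
      rcases le_or_gt ρ δ with h8 | h8
      · refine ⟨δ, Or.inl h1, h2, h3, ?_⟩
        rintro η (h9 | h9) h10
        · exact h4 η h9 h10
        · exact (h7 η h9 h10).trans h8
      · refine ⟨ρ, Or.inr h5, ?_, h6, ?_⟩
        · have h9 : ρ ∈ X := hrX.1 h5
          obtain ⟨δ', h4', h5', h6', h7'⟩ := q.pr X hXq ρ h9
          have h10 : δ' = δ := le_antisymm (h4 δ' h4' (h6'.trans h6)) (h7' δ h1 h8.le)
          subst h10
          rcases q.cp N hN X hXq δ' h1 h2 h5' with h11 | h11 | h11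
          · have h12 : ρ ∈ X ∩ cut q.D δ' := ⟨h9, h7'⟩
            rw [← h11] at h12
            exact h12.1
          · have h12 : N ∩ cut q.D δ' ∈ r.M := hM _ ⟨N, hN, Or.inr ⟨δ', h1, h2, rfl⟩⟩ h11.1
            obtain ⟨ρ', h13, h14, h15, h16⟩ := r.pr _ h12 x ⟨hx, h4⟩
            have h17 : ρ = ρ' := le_antisymm (h16 ρ h5 h6) (h7 ρ' h13 h15)
            rw [h17]
            exact h14.1
          · exact (q.nd N hN).sub _ ((q.nd X hXq).cnt.mono inter_subset_left) h11.1 ⟨h9, h7'⟩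
        · rintro η (h9 | h9) h10
          · exact (h4 η h9 h10).trans h8.le
          · exact h7 η h9 h10
    · obtain ⟨ρ, h1, h2, h3, h4⟩ := r.pr N hN x hx
      refine ⟨ρ, Or.inr h1, h2, h3, ?_⟩
      have hxX : x ∈ X := hsub N hN hx
      obtain ⟨δ, h5, h6, h7, h8⟩ := q.pr X hXq x hxX
      have h9 : δ ≤ ρ := h4 δ (hD ⟨h5, h6⟩) h7
      rintro η (h10 | h10) h11
      · exact (h8 η h10 h11).trans h9
      · exact h4 η h10 h11
  · rintro N (hN | hN) N' (hN' | hN') η hη h1 h2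
    · obtain ⟨δ, h3, h4, h5, h6⟩ := q.pr N hN η h1
      obtain ⟨δ', h3', h4', h5', h6'⟩ := q.pr N' hN' η h2
      have h7 : δ = δ' := le_antisymm (h6' δ h3 h5) (h6 δ' h3' h5')
      subst h7
      exact cp_anti q.finD hfin q.ht hht (fun _ h => Or.inl h) (q.nd N hN) (q.nd N' hN') h6
        (q.cp N hN N' hN' δ h3 h4 h4')
    · exact hmix N hN N' hN' η hη h1 h2
    · exact (hmix N' hN' N hN η hη h2 h1).symm
    · obtain ⟨δ, h3, h4, h5, h6⟩ := r.pr N hN η h1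
      obtain ⟨δ', h3', h4', h5', h6'⟩ := r.pr N' hN' η h2
      have h7 : δ = δ' := le_antisymm (h6' δ h3 h5) (h6 δ' h3' h5')
      subst h7
      exact cp_anti r.finD hfin r.ht hht (fun _ h => Or.inr h) (r.nd N hN) (r.nd N' hN') h6
        (r.cp N hN N' hN' δ h3 h4 h4')

/-! ### Restrictions -/

/-- The condition lives below `μ`. -/
def Bl (μ : K) (u : Cnd E) : Prop := u.D ⊆ Iio μ ∧ ∀ N ∈ u.M, N ⊆ Iio μ

theorem cut_restr {D : Set K} {μ η : K} (hμ : μ ∈ D) (hη : η < μ) :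
    cut D η = cut (D ∩ Iio μ) η ∩ Iio μ := by
  ext x
  constructor
  · intro h
    refine ⟨fun ζ h1 h2 => h ζ h1.1 h2, ?_⟩
    by_contra h3
    exact absurd (h μ hμ (not_lt.1 h3)) (not_le.2 hη)
  · rintro ⟨h, h1⟩ ζ h2 h3
    exact h ζ ⟨h2, h3.trans_lt h1⟩ h3

open Classical in
/-- The restriction of a condition below a height. -/
noncomputable def rs {μ : K} (hμ : E.Ht μ) (q : Cnd E) : Cnd E :=
  if h : μ ∈ q.D then
  { D := q.D ∩ Iio μ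
    M := (fun N => N ∩ Iio μ) '' q.M
    finD := q.finD.inter_of_left _
    finM := q.finM.image _
    bot := ⟨q.bot, (E.b0_le _).trans_lt hμ.o1⟩
    ht := fun δ h1 h2 => q.ht δ h1.1 h2
    nd := by
      rintro _ ⟨N, hN, rfl⟩
      exact (q.nd N hN).inter hμ
    pr := by
      rintro _ ⟨N, hN, rfl⟩ x ⟨hx, hx'⟩
      obtain ⟨δ, h1, h2, h3, h4⟩ := q.pr N hN x hx
      exact ⟨δ, ⟨h1, h3.trans_lt hx'⟩, ⟨h2, h3.trans_lt hx'⟩, h3, fun η h5 h6 => h4 η h5.1 h6⟩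
    cp := by
      rintro _ ⟨N, hN, rfl⟩ _ ⟨N', hN', rfl⟩ δ hδ h1 h2
      have h3 : ∀ N : Set K, (fun N => N ∩ Iio μ) N ∩ cut (q.D ∩ Iio μ) δ = N ∩ cut q.D δ := by
        intro N
        rw [cut_restr h hδ.2]
        ext x
        simp only [mem_inter_iff]
        tauto
      rw [h3, h3]
      exact q.cp N hN N' hN' δ hδ.1 h1.1 h2.1 }
  else ⊤

theorem rs_D {μ : K} (hμ : E.Ht μ) {q : Cnd E} (h : μ ∈ q.D) : (rs hμ q).D = q.D ∩ Iio μ := by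
  unfold rs
  rw [dif_pos h]

theorem rs_M {μ : K} (hμ : E.Ht μ) {q : Cnd E} (h : μ ∈ q.D) :
    (rs hμ q).M = (fun N => N ∩ Iio μ) '' q.M := by
  unfold rs
  rw [dif_pos h]

theorem bl_rs {μ : K} (hμ : E.Ht μ) {q : Cnd E} (h : μ ∈ q.D) : Bl μ (rs hμ q) := by
  constructor
  · rw [rs_D hμ h]
    exact inter_subset_right
  · rw [rs_M hμ h]
    rintro _ ⟨N, -, rfl⟩
    exact inter_subset_right

theorem rs_mono {μ : K} (hμ : E.Ht μ) {q s : Cnd E} (h : μ ∈ q.D) (hs : s ≤ q) :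
    rs hμ s ≤ rs hμ q := by
  have h' : μ ∈ s.D := hs.1 h
  constructor
  · rw [rs_D hμ h, rs_D hμ h']
    exact inter_subset_inter_left _ hs.1
  · rw [rs_M hμ h, rs_M hμ h']
    exact image_mono hs.2

theorem rs_le {μ : K} (hμ : E.Ht μ) {u s : Cnd E} (h : μ ∈ s.D) (hu : Bl μ u) (hs : s ≤ u) :
    rs hμ s ≤ u := by
  constructor
  · rw [rs_D hμ h]
    exact subset_inter hs.1 hu.1
  · rw [rs_M hμ h]
    intro N hN
    exact ⟨N, hs.2 hN, inter_eq_left.2 (hu.2 N hN)⟩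

/-- the amalgamation of a condition with an extension of its restriction -/
theorem exists_factor {μ : K} (hμ : E.Ht μ) {q u : Cnd E} (h : μ ∈ q.D) (hu : Bl μ u)
    (hs : u ≤ rs hμ q) : ∃ s : Cnd E, s ≤ q ∧ s ≤ u ∧ rs hμ s = u ∧
      ∀ t : Cnd E, t ≤ q → t ≤ u → t ≤ s := by
  have hD : q.D ∩ Iio μ ⊆ u.D := by
    rw [← rs_D hμ h]
    exact hs.1
  have hM : ∀ N ∈ q.M, N ∩ Iio μ ∈ u.M := by
    intro N hN
    refine hs.2 ?_
    rw [rs_M hμ h]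
    exact ⟨N, hN, rfl⟩
  have hD2 : (q.D ∪ u.D) ∩ Iio μ = u.D := by
    ext x
    constructor
    · rintro ⟨h1 | h1, h2⟩
      · exact hD ⟨h1, h2⟩
      · exact h1
    · intro h1
      exact ⟨Or.inr h1, hu.1 h1⟩
  have hM2 : ∀ N ∈ q.M ∪ u.M, N ∩ Iio μ ∈ u.M := by
    rintro N (hN | hN)
    · exact hM N hN
    · rw [inter_eq_left.2 (hu.2 N hN)]
      exact hN
  have hμD : μ ∈ q.D ∪ u.D := Or.inl h
  have hcut : ∀ η, μ ≤ η → cut (q.D ∪ u.D) η = cut q.D η := by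
    intro η h1
    ext x
    constructor
    · intro h2 ζ h3 h4
      exact h2 ζ (Or.inl h3) h4
    · rintro h2 ζ (h3 | h3) h4
      · exact h2 ζ h3 h4
      · exact (hu.1 h3).le.trans h1
  refine ⟨⟨q.D ∪ u.D, q.M ∪ u.M, q.finD.union u.finD, q.finM.union u.finM, Or.inl q.bot, ?_, ?_,
    ?_, ?_⟩, ⟨fun _ h => Or.inl h, fun _ h => Or.inl h⟩, ⟨fun _ h => Or.inr h, fun _ h => Or.inr h⟩,
    ?_, fun t h1 h2 => ⟨union_subset h1.1 h2.1, union_subset h1.2 h2.2⟩⟩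
  · rintro δ (h1 | h1) h2
    · exact q.ht δ h1 h2
    · exact u.ht δ h1 h2
  · rintro N (h1 | h1)
    · exact q.nd N h1
    · exact u.nd N h1
  · intro N hN x hx
    rcases lt_or_ge x μ with h1 | h1
    · obtain ⟨δ, h2, h3, h4, h5⟩ := u.pr _ (hM2 N hN) x ⟨hx, h1⟩
      refine ⟨δ, Or.inr h2, h3.1, h4, fun η h6 h7 => h5 η ?_ h7⟩
      rw [← hD2]
      exact ⟨h6, h7.trans_lt h1⟩
    · rcases hN with hN | hN
      · obtain ⟨δ, h2, h3, h4, h5⟩ := q.pr _ hN x hx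
        refine ⟨δ, Or.inl h2, h3, h4, ?_⟩
        have h6 : μ ≤ δ := h5 μ h h1
        rintro η (h7 | h7) h8
        · exact h5 η h7 h8
        · exact (hu.1 h7).le.trans h6
      · exact absurd (hu.2 N hN hx) (not_lt.2 h1)
  · intro N hN N' hN' η hη h1 h2
    rcases lt_or_ge η μ with h3 | h3
    · have h4 : η ∈ u.D := by
        rw [← hD2]
        exact ⟨hη, h3⟩
      have h5 := u.cp _ (hM2 N hN) _ (hM2 N' hN') η h4 ⟨h1, h3⟩ ⟨h2, h3⟩
      have h6 : ∀ N : Set K, N ∩ cut (q.D ∪ u.D) η = N ∩ Iio μ ∩ cut u.D η := by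
        intro N
        rw [cut_restr hμD h3, hD2]
        ext x
        simp only [mem_inter_iff]
        tauto
      rw [h6, h6]
      exact h5
    · have h4 : ∀ N ∈ q.M ∪ u.M, η ∈ N → N ∈ q.M := by
        rintro N (h5 | h5) h6
        · exact h5
        · exact absurd (hu.2 N h5 h6) (not_lt.2 h3)
      have h5 : η ∈ q.D := by
        rcases hη with h5 | h5
        · exact h5
        · exact absurd (hu.1 h5) (not_lt.2 h3)
      rw [hcut η h3]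
      exact q.cp N (h4 N hN h1) N' (h4 N' hN' h2) η h5 h1 h2
  · ext x
    · rw [rs_D hμ (show μ ∈ q.D ∪ u.D from hμD)]
      exact Set.ext_iff.1 hD2 x
    · rw [rs_M hμ (show μ ∈ q.D ∪ u.D from hμD)]
      constructor
      · rintro ⟨N, hN, rfl⟩
        exact hM2 N hN
      · intro h1
        exact ⟨x, Or.inr h1, inter_eq_left.2 (hu.2 x h1)⟩

end Cnd

end Pool.Agent.X209.Vi
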