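import Pool.Agent.X209.Vi.Gs

/-!
# The approximation property
-/

set_option autoImplicit false
set_option linter.unusedSectionVars false
set_option linter.deprecated false

open Set

namespace Pool.Agent.X209.Vi

open Setup Cnd Qt

variable {K : Type} [LinearOrder K] [WellFoundedLT K] {E : Setup K}

/-- Trees with countable branching. -/
inductive Tr (B : Type) : Type
  | leaf (b : B) : Tr B
  | node (n : ℕ) (f : ℕ → Tr B) : Tr B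

/-- The elements and the conditions below `β`. -/
def Bs (E : Setup K) (β : K) : Set (K ⊕ Qt E) :=
  {z | (∃ k < β, z = Sum.inl k) ∨ ∃ u, BL β u ∧ z = Sum.inr u}

/-- The properties of `μ` that are used. -/
structure Good (E : Setup K) (μ : K) : Prop where
  ht : E.Ht μ
  bd : ∀ s : Set K, s.Countable → s ⊆ Iio μ → ∃ β < μ, s ⊆ Iio β
  tr : ∀ β < μ, ∀ f : Tr (Bs E β) → K, ∃ γ < μ, ∀ t, f t < μ → f t < γ
  mah : ∀ h : K → K, (∀ β < μ, h β < μ) → ∃ δ < μ, E.Ht δ ∧ (∀ β < δ, h β < δ) ∧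
    ∀ s : Set K, s.Countable → s ⊆ Iio δ → ∃ β < δ, s ⊆ Iio β

/-- the elements of `K` that occur in a condition -/
def supp (q : Qt E) : Set K := q.1.D ∪ ⋃₀ q.1.M ∪ {k | q.2.f k ≠ none}

theorem supp_cnt (q : Qt E) : (supp q).Countable :=
  (q.1.finD.countable.union (q.1.finM.countable.sUnion fun N hN => (q.1.nd N hN).cnt)).union q.2.cnt

theorem bl_iff {u : Qt E} {μ : K} : BL μ u ↔ supp u ⊆ Iio μ := by
  unfold BL Bl supp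
  constructor
  · rintro ⟨⟨h1, h2⟩, h3⟩
    exact union_subset (union_subset h1 (sUnion_subset h2)) fun k hk => h3 k hk
  · intro h
    exact ⟨⟨fun x hx => h (Or.inl (Or.inl hx)), fun N hN x hx =>
      h (Or.inl (Or.inr ⟨N, hN, hx⟩))⟩, fun k hk => h (Or.inr hk)⟩

theorem supp_ne (q : Qt E) : (supp q).Nonempty := ⟨E.b0, Or.inl (Or.inl q.1.bot)⟩

/-- an enumeration of the elements that occur in a condition -/
noncomputable def en (q : Qt E) : ℕ → K := ((supp_cnt q).exists_eq_range (supp_ne q)).choose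

theorem en_spec (q : Qt E) : supp q = range (en q) :=
  ((supp_cnt q).exists_eq_range (supp_ne q)).choose_spec

/-- evaluation of a tree -/
def tv {Ω : Type} {B : Set Ω} (G : ℕ → (ℕ → Ω) → Ω) : Tr B → Ω
  | .leaf b => b
  | .node n f => G n fun k => tv G (f k)

theorem exists_hull {μ : K} (hμ : Good E μ) (G : ℕ → (ℕ → K ⊕ Qt E) → K ⊕ Qt E) :
    ∃ δ < μ, E.Ht δ ∧ ∃ H : Set (K ⊕ Qt E), (∀ n f, (∀ k, f k ∈ H) → G n f ∈ H) ∧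
      (∀ k < δ, Sum.inl k ∈ H) ∧ (∀ k < μ, Sum.inl k ∈ H → k < δ) ∧
      ∀ u, BL δ u → Sum.inr u ∈ H := by
  classical
  let cl : K → Set (K ⊕ Qt E) := fun β => range (tv (B := Bs E β) G)
  have hcl : ∀ β n f, (∀ k, f k ∈ cl β) → G n f ∈ cl β := by
    intro β n f h
    choose t ht using h
    refine ⟨.node n t, ?_⟩
    rw [tv]
    exact congrArg (G n) (funext ht)
  have hB : ∀ β, Bs E β ⊆ cl β := fun β z hz => ⟨.leaf ⟨z, hz⟩, rfl⟩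
  have hmono : ∀ β β', β ≤ β' → cl β ⊆ cl β' := by
    rintro β β' h _ ⟨t, rfl⟩
    induction t with
    | leaf b =>
      refine hB β' ?_
      obtain ⟨b, hb | hb⟩ := b
      · obtain ⟨k, hk, rfl⟩ := hb
        exact Or.inl ⟨k, hk.trans_le h, rfl⟩
      · obtain ⟨u, hu, rfl⟩ := hb
        refine Or.inr ⟨u, ?_, rfl⟩
        rw [bl_iff] at hu ⊢
        exact hu.trans (Iio_subset_Iio h)
    | node n f ih => exact hcl β' n _ ih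
  have h1 : ∀ β : K, ∃ γ : K, β < μ → (γ < μ ∧ ∀ k, Sum.inl k ∈ cl β → k < μ → k < γ) := by
    intro β
    by_cases hβ : β < μ
    · obtain ⟨γ, hγ, h2⟩ := hμ.tr β hβ fun t => (tv G t).elim id fun _ => μ
      refine ⟨γ, fun _ => ⟨hγ, ?_⟩⟩
      rintro k ⟨t, ht⟩ hk
      have h3 := h2 t
      rw [ht] at h3
      exact h3 hk
    · exact ⟨μ, fun h => absurd h hβ⟩
  choose h hh using h1
  obtain ⟨δ, hδ, hδ1, hδ2, hδ3⟩ := hμ.mah h fun β hβ => (hh β hβ).1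
  refine ⟨δ, hδ, hδ1, ⋃ β ∈ Iio δ, cl β, ?_, ?_, ?_, ?_⟩
  · intro n f hf
    have h2 : ∀ k, ∃ β < δ, f k ∈ cl β := by
      intro k
      obtain ⟨β, hβ, h3⟩ := mem_iUnion₂.1 (hf k)
      exact ⟨β, hβ, h3⟩
    choose b hb hb' using h2
    obtain ⟨β, hβ, h3⟩ := hδ3 (range b) (countable_range b) (range_subset_iff.2 hb)
    exact mem_iUnion₂.2 ⟨β, hβ, hcl β n f fun k =>
      hmono _ _ (le_of_lt (h3 (mem_range_self k))) (hb' k)⟩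
  · intro k hk
    obtain ⟨β, hβ, h3⟩ := hδ3 {k} (countable_singleton k) (singleton_subset_iff.2 hk)
    exact mem_iUnion₂.2 ⟨β, hβ, hB β (Or.inl ⟨k, h3 rfl, rfl⟩)⟩
  · intro k hk h2
    obtain ⟨β, hβ, h3⟩ := mem_iUnion₂.1 h2
    have hβ' : β < δ := hβ
    exact ((hh β (hβ'.trans hδ)).2 k h3 hk).trans (hδ2 β hβ')
  · intro u hu
    rw [bl_iff] at hu
    obtain ⟨β, hβ, h3⟩ := hδ3 (supp u) (supp_cnt u) hu
    exact mem_iUnion₂.2 ⟨β, hβ, hB β (Or.inr ⟨u, bl_iff.2 h3, rfl⟩)⟩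

/-- `x` has approximations below `μ`. -/
def App (x : K → Set (Qt E)) (μ : K) (p : Qt E) : Prop :=
  ∀ q ≤ p, ∀ β < μ, ∃ q' ≤ q, ∃ e : K → Set (Qt E), (∀ i, ∀ u ∈ e i, BL μ u) ∧ Eqv x e q' β

variable {x : K → Set (Qt E)} {μ : K} {p : Qt E}

theorem rs_union (hμ : E.Ht μ) {s c r : Cnd E} (hc : μ ∈ c.D) (hr : μ ∈ r.D)
    (h1 : s.D = c.D ∪ r.D) (h2 : s.M = c.M ∪ r.M) : (rs hμ s).D = (rs hμ c).D ∪ (rs hμ r).D ∧
    (rs hμ s).M = (rs hμ c).M ∪ (rs hμ r).M := by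
  have hs : μ ∈ s.D := by rw [h1]; exact Or.inl hc
  rw [rs_D hμ hs, rs_D hμ hc, rs_D hμ hr, rs_M hμ hs, rs_M hμ hc, rs_M hμ hr, h1, h2,
    union_inter_distrib_right, image_union]
  exact ⟨rfl, rfl⟩

/-- The property obtained in the first step. -/
def P1 (hμ : E.Ht μ) (x : K → Set (Qt E)) (q : Qt E) : Prop :=
  ∀ α < μ, ∀ (r₀ r₁ : Cnd E) (b : Ad K), (r₀, b) ≤ q → (r₁, b) ≤ q → rs hμ r₀ = rs hμ r₁ →
    FI x α (r₀, b) → NI x α (r₁, b) → False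

/-- The property obtained in the second step. -/
def P2 (hμ : E.Ht μ) (x : K → Set (Qt E)) (q : Qt E) : Prop :=
  ∀ α < μ, ∀ r₀ r₁ : Qt E, r₀ ≤ q → r₁ ≤ q → Rs hμ r₀ = Rs hμ r₁ → FI x α r₀ → NI x α r₁ → False

theorem no_split (hμ : E.Ht μ) {e : K → Set (Qt E)} (he : ∀ i, ∀ u ∈ e i, BL μ u) {α : K}
    {t₀ t₁ : Qt E} (h0 : μ ∈ t₀.1.D) (h1 : μ ∈ t₁.1.D) (hR : Rs hμ t₀ ≤ Rs hμ t₁)
    (hF : FI e α t₀) (hN : NI e α t₁) : False := by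
  obtain ⟨q, hq, v, hv, hqv⟩ := hF t₀ le_rfl
  have hμq : μ ∈ q.1.D := hq.1.1 h0
  have h3 : Rs hμ q ≤ Rs hμ t₁ := (Rs_mono hμ h0 hq).trans hR
  obtain ⟨s, hs1, hs2, -, -⟩ := exists_fac hμ h1 (BL_Rs hμ hμq) h3
  exact hN s hs1 v hv (hs2.trans (Rs_le hμ hμq (he _ _ hv) hqv))

theorem step1 (hμ : Good E μ) (hp : μ ∈ p.1.D) (happ : App x μ p) : ∃ q ≤ p, P1 hμ.ht x q := by
  by_contra hcon
  have hneg : ∀ q ≤ p, ∃ α < μ, ∃ (r₀ r₁ : Cnd E) (b : Ad K), (r₀, b) ≤ q ∧ (r₁, b) ≤ q ∧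
      rs hμ.ht r₀ = rs hμ.ht r₁ ∧ FI x α (r₀, b) ∧ NI x α (r₁, b) := by
    intro q hq
    by_contra h
    refine hcon ⟨q, hq, fun α hα r₀ r₁ b h0 h1 h2 h3 h4 => h ⟨α, hα, r₀, r₁, b, h0, h1, h2, h3, h4⟩⟩
  let D : Cnd E × ℕ → K × Cnd E × Cnd E → Ad K → Prop := fun t w b => t.1 ≤ p.1 →
    (w.1 < μ ∧ w.2.1 ≤ t.1 ∧ w.2.2 ≤ t.1 ∧ rs hμ.ht w.2.1 = rs hμ.ht w.2.2 ∧
      FI x w.1 (w.2.1, b) ∧ NI x w.1 (w.2.2, b))
  obtain ⟨X, hX, hYX, b, hb, hH⟩ := exists_gs (E := E)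
    (fun w : K × Cnd E × Cnd E => {w.1} ∪ ci w.2.1 ∪ ci w.2.2)
    (fun w => ((countable_singleton _).union (ci_fin _).countable).union (ci_fin _).countable)
    D (by
      intro t w b b' h hb ht
      obtain ⟨h1, h2, h3, h4, h5, h6⟩ := h ht
      exact ⟨h1, h2, h3, h4, h5.mono ⟨le_rfl, hb⟩, h6.mono ⟨le_rfl, hb⟩⟩)
    p.2 (by
      intro t b hb
      by_cases ht : t.1 ≤ p.1
      · obtain ⟨α, hα, r₀, r₁, b', h0, h1, h2, h3, h4⟩ := hneg (t.1, b) ⟨ht, hb⟩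
        exact ⟨b', h0.2, (α, r₀, r₁), fun _ => ⟨hα, h0.1, h1.1, h2, h3, h4⟩⟩
      · exact ⟨b, le_rfl, (μ, ⊤, ⊤), fun h => absurd h ht⟩)
    (Y := ci p.1) (ci_fin _).countable
  have hpX : In X p.1 := in_iff.2 hYX
  obtain ⟨β, hβ, hXβ⟩ := hμ.bd (X ∩ Iio μ) (hX.cnt.mono inter_subset_left) inter_subset_right
  obtain ⟨q', hq', e, he, hEq⟩ := happ (addNd p.1 X hX hpX.1 hpX.2, b)
    ⟨addNd_le p.1 X hX hpX.1 hpX.2, hb⟩ β hβ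
  have hXc : X ∈ q'.1.M := hq'.1.2 (mem_addNd p.1 X hX hpX.1 hpX.2)
  have hc : q'.1 ≤ p.1 := hq'.1.trans (addNd_le p.1 X hX hpX.1 hpX.2)
  have hμc : μ ∈ q'.1.D := hc.1 hp
  have ht : res q'.1 X (q'.1.nd X hXc) ≤ p.1 := res_le _ hc hpX
  obtain ⟨⟨α, r₀, r₁⟩, hw, hD⟩ := hH _ (in_res q'.1 X (q'.1.nd X hXc)) 0
  obtain ⟨h1, h2, h3, h4, h5, h6⟩ := hD ht
  simp only at h1 h2 h3 h4 h5 h6 hw
  have h0X : In X r₀ := in_iff.2 fun x hx => hw (Or.inl (Or.inr hx))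
  have h1X : In X r₁ := in_iff.2 fun x hx => hw (Or.inr hx)
  have hαβ : α < β := hXβ ⟨hw (Or.inl (Or.inl rfl)), h1⟩
  obtain ⟨s₀, a1, a2, a3, a4⟩ := exists_amalg q'.1 r₀ hXc h2 h0X
  obtain ⟨s₁, c1, c2, c3, c4⟩ := exists_amalg q'.1 r₁ hXc h3 h1X
  have hμ0 : μ ∈ r₀.D := (h2.trans ht).1 hp
  have hμ1 : μ ∈ r₁.D := (h3.trans ht).1 hp
  have hrs : rs hμ.ht s₀ = rs hμ.ht s₁ := by
    obtain ⟨d1, d2⟩ := rs_union hμ.ht hμc hμ0 a3 a4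
    obtain ⟨d3, d4⟩ := rs_union hμ.ht hμc hμ1 c3 c4
    exact Cnd.ext (by rw [d1, d3, h4]) (by rw [d2, d4, h4])
  have hb' : q'.2 ≤ b := hq'.2
  have f0 : FI x α (s₀, q'.2) := h5.mono ⟨a2, hb'⟩
  have f1 : NI x α (s₁, q'.2) := h6.mono ⟨c2, hb'⟩
  have g0 : FI e α (s₀, q'.2) := (hEq α hαβ (s₀, q'.2) ⟨a1, le_rfl⟩).1 f0
  have g1 : NI e α (s₁, q'.2) :=
    (hEq.mono (show (s₁, q'.2) ≤ q' from ⟨c1, le_rfl⟩)).ni hαβ f1
  exact no_split (t₀ := (s₀, q'.2)) (t₁ := (s₁, q'.2)) hμ.ht he (a1.1 hμc) (c1.1 hμc)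
    ⟨hrs.le, le_rfl⟩ g0 g1

/-- The tasks of the second step. -/
def Tsk (hμ : E.Ht μ) (x : K → Set (Qt E)) (c₀ : Cnd E) (u : Cnd E) (b : Ad K)
    (w : K × Cnd E × Ad K × Ad K) : Prop :=
  w.1 < μ ∧ w.2.1 ≤ u ∧ Bl μ w.2.1 ∧ w.2.2.1 ≤ b ∧ w.2.2.2 ≤ b ∧
    w.2.2.1.on (Iio μ) = w.2.2.2.on (Iio μ) ∧
    ∀ s ≤ c₀, s ≤ w.2.1 → FI x w.1 (s, w.2.2.1) ∧ NI x w.1 (s, w.2.2.2)

theorem exists_tsk (hμ : E.Ht μ) {q₀ : Qt E} (hq₀ : μ ∈ q₀.1.D) (h1 : P1 hμ x q₀)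
    (hneg : ∀ q ≤ q₀, ¬ P2 hμ x q) {u : Cnd E} (hu : Bl μ u) (hu1 : u ≤ rs hμ q₀.1)
    {b : Ad K} (hb : b ≤ q₀.2) : ∃ w, Tsk hμ x q₀.1 u b w := by
  obtain ⟨s, hs1, hs2, hs3, -⟩ := exists_factor hμ hq₀ hu hu1
  have h2 := hneg (s, b) ⟨hs1, hb⟩
  unfold P2 at h2
  push Not at h2
  obtain ⟨α, hα, ⟨r₀, b₀⟩, ⟨r₁, b₁⟩, h3, h4, h5, h6, h7, -⟩ := h2
  have hμ0 : μ ∈ r₀.D := (h3.1.trans hs1).1 hq₀
  have hμ1 : μ ∈ r₁.D := (h4.1.trans hs1).1 hq₀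
  have hr : rs hμ r₀ = rs hμ r₁ := congrArg Prod.fst h5
  have hbb : b₀.on (Iio μ) = b₁.on (Iio μ) := congrArg Prod.snd h5
  have hle : rs hμ r₀ ≤ u := by
    have := rs_mono hμ (hs1.1 hq₀) h3.1
    rwa [hs3] at this
  refine ⟨(α, rs hμ r₀, b₀, b₁), hα, hle, bl_rs hμ hμ0, h3.2, h4.2, hbb, fun t ht ht2 => ⟨?_, ?_⟩⟩
  · refine fi_of_not_ni fun z hz h8 => ?_
    obtain ⟨t', b'⟩ := z
    have hμt : μ ∈ t'.D := (hz.1.trans ht).1 hq₀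
    have h9 : rs hμ t' ≤ rs hμ r₀ := rs_le hμ hμt (bl_rs hμ hμ0) (hz.1.trans ht2)
    obtain ⟨v, hv1, hv2, hv3, -⟩ := exists_factor hμ hμ0 (bl_rs hμ hμt) h9
    have h10 : b' ≤ q₀.2 := (show b' ≤ b₀ from hz.2).trans ((show b₀ ≤ b from h3.2).trans hb)
    exact h1 α hα v t' b' ⟨(hv1.trans h3.1).trans hs1, h10⟩ ⟨hz.1.trans ht, h10⟩ hv3
      (h6.mono ⟨hv1, hz.2⟩) h8
  · rw [ni_iff]
    intro z hz h8
    obtain ⟨t', b'⟩ := z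
    have hμt : μ ∈ t'.D := (hz.1.trans ht).1 hq₀
    have h9 : rs hμ t' ≤ rs hμ r₁ := by
      rw [← hr]
      exact rs_le hμ hμt (bl_rs hμ hμ0) (hz.1.trans ht2)
    obtain ⟨v, hv1, hv2, hv3, -⟩ := exists_factor hμ hμ1 (bl_rs hμ hμt) h9
    have h10 : b' ≤ q₀.2 := (show b' ≤ b₁ from hz.2).trans ((show b₁ ≤ b from h4.2).trans hb)
    exact h1 α hα t' v b' ⟨hz.1.trans ht, h10⟩ ⟨(hv1.trans h4.1).trans hs1, h10⟩ hv3.symm h8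
      (h7.mono ⟨hv1, hz.2⟩)

/-- the function coded by a sequence -/
noncomputable def sq (f : ℕ → K ⊕ Qt E) : Ad K := by
  classical
  exact ⟨fun k => if ∃ n, f (2 * n) = Sum.inl k then some true else
    if ∃ n, f (2 * n + 1) = Sum.inl k then some false else none, by
    have h : (Sum.inl ⁻¹' range f : Set K).Countable :=
      (countable_range f).preimage Sum.inl_injective
    refine h.mono fun k hk => ?_
    simp only [mem_setOf_eq] at hk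
    split_ifs at hk with h1 h2
    · obtain ⟨n, hn⟩ := h1
      exact ⟨_, hn⟩
    · obtain ⟨n, hn⟩ := h2
      exact ⟨_, hn⟩
    · exact absurd rfl hk⟩

theorem exists_sq (H : Set (K ⊕ Qt E)) (z : Qt E) (hz : Sum.inr z ∈ H) (b : Ad K) :
    ∃ f : ℕ → K ⊕ Qt E, (∀ n, f n ∈ H) ∧ sq f = b.on {k | Sum.inl k ∈ H} := by
  classical
  have h1 : ∀ v : Bool, ∃ g : ℕ → K ⊕ Qt E, ({z' | ∃ k, z' = Sum.inl k ∧ Sum.inl k ∈ H ∧
      b.f k = some v} ∪ {Sum.inr z} : Set (K ⊕ Qt E)) = range g := by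
    intro v
    refine Set.Countable.exists_eq_range ?_ ⟨_, Or.inr rfl⟩
    refine Set.Countable.union ?_ (countable_singleton _)
    refine (b.cnt.image Sum.inl).mono ?_
    rintro _ ⟨k, rfl, -, hk⟩
    exact ⟨k, by simp [hk], rfl⟩
  choose g hg using h1
  have hg1 : ∀ v n, g v n ∈ H := by
    intro v n
    have : g v n ∈ range (g v) := mem_range_self n
    rw [← hg v] at this
    rcases this with ⟨k, h2, h3, -⟩ | h2
    · rw [h2]; exact h3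
    · rw [mem_singleton_iff.1 h2]; exact hz
  have hg2 : ∀ v k, (∃ n, g v n = Sum.inl k) ↔ Sum.inl k ∈ H ∧ b.f k = some v := by
    intro v k
    have : (∃ n, g v n = Sum.inl k) ↔ (Sum.inl k : K ⊕ Qt E) ∈ range (g v) := Iff.rfl
    rw [this, ← hg v]
    constructor
    · rintro (⟨k', h2, h3, h4⟩ | h2)
      · obtain rfl := Sum.inl_injective h2
        exact ⟨h3, h4⟩
      · exact absurd h2 (by simp)
    · rintro ⟨h2, h3⟩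
      exact Or.inl ⟨k, rfl, h2, h3⟩
  refine ⟨fun n => if n % 2 = 0 then g true (n / 2) else g false (n / 2), ?_, ?_⟩
  · intro n
    dsimp only
    split_ifs
    · exact hg1 _ _
    · exact hg1 _ _
  · ext k v
    have e1 : ∀ n, (2 * n) % 2 = 0 := fun n => by omega
    have e2 : ∀ n, (2 * n) / 2 = n := fun n => by omega
    have e3 : ∀ n, ¬ (2 * n + 1) % 2 = 0 := fun n => by omega
    have e4 : ∀ n, (2 * n + 1) / 2 = n := fun n => by omega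
    unfold sq
    simp only [e1, e2, e3, e4, if_true, if_false, hg2]
    rw [Ad.on_some]
    simp only [mem_setOf_eq]
    by_cases h2 : Sum.inl k ∈ H
    · rcases hb : b.f k with _ | (_ | _)
      · simp [h2]
      · cases v <;> simp [h2]
      · cases v <;> simp [h2]
    · simp [h2]

theorem jn_on_le {Y : Set K} {a b c : Ad K} (h : a.on Y = b.on Y) :
    (Ad.jn a c).on Y ≤ (Ad.jn b c).on Y := by
  intro k v hv
  obtain ⟨h2, h3⟩ := Ad.on_some.1 hv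
  refine Ad.on_some.2 ⟨h2, ?_⟩
  rcases Ad.jn_some.1 h3 with h4 | ⟨h4, h5⟩
  · refine Ad.jn_some.2 (Or.inl ?_)
    have h6 : (a.on Y).f k = some v := by
      rw [h]; exact Ad.on_some.2 ⟨h2, h4⟩
    exact (Ad.on_some.1 h6).2
  · refine Ad.jn_some.2 (Or.inr ⟨?_, h5⟩)
    by_contra h6
    obtain ⟨w, hw⟩ := Option.ne_none_iff_exists'.1 h6
    have h7 : (b.on Y).f k = some w := by
      rw [← h]; exact Ad.on_some.2 ⟨h2, hw⟩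
    rw [(Ad.on_some.1 h7).2] at h4
    exact absurd h4 (by simp)

theorem step2 (hμ : Good E μ) {q₀ : Qt E} (hq₀ : μ ∈ q₀.1.D) (happ : App x μ q₀)
    (h1 : P1 hμ.ht x q₀) : ∃ q ≤ q₀, P2 hμ.ht x q := by
  classical
  by_contra hcon
  have hneg : ∀ q ≤ q₀, ¬ P2 hμ.ht x q := fun q hq h => hcon ⟨q, hq, h⟩
  have htsk : ∀ z : Cnd E × Ad K, ∃ w : K × Cnd E × Ad K × Ad K,
      Bl μ z.1 → z.1 ≤ rs hμ.ht q₀.1 → z.2 ≤ q₀.2 → Tsk hμ.ht x q₀.1 z.1 z.2 w := by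
    intro z
    by_cases h : Bl μ z.1 ∧ z.1 ≤ rs hμ.ht q₀.1 ∧ z.2 ≤ q₀.2
    · obtain ⟨w, hw⟩ := exists_tsk hμ.ht hq₀ h1 hneg h.1 h.2.1 h.2.2
      exact ⟨w, fun _ _ _ => hw⟩
    · exact ⟨(μ, ⊤, ⊤, ⊤), fun h2 h3 h4 => absurd ⟨h2, h3, h4⟩ h⟩
  choose W hW using htsk
  let pr : (ℕ → K ⊕ Qt E) → Cnd E × Ad K := fun f =>
    ((f 0).elim (fun _ => ⊤) fun q => q.1, (f 1).elim (fun _ => ⊤) fun q => q.2)
  let G : ℕ → (ℕ → K ⊕ Qt E) → K ⊕ Qt E := fun n f => match n with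
    | 0 => Sum.inr q₀
    | 1 => Sum.inr (⊤, sq f)
    | 2 => Sum.inl (W (pr f)).1
    | 3 => Sum.inr ((W (pr f)).2.1, (W (pr f)).2.2.1)
    | 4 => Sum.inr ((W (pr f)).2.1, (W (pr f)).2.2.2)
    | n + 5 => (f 0).elim (fun k => Sum.inl k) fun q => Sum.inl (en q n)
  obtain ⟨δ, hδμ, hδ, H, hG, hH1, hH2, hH3⟩ := exists_hull hμ G
  have h0 : Sum.inr q₀ ∈ H := hG 0 (fun _ => Sum.inr ⊤) fun _ => hH3 ⊤ ⟨⟨by
    rintro y rfl
    exact (E.b0_le _).trans_lt hδ.o1, fun N hN => hN.elim⟩, fun k hk => absurd rfl hk⟩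
  have hsupp : ∀ q, Sum.inr q ∈ H → ∀ k ∈ supp q, Sum.inl k ∈ H := by
    intro q hq k hk
    rw [en_spec] at hk
    obtain ⟨n, rfl⟩ := hk
    exact hG (n + 5) (fun _ => Sum.inr q) fun _ => hq
  have hbelow : ∀ q, Sum.inr q ∈ H → ∀ k ∈ supp q, k < μ → k < δ := fun q hq k hk hkμ =>
    hH2 k hkμ (hsupp q hq k hk)
  -- adding the height
  have hadd : ∀ N ∈ q₀.1.M, ∀ y ∈ N, δ ≤ y → (∀ δ' ∈ q₀.1.D, δ' ≤ y → δ' < δ) → δ ∈ N := by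
    intro N hN y hy h2 h3
    have h4 : μ ≤ y := by
      by_contra h5
      exact absurd (hbelow q₀ h0 y (Or.inl (Or.inr ⟨N, hN, hy⟩)) (not_le.1 h5)) (not_lt.2 h2)
    exact absurd (h3 μ hq₀ h4) (not_lt.2 hδμ.le)
  obtain ⟨⟨c, b⟩, hq', e, he, hEq⟩ := happ (addHt q₀.1 δ hδ hadd, q₀.2)
    ⟨addHt_le q₀.1 δ hδ hadd, le_rfl⟩ δ hδμ
  have hδc : δ ∈ c.D := hq'.1.1 (Or.inl rfl)
  have hcc : c ≤ q₀.1 := hq'.1.trans (addHt_le q₀.1 δ hδ hadd)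
  have hbb : b ≤ q₀.2 := hq'.2
  have hμc : μ ∈ c.D := hcc.1 hq₀
  let u := rs hδ c
  have hu : Bl δ u := bl_rs hδ hδc
  have huμ : Bl μ u := ⟨hu.1.trans (Iio_subset_Iio hδμ.le), fun N hN =>
    (hu.2 N hN).trans (Iio_subset_Iio hδμ.le)⟩
  have hu1 : u ≤ rs hμ.ht q₀.1 := by
    constructor
    · rw [rs_D hμ.ht hq₀, rs_D hδ hδc]
      rintro y ⟨hy1, hy2⟩
      exact ⟨hcc.1 hy1, hbelow q₀ h0 y (Or.inl (Or.inl hy1)) hy2⟩
    · rw [rs_M hμ.ht hq₀, rs_M hδ hδc]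
      rintro _ ⟨N, hN, rfl⟩
      refine ⟨N, hcc.2 hN, ?_⟩
      ext y
      constructor
      · rintro ⟨hy1, hy2⟩
        exact ⟨hy1, lt_trans hy2 hδμ⟩
      · rintro ⟨hy1, hy2⟩
        exact ⟨hy1, hbelow q₀ h0 y (Or.inl (Or.inr ⟨N, hN, hy1⟩)) hy2⟩
  let Y : Set K := {k | Sum.inl k ∈ H}
  have hb1 : b.on Y ≤ q₀.2 := by
    intro k v hv
    exact Ad.on_some.2 ⟨hsupp q₀ h0 k (Or.inr (by simp [hv])), hbb k v hv⟩
  obtain ⟨f, hf, hf'⟩ := exists_sq H q₀ h0 b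
  have hbH : Sum.inr ((⊤ : Cnd E), b.on Y) ∈ H := by
    have := hG 1 f hf
    change Sum.inr ((⊤ : Cnd E), sq f) ∈ H at this
    rwa [hf'] at this
  have huH : Sum.inr (u, (⊤ : Ad K)) ∈ H := hH3 _ ⟨hu, fun k hk => absurd rfl hk⟩
  let f' : ℕ → K ⊕ Qt E := fun n => if n = 0 then Sum.inr (u, ⊤) else Sum.inr (⊤, b.on Y)
  have hf'H : ∀ n, f' n ∈ H := by
    intro n
    dsimp only [f']
    split_ifs
    · exact huH
    · exact hbH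
  have hpr : pr f' = (u, b.on Y) := by
    simp [pr, f']
  have hT := hW (u, b.on Y) huμ hu1 hb1
  have k1 := hG 2 f' hf'H
  have k2 := hG 3 f' hf'H
  have k3 := hG 4 f' hf'H
  simp only [G, hpr] at k1 k2 k3
  generalize W (u, b.on Y) = w at hT k1 k2 k3
  obtain ⟨α, u', b₀, b₁⟩ := w
  obtain ⟨t1, t2, t3, t4, t5, t6, t7⟩ := hT
  simp only at t1 t2 t3 t4 t5 t6 t7 k1 k2 k3
  have hαδ : α < δ := hH2 α t1 k1
  have hu'δ : Bl δ u' := by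
    constructor
    · intro y hy
      exact hbelow _ k2 y (Or.inl (Or.inl hy)) (t3.1 hy)
    · intro N hN y hy
      exact hbelow _ k2 y (Or.inl (Or.inr ⟨N, hN, hy⟩)) (t3.2 N hN hy)
  obtain ⟨s, s1, s2, s3, s4⟩ := exists_factor hδ hδc hu'δ t2
  obtain ⟨t8, t9⟩ := t7 s (s1.trans hcc) s2
  have hcomp : ∀ a : Ad K, a ≤ b.on Y → (∀ k, a.f k ≠ none → k ∈ Y) →
      ∀ k v w, a.f k = some v → b.f k = some w → v = w := by
    intro a ha haY k v w h2 h3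
    have h4 := ha k w (Ad.on_some.2 ⟨haY k (by simp [h2]), h3⟩)
    rw [h2] at h4
    exact Option.some.inj h4
  have hc0 := hcomp b₀ t4 fun k hk => hsupp _ k2 k (Or.inr hk)
  have hc1 := hcomp b₁ t5 fun k hk => hsupp _ k3 k (Or.inr hk)
  have hjn := jn_on_le (c := b) t6
  have f0 : FI x α (s, Ad.jn b₀ b) := t8.mono ⟨le_rfl, Ad.jn_le_left _ _⟩
  have f1 : NI x α (s, Ad.jn b₁ b) := t9.mono ⟨le_rfl, Ad.jn_le_left _ _⟩
  have g0 : FI e α (s, Ad.jn b₀ b) := (hEq α hαδ (s, Ad.jn b₀ b) ⟨s1, Ad.jn_le_right hc0⟩).1 f0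
  have g1 : NI e α (s, Ad.jn b₁ b) :=
    (hEq.mono (show (s, Ad.jn b₁ b) ≤ (c, b) from ⟨s1, Ad.jn_le_right hc1⟩)).ni hαδ f1
  exact no_split (t₀ := (s, Ad.jn b₀ b)) (t₁ := (s, Ad.jn b₁ b)) hμ.ht he (s1.1 hμc) (s1.1 hμc)
    ⟨le_rfl, hjn⟩ g0 g1

theorem step3 (hμ : E.Ht μ) (hp : μ ∈ p.1.D) (h : P2 hμ x p) :
    ∃ e : K → Set (Qt E), (∀ i, ∀ u ∈ e i, BL μ u) ∧ Eqv x e p μ := by
  refine ⟨fun α => {u | ∃ r ≤ p, FI x α r ∧ u = Rs hμ r}, ?_, ?_⟩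
  · rintro i _ ⟨r, hr, -, rfl⟩
    exact BL_Rs hμ (hr.1.1 hp)
  · intro α hα r hr
    constructor
    · intro h1 q' hq'
      have hμq : μ ∈ q'.1.D := (hq'.trans hr).1.1 hp
      obtain ⟨s, hs1, hs2, -, -⟩ := exists_fac hμ hμq (BL_Rs hμ hμq) le_rfl
      exact ⟨s, hs1, Rs hμ q', ⟨q', hq'.trans hr, h1.mono hq', rfl⟩, hs2⟩
    · intro h1
      refine fi_of_not_ni fun q' hq' h2 => ?_
      obtain ⟨q'', hq'', _, ⟨r', hr', h3, rfl⟩, h4⟩ := h1 q' hq'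
      have hμr : μ ∈ r'.1.D := hr'.1.1 hp
      have hμq : μ ∈ q''.1.D := (hq''.trans (hq'.trans hr)).1.1 hp
      have h5 : Rs hμ q'' ≤ Rs hμ r' := Rs_le hμ hμq (BL_Rs hμ hμr) h4
      obtain ⟨s, hs1, hs2, hs3, -⟩ := exists_fac hμ hμr (BL_Rs hμ hμq) h5
      exact h α hα s q'' (hs1.trans hr') (hq''.trans (hq'.trans hr)) hs3 (h3.mono hs1)
        (h2.mono hq'')

/-- The approximation lemma. -/
theorem exists_guess (hμ : Good E μ) (hp : μ ∈ p.1.D) (happ : App x μ p) :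
    ∃ q ≤ p, ∃ e : K → Set (Qt E), (∀ i, ∀ u ∈ e i, BL μ u) ∧ Eqv x e q μ := by
  obtain ⟨q₀, h0, h1⟩ := step1 hμ hp happ
  have hμ0 : μ ∈ q₀.1.D := h0.1.1 hp
  obtain ⟨q₁, h2, h3⟩ := step2 hμ hμ0 (fun q hq => happ q (hq.trans h0)) h1
  obtain ⟨e, he, h4⟩ := step3 hμ.ht (h2.1.1 hμ0) h3
  exact ⟨q₁, h2.trans h0, e, he, h4⟩

end Pool.Agent.X209.Vi
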