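import Pool.Agent.X209.Vi.Measure

/-!
# Preservation of cardinals, combinatorial part
-/

set_option autoImplicit false
set_option linter.unusedSectionVars false
set_option linter.deprecated false

open Set Cardinal

namespace Pool.Agent.X209.Vi

open Setup Cnd Qt Pool.Agent.X209.Gss

variable {K : Type} [LinearOrder K] [WellFoundedLT K] {E : Setup K}

theorem exists_mex {X : Set K} (hX : X.Countable) : ∃ i, IsMex X i ∧ i < E.o1 := by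
  have h1 : (Xᶜ ∩ Iio E.o1 : Set K).Nonempty := by
    by_contra h
    rw [not_nonempty_iff_eq_empty] at h
    refine E.o1_unc (hX.mono fun x hx => ?_)
    by_contra h2
    have : x ∈ (Xᶜ ∩ Iio E.o1 : Set K) := ⟨h2, hx⟩
    rw [h] at this
    exact this
  obtain ⟨i, ⟨h2, h3⟩, hmin⟩ := WellFounded.has_min (wellFounded_lt (α := K)) _ h1
  refine ⟨i, ⟨h2, fun y hy => ?_⟩, h3⟩
  by_contra h4
  exact hmin y ⟨h4, lt_trans hy h3⟩ hy

/-- Names of functions on the natural numbers are bounded below `ω₁`. -/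
theorem bd_omega (p : Qt E) (Dn : ℕ → K → Qt E → Prop)
    (hop : ∀ n α q r, Dn n α q → r ≤ q → Dn n α r)
    (hun : ∀ n α β q, Dn n α q → Dn n β q → α = β)
    (hde : ∀ n, ∀ q ≤ p, ∃ r ≤ q, ∃ α < E.o1, Dn n α r) :
    ∃ q ≤ p, ∃ β < E.o1, ∀ n α, ∀ r ≤ q, Dn n α r → α < β := by
  obtain ⟨X, hX, hYX, b, hb, hH⟩ := exists_gs (E := E)
    (fun w : Cnd E × K => {w.2} ∪ ci w.1)
    (fun w => (countable_singleton _).union (ci_fin _).countable)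
    (fun t w b => t.1 ≤ p.1 → (w.1 ≤ t.1 ∧ w.2 < E.o1 ∧ Dn t.2 w.2 (w.1, b)))
    (by
      intro t w b b' h hb ht
      obtain ⟨h1, h2, h3⟩ := h ht
      exact ⟨h1, h2, hop _ _ _ _ h3 ⟨le_rfl, hb⟩⟩)
    p.2 (by
      intro t b hb
      by_cases ht : t.1 ≤ p.1
      · obtain ⟨r, hr, α, hα, h1⟩ := hde t.2 (t.1, b) ⟨ht, hb⟩
        exact ⟨r.2, hr.2, (r.1, α), fun _ => ⟨hr.1, hα, h1⟩⟩
      · exact ⟨b, le_rfl, (⊤, E.b0), fun h => absurd h ht⟩)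
    (Y := ci p.1) (ci_fin _).countable
  have hpX : In X p.1 := in_iff.2 hYX
  obtain ⟨i, hi, hio⟩ := exists_mex (E := E) hX.cnt
  refine ⟨(addNd p.1 X hX hpX.1 hpX.2, b), ⟨addNd_le p.1 X hX hpX.1 hpX.2, hb⟩, i, hio, ?_⟩
  rintro n α ⟨c, b'⟩ hr h1
  have hXc : X ∈ c.M := hr.1.2 (mem_addNd p.1 X hX hpX.1 hpX.2)
  have hc : c ≤ p.1 := hr.1.trans (addNd_le p.1 X hX hpX.1 hpX.2)
  obtain ⟨⟨r', α'⟩, hw, hD⟩ := hH _ (in_res c X (c.nd X hXc)) n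
  obtain ⟨h2, h3, h4⟩ := hD (res_le (c.nd X hXc) hc hpX)
  simp only at h2 h3 h4 hw
  obtain ⟨s, s1, s2, -, -⟩ := exists_amalg c r' hXc h2 (in_iff.2 fun x hx => hw (Or.inr hx))
  have h5 : α = α' := hun n α α' (s, b') (hop _ _ _ _ h1 ⟨s1, le_rfl⟩)
    (hop _ _ _ _ h4 ⟨s2, hr.2⟩)
  have h6 : α' ∈ X := hw (Or.inl rfl)
  rw [h5]
  rcases lt_trichotomy α' i with h7 | h7 | h7
  · exact h7
  · rw [h7] at h6
    exact absurd h6 hi.1
  · exact absurd (hX.seg α' h6 h3 h7) hi.1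

/-- Names of functions on a bounded set are bounded in `K`. -/
theorem bd_kappa {κ : Cardinal.{0}} (hκ : Supercompact κ) (hI : Inac κ K) (p : Qt E) (β : K)
    (Dn : K → K → Qt E → Prop) (hop : ∀ n α q r, Dn n α q → r ≤ q → Dn n α r)
    (hun : ∀ n α β q, Dn n α q → Dn n β q → α = β)
    (hde : ∀ n < β, ∀ q ≤ p, ∃ r ≤ q, ∃ α, Dn n α r) :
    ∃ q ≤ p, ∃ γ, ∀ n < β, ∀ α, ∀ r ≤ q, Dn n α r → α < γ := by
  let T : Type := K ⊕ ((K → Set (Qt E)) ⊕ Qt E)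
  let jK : K → T := Sum.inl
  let jN : (K → Set (Qt E)) → T := fun e => Sum.inr (Sum.inl e)
  let jQ : Qt E → T := fun e => Sum.inr (Sum.inr e)
  have hjK : Function.Injective jK := Sum.inl_injective
  have hjQ : Function.Injective jQ := Sum.inr_injective.comp Sum.inr_injective
  obtain ⟨a, -, hC, μ, hμ, hG, hBL, -, hcl⟩ := exists_a (E := E) hκ hI (T := T) (jK := jK)
    (jN := jN) (jQ := jQ) hjK hjQ (fun n => if n = 0 then jQ p else jK β) (ι := Unit) (fun _ => 2)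
    (fun _ t y z => ∃ u ξ u' α, t 0 = jQ u ∧ t 1 = jK ξ ∧ y = jQ u' ∧ z = jK α ∧
          u' ≤ u ∧ Dn ξ α u')
  have hy : jQ p ∈ a := hC 0
  have hz : jK β ∈ a := hC 1
  have hp : BL μ p := (hBL p).1 hy
  have hβ : β < μ := (hμ β).1 hz
  have hadd : ∀ N ∈ p.1.M, ∀ x ∈ N, μ ≤ x → (∀ δ ∈ p.1.D, δ ≤ x → δ < μ) → μ ∈ N :=
    fun N hN x hx h1 _ => absurd (hp.1.2 N hN hx) (not_lt.2 h1)
  refine ⟨(addHt p.1 μ hG.ht hadd, p.2), ⟨addHt_le p.1 μ hG.ht hadd, le_rfl⟩, μ, ?_⟩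
  intro ξ hξ α r hr h1
  have hμr : μ ∈ r.1.D := hr.1.1 (Or.inl rfl)
  have hrp : r ≤ p := hr.trans ⟨addHt_le p.1 μ hG.ht hadd, le_rfl⟩
  have h2 : Rs hG.ht r ≤ p := Rs_le hG.ht hμr hp hrp
  obtain ⟨u₁, hu1, α₁, h3⟩ := hde ξ hξ _ h2
  obtain ⟨y', hy', z', hz', u, ξ', u', α', e1, e2, rfl, rfl, h4, h5⟩ := hcl ()
    ![jQ (Rs hG.ht r), jK ξ] (by
      intro i
      fin_cases i
      · exact (hBL _).2 (BL_Rs hG.ht hμr)
      · exact (hμ ξ).2 (hξ.trans hβ)) ⟨_, _, _, _, u₁, α₁, rfl, rfl, rfl, rfl, hu1, h3⟩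
  obtain rfl := hjQ e1.symm
  obtain rfl := hjK e2.symm
  obtain ⟨s, s1, s2, -, -⟩ := exists_fac hG.ht hμr ((hBL _).1 hy') h4
  rw [hun _ α α' s (hop _ _ _ _ h1 s1) (hop _ _ _ _ h5 s2)]
  exact (hμ _).1 hz'

/-- Nodes with the same height agree. -/
theorem node_eq (c : Cnd E) {N N' : Set K} (hN : N ∈ c.M) (hN' : N' ∈ c.M) {γ i : K} (h1 : γ ∈ N)
    (h2 : γ ∈ N') (h3 : IsMex N i) (h4 : IsMex N' i) : N ∩ Iic γ = N' ∩ Iic γ := by
  have key : ∀ N N' : Set K, N ∈ c.M → N' ∈ c.M → γ ∈ N → γ ∈ N' → IsMex N i → IsMex N' i →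
      ∀ δ, E.cd (N ∩ cut c.D δ) ∈ N' → False := by
    intro N N' hN hN' h1 h2 h3 h4 δ h5
    have hio : i < E.o1 := h3.lt_o1 (c.nd N hN).cnt
    have h6 : IsMex (N ∩ cut c.D δ) i := by
      refine ⟨fun h => h3.1 h.1, fun x hx => ⟨h3.2 hx, fun δ' hδ' h7 => ?_⟩⟩
      by_cases h8 : δ' = E.b0
      · rw [h8]; exact E.b0_le δ
      · have h9 := (c.ht δ' hδ' h8).o1
        exact absurd (h9.trans_le h7) (not_lt.2 (lt_trans hx hio).le)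
    exact h4.1 ((c.nd N' hN').mex _ ((c.nd N hN).cnt.mono inter_subset_left) h5 i h6)
  obtain ⟨δ, h5, h6, h7, h8⟩ := c.pr N hN γ h1
  obtain ⟨δ', h5', h6', h7', h8'⟩ := c.pr N' hN' γ h2
  have h9 : δ = δ' := le_antisymm (h8' δ h5 h7) (h8 δ' h5' h7')
  subst h9
  rcases c.cp N hN N' hN' δ h5 h6 h6' with h10 | h10 | h10
  · have h11 : Iic γ ⊆ cut c.D δ := fun x hx δ' h12 h13 => h8 δ' h12 (le_trans h13 hx)
    have h12 : ∀ N : Set K, N ∩ Iic γ = N ∩ cut c.D δ ∩ Iic γ := by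
      intro N
      rw [inter_assoc, inter_eq_self_of_subset_right h11]
    rw [h12, h10, ← h12]
  · exact (key N N' hN hN' h1 h2 h3 h4 δ h10.1).elim
  · exact (key N' N hN' hN h2 h1 h4 h3 δ h10.1).elim

/-- Any countable set can be put in a node. -/
theorem exists_add_nd (p : Qt E) {Y : Set K} (hY : Y.Countable) :
    ∃ q ≤ p, ∃ N ∈ q.1.M, Y ⊆ N := by
  obtain ⟨X, hX, hYX⟩ := exists_nd (E := E) ((ci_fin p.1).countable.union hY)
  have hpX : In X p.1 := in_iff.2 (subset_union_left.trans hYX)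
  exact ⟨(addNd p.1 X hX hpX.1 hpX.2, p.2), ⟨addNd_le p.1 X hX hpX.1 hpX.2, le_rfl⟩, X,
    mem_addNd p.1 X hX hpX.1 hpX.2, subset_union_right.trans hYX⟩

end Pool.Agent.X209.Vi
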