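import Pool.Agent.X209.Vi.Hn
import Pool.Agent.X209.Vi.Pres

/-!
# The chosen set of names
-/

set_option autoImplicit false
set_option linter.unreachableTactic false
set_option linter.unusedTactic false
set_option linter.unusedSectionVars false
set_option linter.deprecated false

namespace Pool.Agent.X209.Vi

open Pool.Agent.W868 Pool.Agent.W868.PName Pool.Agent.X209.Gss
open ZFSet (pair)
open Cardinal

section sat

variable {K : Type} [LinearOrder K] [WellFoundedLT K] {P : Type} [Preorder P] [OrderTop P]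

/-- The set `H`. -/
def Hs (K : Type) {P : Type} [Preorder P] [OrderTop P] (π : Pkg P) : Set ZFSet.{0} :=
  {x | x ∈ π.val (HH K P)}

theorem nd_satH {S : Set (PName P)} (hH : HH K P ∈ S) : {n : ℕ} → (φ : Fml Empty n) → {m : ℕ} →
    (σ : Fin n → Fin m ⊕ PName P) → (∀ k, TOver S (σ k)) →
    NDfn S fun π (v : Fin m → ZFSet.{0}) =>
      Sat (Hs K π) Empty.elim φ (fun k => Sum.elim v π.val (σ k))
  | _, .mem (Sum.inl i) (Sum.inl j), m, σ, hσ =>
    ⟨.mem (σ i) (σ j), ⟨hσ i, hσ j⟩, fun _ _ _ _ => Iff.rfl⟩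
  | _, .eq (Sum.inl i) (Sum.inl j), m, σ, hσ =>
    ⟨.eq (σ i) (σ j), ⟨hσ i, hσ j⟩, fun _ _ _ _ => Iff.rfl⟩
  | _, .mem (Sum.inr e) _, m, σ, hσ => e.elim
  | _, .mem _ (Sum.inr e), m, σ, hσ => e.elim
  | _, .eq (Sum.inr e) _, m, σ, hσ => e.elim
  | _, .eq _ (Sum.inr e), m, σ, hσ => e.elim
  | _, .neg φ, m, σ, hσ => (nd_satH hH φ σ hσ).not
  | _, .and φ ψ, m, σ, hσ => (nd_satH hH φ σ hσ).and (nd_satH hH ψ σ hσ)
  | n, .ex φ, m, σ, hσ => by
    have ih := nd_satH hH φ (m := m + 1)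
      (Fin.cases (Sum.inl 0) fun i => Sum.map Fin.succ id (σ i)) (by
        intro k
        refine Fin.cases ?_ (fun i => ?_) k
        · exact TOver.inl _
        · intro a ha
          simp only [Fin.cases_succ] at ha
          rcases hi : σ i with j | b
          · rw [hi] at ha
            exact absurd ha (by simp)
          · rw [hi] at ha
            simp only [Sum.map_inr, id_eq, Sum.inr.injEq] at ha
            exact hσ i a (by rw [hi, ha]))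
    refine NDfn.bex (F := fun π _ => π.val (HH K P))
      (Q := fun π a v => Sat (Hs K π) Empty.elim φ
        (Fin.cons a (fun k => Sum.elim v π.val (σ k)))) (NDfnF.val hH) ?_
    refine ih.congr fun π _ w _ => ?_
    have h1 : (fun k : Fin (n + 1) => Sum.elim w π.val
        ((Fin.cases (Sum.inl 0) fun i => Sum.map Fin.succ id (σ i) :
          Fin (n + 1) → Fin (m + 1) ⊕ PName P) k)) =
        Fin.cons (w 0) (fun k => Sum.elim (Fin.tail w) π.val (σ k)) := by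
      funext k
      refine Fin.cases ?_ (fun i => ?_) k
      · rfl
      · simp only [Fin.cases_succ, Fin.cons_succ]
        cases σ i with
        | inl j => rfl
        | inr b => rfl
    rw [h1]

end sat

section apt

variable {K : Type} [LinearOrder K] [WellFoundedLT K] (E : Setup K)

/-- The type of the objects considered. -/
abbrev TT : Type := HN K (Qt E) ⊕ (K ⊕ ((K → Set (Qt E)) ⊕ Qt E))

def jH (x : HN K (Qt E)) : TT E := Sum.inl x
def jK (x : K) : TT E := Sum.inr (Sum.inl x)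
def jN (x : K → Set (Qt E)) : TT E := Sum.inr (Sum.inr (Sum.inl x))
def jQ (x : Qt E) : TT E := Sum.inr (Sum.inr (Sum.inr x))

theorem jH_inj : Function.Injective (jH E) := Sum.inl_injective
theorem jK_inj : Function.Injective (jK E) := Sum.inr_injective.comp Sum.inl_injective
theorem jQ_inj : Function.Injective (jQ E) :=
  Sum.inr_injective.comp (Sum.inr_injective.comp Sum.inr_injective)
theorem jN_inj : Function.Injective (jN E) :=
  Sum.inr_injective.comp (Sum.inr_injective.comp Sum.inl_injective)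

variable {E}

/-- The name of a subset of `κ`. -/
noncomputable def nnm (ε : K → Set (Qt E)) : PName (Qt E) :=
  .mk {z : K × Qt E // z.2 ∈ ε z.1} (fun z => ck z.1.1) (fun z => z.1.2)

theorem mem_nnm (π : Pkg (Qt E)) {ε : K → Set (Qt E)} {i : K} (hi : ck i ∈ π.N) :
    π.hat (el i) ∈ π.val (nnm ε) ↔ ∃ r ∈ ε i, ∃ m, π.g m ≤ r := by
  rw [Pkg.mem_val]
  constructor
  · rintro ⟨y, hy, c, hc, hm, h⟩
    obtain ⟨⟨⟨i', r⟩, hr⟩, rfl, rfl⟩ := el_mk.1 hc
    obtain rfl := (hat_el_inj π hy hi).1 h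
    exact ⟨r, hr, hm⟩
  · rintro ⟨r, hr, hm⟩
    exact ⟨ck i, hi, r, el_mk.2 ⟨⟨(i, r), hr⟩, rfl, rfl⟩, hm, rfl⟩

theorem of_mem_nnm (π : Pkg (Qt E)) {ε : K → Set (Qt E)} {z : ZFSet.{0}}
    (h : z ∈ π.val (nnm ε)) : ∃ i : K, ck i ∈ π.N ∧ z = π.hat (el i) := by
  obtain ⟨y, hy, c, hc, -, rfl⟩ := π.mem_val.1 h
  obtain ⟨⟨⟨i, r⟩, hr⟩, rfl, rfl⟩ := el_mk.1 hc
  exact ⟨i, hy, rfl⟩

/-- The canonical name of the ordinals in the value of a name. -/
noncomputable def nice (x : PName (Qt E)) : K → Set (Qt E) :=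
  fun i => {r | Fc {x, ck i} (fun π => π.hat (el i) ∈ π.val x) r}

/-- The indices of the closure conditions. -/
inductive Ix : Type
  | fm (n : ℕ) (φ : Fml Empty (n + 1))
  | ord
  | dec
  | cut
  | nic
  | sub
  | kap
  | cod

/-- The arity. -/
def Ix.ar : Ix → ℕ
  | .fm n _ => n + 1
  | _ => 3

instance : Countable Ix := by
  have h : ∀ n, Countable (Fml Empty n) := by
    intro n
    have h2 : ∀ φ : Fml Empty n, φ.Over Set.univ := by
      intro φ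
      induction φ with
      | mem s t => exact ⟨fun a _ => trivial, fun a _ => trivial⟩
      | eq s t => exact ⟨fun a _ => trivial, fun a _ => trivial⟩
      | neg φ ih => exact ih
      | and φ ψ ih ih' => exact ⟨ih, ih'⟩
      | ex φ ih => exact ih
    have h1 := countable_fml (A := Empty) (S := Set.univ) (Set.toFinite _).countable n
    exact Set.countable_univ_iff.1 (h1.mono fun φ _ => h2 φ)
  let f : (Σ n, Fml Empty (n + 1)) ⊕ Fin 7 → Ix := fun z => match z with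
    | Sum.inl z => .fm z.1 z.2
    | Sum.inr 0 => .ord
    | Sum.inr 1 => .dec
    | Sum.inr 2 => .cut
    | Sum.inr 3 => .nic
    | Sum.inr 4 => .sub
    | Sum.inr 5 => .kap
    | Sum.inr 6 => .cod
  refine Function.Surjective.countable (f := f) ?_
  intro z
  cases z with
  | fm n φ => exact ⟨Sum.inl ⟨n, φ⟩, rfl⟩
  | ord => exact ⟨Sum.inr 0, rfl⟩
  | dec => exact ⟨Sum.inr 1, rfl⟩
  | cut => exact ⟨Sum.inr 2, rfl⟩
  | nic => exact ⟨Sum.inr 3, rfl⟩
  | sub => exact ⟨Sum.inr 4, rfl⟩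
  | kap => exact ⟨Sum.inr 5, rfl⟩
  | cod => exact ⟨Sum.inr 6, rfl⟩

/-- The statement that a formula holds in `H`. -/
def SatN {n : ℕ} (φ : Fml Empty (n + 1)) (τ : Fin n → HN K (Qt E)) (σ : HN K (Qt E))
    (π : Pkg (Qt E)) : Prop :=
  Sat (Hs K π) Empty.elim φ (Fin.cons (π.val (HN.nm σ)) fun i => π.val (HN.nm (τ i)))

/-- The parameters of the statement. -/
def SatS {n : ℕ} (τ : Fin n → HN K (Qt E)) (σ : HN K (Qt E)) : Set (PName (Qt E)) :=
  {HH K (Qt E), HN.nm σ} ∪ Set.range fun i => HN.nm (τ i)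

/-- The closure conditions. -/
def Rel (E : Setup K) : (i : Ix) → (Fin i.ar → TT E) → TT E → TT E → Prop
  | .fm n φ => fun t y z => ∃ (τ : Fin n → HN K (Qt E)) (u u' : Qt E) (σ : HN K (Qt E)),
      t = Fin.cons (jQ E u) (fun i => jH E (τ i)) ∧ y = jQ E u' ∧ z = jH E σ ∧ u' ≤ u ∧
        Fc (SatS τ σ) (SatN φ τ σ) u'
  | .ord => fun t y z => ∃ (k : K) (u u' : Qt E) (σ : HN K (Qt E)),
      t = ![jQ E u, jK E k, jK E k] ∧ y = jQ E u' ∧ z = jH E σ ∧ u' ≤ u ∧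
        Fc {HN.nm σ, ck k} (fun π => π.val (HN.nm σ) = π.hat (el k)) u'
  | .dec => fun t y z => ∃ (τ : HN K (Qt E)) (u u' : Qt E) (k : K),
      t = ![jQ E u, jH E τ, jH E τ] ∧ y = jQ E u' ∧ z = jK E k ∧ u' ≤ u ∧
        Fc {HN.nm τ, ck k} (fun π => π.val (HN.nm τ) = π.hat (el k)) u'
  | .cut => fun t y z => ∃ (ε : K → Set (Qt E)) (i : K) (u u' r : Qt E),
      t = ![jQ E u, jN E ε, jK E i] ∧ y = jQ E u' ∧ z = jQ E r ∧ u' ≤ u ∧ r ∈ ε i ∧ u' ≤ r
  | .nic => fun t y z => ∃ (τ : HN K (Qt E)),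
      t = ![jH E τ, jH E τ, jH E τ] ∧ y = z ∧ z = jN E (nice (HN.nm τ))
  | .sub => fun t y z => ∃ (ε : K → Set (Qt E)) (u u' : Qt E) (σ : HN K (Qt E)),
      t = ![jQ E u, jN E ε, jN E ε] ∧ y = jQ E u' ∧ z = jH E σ ∧ u' ≤ u ∧
        Fc {HN.nm σ, nnm ε} (fun π => π.val (HN.nm σ) = π.val (nnm ε)) u'
  | .kap => fun t y z => ∃ (u u' : Qt E) (σ : HN K (Qt E)),
      t = ![jQ E u, jQ E u, jQ E u] ∧ y = jQ E u' ∧ z = jH E σ ∧ u' ≤ u ∧
        Fc {HN.nm σ, check (kz K)} (fun π => π.val (HN.nm σ) = π.hat (kz K)) u'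
  | .cod => fun t y z => ∃ (k : K),
      t = ![jK E k, jK E k, jK E k] ∧ y = z ∧ z = jN E (fun i => {_r : Qt E | i ∈ dc E k})

/-- The properties of the chosen set. -/
structure Apt (a : Set (TT E)) (μ : K) : Prop where
  k : ∀ k, jK E k ∈ a ↔ k < μ
  good : Good E μ
  q : ∀ u, jQ E u ∈ a ↔ Qt.BL μ u
  guess : ∀ e : K → Set (Qt E), ∃ ε, jN E ε ∈ a ∧ ∀ i < μ, ∀ u, Qt.BL μ u → (u ∈ ε i ↔ u ∈ e i)
  cl : ∀ (i : Ix) (t : Fin i.ar → TT E), (∀ j, t j ∈ a) → (∃ y z, Rel E i t y z) →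
    ∃ y ∈ a, ∃ z ∈ a, Rel E i t y z

theorem exists_apt {κ : Cardinal.{0}} (hκ : Supercompact κ) (hI : Inac κ K) :
    ∃ (a : Set (TT E)) (μ : K), #a < κ ∧ Apt a μ := by
  obtain ⟨a, h1, -, μ, h2, h3, h4, h5, h6⟩ := exists_a (E := E) hκ hI (jK := jK E) (jN := jN E)
    (jQ := jQ E) (jK_inj E) (jQ_inj E) (fun _ => jK E E.b0) Ix.ar (Rel E)
  exact ⟨a, μ, h1, h2, h3, h4, h5, h6⟩

variable {a : Set (TT E)} {μ : K}

/-- The density argument. -/
theorem Apt.dense (ha : Apt a μ) {B : Type} (Φ : B → Qt E → Prop) (j : B → TT E)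
    (hcl : ∀ u, Qt.BL μ u → (∃ u' ≤ u, ∃ σ, Φ σ u') →
      ∃ u' ≤ u, Qt.BL μ u' ∧ ∃ σ, j σ ∈ a ∧ Φ σ u') (hop : ∀ σ u u', Φ σ u → u' ≤ u → Φ σ u')
    {q : Qt E} (hμ : μ ∈ q.1.D) (hex : ∀ s ≤ q, ∃ s' ≤ s, ∃ σ, Φ σ s') :
    ∃ r ≤ q, ∃ σ, j σ ∈ a ∧ Φ σ r := by
  have h1 := Qt.BL_Rs ha.good.ht hμ
  obtain ⟨s, hs1, hs2, -, -⟩ := Qt.exists_fac ha.good.ht hμ h1 le_rfl
  obtain ⟨s', hs', σ, hσ⟩ := hex s hs1
  obtain ⟨u', hu', h2, σ', h3, h4⟩ := hcl _ h1 ⟨s', hs'.trans hs2, σ, hσ⟩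
  obtain ⟨r, hr1, hr2, -, -⟩ := Qt.exists_fac ha.good.ht hμ h2 hu'
  exact ⟨r, hr1, σ', h3, hop _ _ _ h4 hr2⟩

end apt

end Pool.Agent.X209.Vi
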