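import Pool.Agent.X209.Vi.Gg

/-!
# The cardinals of the extension
-/

set_option autoImplicit false
set_option linter.unreachableTactic false
set_option linter.unusedTactic false
set_option linter.unusedSectionVars false
set_option linter.deprecated false

namespace Pool.Agent.X209.Vi

open Pool.Agent.W868 Pool.Agent.W868.PName Pool.Agent.X209.Gss
open ZFSet (pair)
open Cardinal

section W

variable {W : Set ZFSet.{0}} (hW : IsZF W)

include hW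

theorem comp_inj {x y z f g : ZFSet.{0}} (hx : x ∈ W) (hz : z ∈ W) (hy : y ∈ W) (hf : f ∈ W)
    (hg : g ∈ W) (h1 : IsInj x y f) (h2 : IsInj y z g) : ∃ h ∈ W, IsInj x z h := by
  have hB := hW.base
  have hd : Dfn W W fun w : Fin 2 → ZFSet.{0} => ∃ u ∈ y, pair (w 0) u ∈ f ∧ pair u (w 1) ∈ g := by
    (repeat' first
      | assumption
      | exact DfnF.proj _
      | exact DfnF.const (by assumption)
      | apply hB.bex | apply Dfn.and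
      | apply Dfn.eq | apply Dfn.mem | apply hB.pair')
  obtain ⟨h, hh, hhs, hh'⟩ := hW.rel_mem hx hz (Q := fun a c => ∃ u ∈ y, pair a u ∈ f ∧
    pair u c ∈ g) hd
  refine ⟨h, hh, ⟨hhs, fun a ha => ?_⟩, ?_⟩
  · obtain ⟨u, hu, hu'⟩ := h1.1.2 a ha
    have huy := (ZFSet.pair_mem_prod.1 (h1.1.1 hu)).2
    obtain ⟨c, hc, hc'⟩ := h2.1.2 u huy
    have hcz := (ZFSet.pair_mem_prod.1 (h2.1.1 hc)).2
    refine ⟨c, (hh' a c).2 ⟨ha, hcz, u, huy, hu, hc⟩, fun c' h3 => ?_⟩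
    obtain ⟨-, -, u', -, h4, h5⟩ := (hh' a c').1 h3
    rw [hu' u' h4] at h5
    exact hc' c' h5
  · intro a b c h3 h4
    obtain ⟨-, -, u, -, h5, h6⟩ := (hh' a c).1 h3
    obtain ⟨-, -, u', -, h7, h8⟩ := (hh' b c).1 h4
    rw [h2.2 u u' c h6 h8] at h5
    exact h1.2 a b u' h5 h7

theorem sub_inj {x y z f : ZFSet.{0}} (hx : x ∈ W) (hz : z ∈ W) (hf : f ∈ W) (h1 : IsInj y z f)
    (h : x ⊆ y) : ∃ g ∈ W, IsInj x z g := by
  have hB := hW.base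
  have hd : Dfn W W fun w : Fin 2 → ZFSet.{0} => pair (w 0) (w 1) ∈ f := by
    (repeat' first
      | assumption
      | exact DfnF.proj _
      | exact DfnF.const (by assumption)
      | apply Dfn.eq | apply Dfn.mem | apply hB.pair')
  obtain ⟨g, hg, hgs, hg'⟩ := hW.rel_mem hx hz (Q := fun a c => pair a c ∈ f) hd
  refine ⟨g, hg, ⟨hgs, fun a ha => ?_⟩, ?_⟩
  · obtain ⟨u, hu, hu'⟩ := h1.1.2 a (h ha)
    have huz := (ZFSet.pair_mem_prod.1 (h1.1.1 hu)).2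
    exact ⟨u, (hg' a u).2 ⟨ha, huz, hu⟩, fun c hc => hu' c ((hg' a c).1 hc).2.2⟩
  · intro a b c h3 h4
    exact h1.2 a b c ((hg' a c).1 h3).2.2 ((hg' b c).1 h4).2.2

theorem id_inj {x y : ZFSet.{0}} (hx : x ∈ W) (hy : y ∈ W) (h : x ⊆ y) :
    ∃ g ∈ W, IsInj x y g := by
  have hd : Dfn W W fun w : Fin 2 → ZFSet.{0} => w 0 = w 1 :=
    Dfn.eq (DfnF.proj 0) (DfnF.proj 1)
  obtain ⟨g, hg, hgs, hg'⟩ := hW.rel_mem hx hy (Q := fun a c => a = c) hd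
  refine ⟨g, hg, ⟨hgs, fun a ha => ⟨a, (hg' a a).2 ⟨ha, h ha, rfl⟩, fun c hc =>
    ((hg' a c).1 hc).2.2.symm⟩⟩, ?_⟩
  intro a b c h3 h4
  rw [((hg' a c).1 h3).2.2, ((hg' b c).1 h4).2.2]

end W

/-- Every function from `A` to `B` in `W` is bounded. -/
def Bdd (W : Set ZFSet.{0}) (A B : ZFSet.{0}) : Prop :=
  ∀ f ∈ W, (∀ n ∈ A, ∃ i ∈ B, pair n i ∈ f) → (∀ n ∈ A, ∀ i ∈ B, ∀ j ∈ B, pair n i ∈ f →
    pair n j ∈ f → i = j) → ∃ β ∈ B, ∀ n ∈ A, ∀ i ∈ B, pair n i ∈ f → i ∈ β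

/-- Small subsets are bounded. -/
theorem bdd_sub {W : Set ZFSet.{0}} (hW : IsZF W) {A B c F : ZFSet.{0}} (hA : A ∈ W) (hB' : B ∈ W)
    (hc : c ∈ W) (hF : F ∈ W) (h : Bdd W A B) (h0 : ∅ ∈ B) (hcB : c ⊆ B) (hi : IsInj c A F) :
    ∃ γ ∈ B, ∀ i ∈ c, i ∈ γ := by
  have hB := hW.base
  have he : (∅ : ZFSet.{0}) ∈ W := hW.empty_mem
  have hd : Dfn W W fun w : Fin 2 → ZFSet.{0} => (w 1 ∈ c ∧ pair (w 1) (w 0) ∈ F) ∨
      (¬ ∃ j ∈ c, pair j (w 0) ∈ F) ∧ w 1 = ∅ := by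
    (repeat' first
      | assumption
      | exact DfnF.proj _
      | exact DfnF.const (by assumption)
      | apply Dfn.not | apply Dfn.and | apply Dfn.or
      | apply hB.bex
      | apply Dfn.eq | apply Dfn.mem | apply hB.pair')
  obtain ⟨g, hg, hgs, hg'⟩ := hW.rel_mem hA hB' (Q := fun n i => (i ∈ c ∧ pair i n ∈ F) ∨
    (¬ ∃ j ∈ c, pair j n ∈ F) ∧ i = ∅) hd
  obtain ⟨β, hβ, h1⟩ := h g hg (by
    intro n hn
    by_cases h2 : ∃ j ∈ c, pair j n ∈ F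
    · obtain ⟨j, hj, hjn⟩ := h2
      exact ⟨j, hcB hj, (hg' n j).2 ⟨hn, hcB hj, Or.inl ⟨hj, hjn⟩⟩⟩
    · exact ⟨∅, h0, (hg' n ∅).2 ⟨hn, h0, Or.inr ⟨h2, rfl⟩⟩⟩) (by
    intro n _ i _ j _ h2 h3
    obtain ⟨-, -, h4⟩ := (hg' n i).1 h2
    obtain ⟨-, -, h5⟩ := (hg' n j).1 h3
    rcases h4 with ⟨h4, h6⟩ | ⟨h4, h6⟩ <;> rcases h5 with ⟨h5, h7⟩ | ⟨h5, h7⟩
    · exact hi.2 i j n h6 h7
    · exact absurd ⟨i, h4, h6⟩ h5
    · exact absurd ⟨j, h5, h7⟩ h4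
    · rw [h6, h7])
  refine ⟨β, hβ, fun i hi' => ?_⟩
  obtain ⟨n, hn, -⟩ := hi.1.2 i hi'
  have hnA := (ZFSet.pair_mem_prod.1 (hi.1.1 hn)).2
  exact h1 n hnA i (hcB hi') ((hg' n i).2 ⟨hnA, hcB hi', Or.inl ⟨hi', hn⟩⟩)

variable {K : Type} [LinearOrder K] [WellFoundedLT K] {E : Setup K}
  {a : Set (TT E)} {μ : K} {π : Pkg (Qt E)}

/-- Functions between sets of the ground model are bounded if their names are. -/
theorem bdd_gen {J : Type} (nj : J → ZFSet.{0}) (A B : ZFSet.{0}) (Pt : K → Prop)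
    (hAN : check A ∈ π.N) (hBN : check B ∈ π.N)
    (hA : ∀ (π : Pkg (Qt E)) (z : ZFSet.{0}), z ∈ π.hat A ↔ ∃ j, check (nj j) ∈ π.N ∧
      π.hat (nj j) = z)
    (hB : ∀ (π : Pkg (Qt E)) (z : ZFSet.{0}), z ∈ π.hat B ↔ ∃ α : K, Pt α ∧ ck α ∈ π.N ∧
      π.hat (el α) = z)
    (hbd : ∀ (p : Qt E) (Dn : J → K → Qt E → Prop), (∀ n α q r, Dn n α q → r ≤ q → Dn n α r) →
      (∀ n α β q, Dn n α q → Dn n β q → α = β) →
      (∀ n, ∀ q ≤ p, ∃ r ≤ q, ∃ α, Pt α ∧ Dn n α r) →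
      ∃ q ≤ p, ∃ β, Pt β ∧ ∀ n α, ∀ r ≤ q, Dn n α r → α < β) :
    Bdd π.W (π.hat A) (π.hat B) := by
  intro f hf h1 h2
  obtain ⟨x, hx, rfl⟩ := hf
  let S : Set (PName (Qt E)) := {x, check A, check B}
  have s1 : x ∈ S := by simp [S]
  have s2 : check A ∈ S := by simp [S]
  have s3 : check B ∈ S := by simp [S]
  have hSc : S.Countable := (Set.toFinite _).countable
  have hSπ : ∀ {π' : Pkg (Qt E)}, x ∈ π'.N → check A ∈ π'.N → check B ∈ π'.N → S ⊆ π'.N := by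
    rintro π' a1 a2 a3 z (rfl | rfl | rfl) <;> assumption
  have hd1 : ND S fun π : Pkg (Qt E) => (∀ n ∈ π.hat A, ∃ i ∈ π.hat B, pair n i ∈ π.val x) ∧
      (∀ n ∈ π.hat A, ∀ i ∈ π.hat B, ∀ j ∈ π.hat B, pair n i ∈ π.val x →
        pair n j ∈ π.val x → i = j) := by
    unfold ND
    (repeat' first
      | assumption
      | exact NDfnF.proj _
      | exact NDfnF.val (by assumption)
      | exact NDfnF.hat (by assumption)
      | apply NDfn.not | apply NDfn.and | apply NDfn.or | apply NDfn.imp | apply NDfn.iff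
      | apply NDfn.bex | apply NDfn.ball | apply NDfn.ex | apply NDfn.all
      | apply NDfn.eq | apply NDfn.mem | apply NDfnF.pair)
  have hd2 : ND S fun π : Pkg (Qt E) => ∃ β ∈ π.hat B, ∀ n ∈ π.hat A, ∀ i ∈ π.hat B,
      pair n i ∈ π.val x → i ∈ β := by
    unfold ND
    (repeat' first
      | assumption
      | exact NDfnF.proj _
      | exact NDfnF.val (by assumption)
      | exact NDfnF.hat (by assumption)
      | apply NDfn.not | apply NDfn.and | apply NDfn.or | apply NDfn.imp | apply NDfn.iff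
      | apply NDfn.bex | apply NDfn.ball | apply NDfn.ex | apply NDfn.all
      | apply NDfn.eq | apply NDfn.mem | apply NDfnF.pair)
  refine by_dense (S := S) (R := fun π : Pkg (Qt E) => ((∀ n ∈ π.hat A, ∃ i ∈ π.hat B,
      pair n i ∈ π.val x) ∧ (∀ n ∈ π.hat A, ∀ i ∈ π.hat B, ∀ j ∈ π.hat B,
      pair n i ∈ π.val x → pair n j ∈ π.val x → i = j)) → ∃ β ∈ π.hat B, ∀ n ∈ π.hat A,
      ∀ i ∈ π.hat B, pair n i ∈ π.val x → i ∈ β) (NDfn.imp hd1 hd2) hSc (hSπ hx hAN hBN)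
      (fun q hq => ?_) ⟨h1, h2⟩
  obtain ⟨q', hq', hC | hC⟩ := fc_dec hd1 hSc q
  swap
  · exact ⟨q', hq', ∅, Set.countable_empty, fun π' hS' _ h0 h3 => absurd h3 (hC π' hS' ⟨0, h0.le⟩)⟩
  let Sj : J → K → Set (PName (Qt E)) := fun j α => {x, check (nj j), ck α}
  have hSj : ∀ j α, (Sj j α).Countable := fun j α => (Set.toFinite _).countable
  have hdj : ∀ j α, ND (Sj j α) fun π : Pkg (Qt E) =>
      pair (π.hat (nj j)) (π.hat (el α)) ∈ π.val x := by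
    intro j α
    have t1 : x ∈ Sj j α := by simp [Sj]
    have t2 : check (nj j) ∈ Sj j α := by simp [Sj]
    have t3 : check (el α) ∈ Sj j α := by
      change ck α ∈ Sj j α
      simp [Sj]
    exact NDfn.mem ((NDfnF.hat t2).pair (NDfnF.hat t3)) (NDfnF.val t1)
  have hSjπ : ∀ {π' : Pkg (Qt E)} {j α}, x ∈ π'.N → check (nj j) ∈ π'.N → ck α ∈ π'.N →
      Sj j α ⊆ π'.N := by
    rintro π' j α a1 a2 a3 z (rfl | rfl | rfl) <;> assumption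
  obtain ⟨q₂, hq₂, β, hβ, hb⟩ := hbd q' (fun j α r => r ≤ q' ∧ Pt α ∧ Fc (Sj j α)
      (fun π : Pkg (Qt E) => pair (π.hat (nj j)) (π.hat (el α)) ∈ π.val x) r)
    (fun n α q r h hr => ⟨hr.trans h.1, h.2.1, h.2.2.mono hr⟩)
    (by
      rintro n α β r ⟨h3, hα, h4⟩ ⟨-, hβ, h5⟩
      obtain ⟨π', hN, h0⟩ := exists_pkg' ({x, check A, check B, check (nj n), ck α, ck β} :
        Set (PName (Qt E))) (Set.toFinite _).countable r
      have a1 : x ∈ π'.N := hN (by simp)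
      have a2 : check A ∈ π'.N := hN (by simp)
      have a3 : check B ∈ π'.N := hN (by simp)
      have a4 : check (nj n) ∈ π'.N := hN (by simp)
      have a5 : ck α ∈ π'.N := hN (by simp)
      have a6 : ck β ∈ π'.N := hN (by simp)
      have h6 := (hC π' (hSπ a1 a2 a3) ⟨0, h0.le.trans h3⟩).2 (π'.hat (nj n))
        ((hA π' _).2 ⟨n, a4, rfl⟩) (π'.hat (el α)) ((hB π' _).2 ⟨α, hα, a5, rfl⟩)
        (π'.hat (el β)) ((hB π' _).2 ⟨β, hβ, a6, rfl⟩)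
        (h4 π' (hSjπ a1 a4 a5) ⟨0, h0.le⟩) (h5 π' (hSjπ a1 a4 a6) ⟨0, h0.le⟩)
      exact (hat_el_inj π' a5 a6).1 h6)
    (by
      intro n r hr
      obtain ⟨π', hN, h0⟩ := exists_pkg' ({x, check A, check B, check (nj n)} :
        Set (PName (Qt E))) (Set.toFinite _).countable r
      have a1 : x ∈ π'.N := hN (by simp)
      have a2 : check A ∈ π'.N := hN (by simp)
      have a3 : check B ∈ π'.N := hN (by simp)
      have a4 : check (nj n) ∈ π'.N := hN (by simp)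
      obtain ⟨i, hi, hni⟩ := (hC π' (hSπ a1 a2 a3) ⟨0, h0.le.trans hr⟩).1 (π'.hat (nj n))
        ((hA π' _).2 ⟨n, a4, rfl⟩)
      obtain ⟨α, hα, hαN, rfl⟩ := (hB π' _).1 hi
      obtain ⟨s, hs, h6⟩ := exists_fc (hdj n α) (hSjπ a1 a4 hαN) hni
      rw [h0] at hs
      exact ⟨s, hs, α, hα, hs.trans hr, hα, h6⟩)
  refine ⟨q₂, hq₂.trans hq', {ck β}, Set.countable_singleton _, fun π' hS' hA' h0 _ => ?_⟩
  have hβN : ck β ∈ π'.N := hA' rfl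
  have hx' : x ∈ π'.N := hS' s1
  refine ⟨_, (hB π' _).2 ⟨β, hβ, hβN, rfl⟩, fun n hn i hi hni => ?_⟩
  obtain ⟨j, hj, rfl⟩ := (hA π' _).1 hn
  obtain ⟨α, hα, hαN, rfl⟩ := (hB π' _).1 hi
  obtain ⟨m, hm⟩ := fc_gen (hdj j α) π' (hSjπ hx' hj hαN) hni
  have hle : π'.g m ≤ q₂ := h0 ▸ π'.g_anti (Nat.zero_le m)
  exact (hat_el_mem π' hαN hβN).2 (hb j α (π'.g m) hle ⟨hle.trans hq₂, hα, hm⟩)

theorem Ctx.bdd_omega (c : Ctx a μ π) : Bdd π.W ZFSet.omega (π.hat (el E.o1)) := by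
  have h := bdd_gen (π := π) (J := ℕ) nat ZFSet.omega (el E.o1) (fun α => α < E.o1) π.om c.ho
    (fun π z => by
      rw [Pkg.hat_omega, mem_omega_iff]
      constructor
      · rintro ⟨n, rfl⟩
        exact ⟨n, π.nat_Z n, π.hat_nat n⟩
      · rintro ⟨n, -, rfl⟩
        exact ⟨n, π.hat_nat n⟩) (fun π z => mem_hat_el π)
    (fun p Dn h1 h2 h3 => bd_omega p Dn h1 h2 h3)
  rwa [Pkg.hat_omega] at h

theorem Ctx.bdd_kappa (c : Ctx a μ π) {κ : Cardinal.{0}} (hκ : Supercompact κ)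
    (hI : Inac κ K) : Bdd π.W (π.hat (el E.o1)) (π.hat (kz K)) := by
  refine bdd_gen (π := π) (J := {x : K // x < E.o1}) (fun x => el x.1) (el E.o1) (kz K)
    (fun _ => True) c.ho c.hk (fun π z => ?_) (fun π z => ?_) (fun p Dn h1 h2 h3 => ?_)
  · rw [mem_hat_el]
    constructor
    · rintro ⟨x, h1, h2, rfl⟩
      exact ⟨⟨x, h1⟩, h2, rfl⟩
    · rintro ⟨x, h2, rfl⟩
      exact ⟨x.1, x.2, h2, rfl⟩
  · rw [mem_hat_kz]
    simp only [true_and]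
  · obtain ⟨q, hq, γ, hγ⟩ := bd_kappa hκ hI p E.o1 (fun n α r => ∃ h : n < E.o1, Dn ⟨n, h⟩ α r)
      (fun n α q r ⟨h, h4⟩ hr => ⟨h, h1 _ _ _ _ h4 hr⟩)
      (fun n α β q ⟨h, h4⟩ ⟨h', h5⟩ => h2 _ _ _ _ h4 h5)
      (fun n hn q hq => by
        obtain ⟨r, hr, α, -, h4⟩ := h3 ⟨n, hn⟩ q hq
        exact ⟨r, hr, α, hn, h4⟩)
    exact ⟨q, hq, γ, trivial, fun n α r hr h4 => hγ n.1 n.2 α r hr ⟨n.2, h4⟩⟩

end Pool.Agent.X209.Vi
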