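import Pool.Agent.X209.Vi.Cd

/-!
# The collapse, and the size of the submodel
-/

set_option autoImplicit false
set_option linter.unreachableTactic false
set_option linter.unusedTactic false
set_option linter.unusedSectionVars false
set_option linter.deprecated false

namespace Pool.Agent.X209.Vi

open Pool.Agent.W868 Pool.Agent.W868.PName Pool.Agent.X209.Gss
open ZFSet (pair)
open Cardinal

section names

variable {K : Type} [LinearOrder K] [WellFoundedLT K] {P : Type} [Preorder P] [OrderTop P]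

/-- The name of a relation on `K`. -/
noncomputable def nmR (N : Set (K × K × P)) : PName P :=
  .mk {t // t ∈ N} (fun t => opN (ck t.1.1) (ck t.1.2.1)) (fun t => t.1.2.2)

theorem mem_nmR (π : Pkg P) {N : Set (K × K × P)} {a b : K} (ha : ck a ∈ π.N)
    (hb : ck b ∈ π.N) : pair (π.hat (el a)) (π.hat (el b)) ∈ π.val (nmR N) ↔
      ∃ r, (a, b, r) ∈ N ∧ ∃ k, π.g k ≤ r := by
  rw [Pkg.mem_val]
  constructor
  · rintro ⟨y, hy, c, hc, ⟨k, hk⟩, he⟩
    obtain ⟨⟨⟨a', b', r⟩, ht⟩, rfl, rfl⟩ := el_mk.1 hc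
    have h1 : (ck a' : PName P) ∈ π.N := π.fst_mem hy
    have h2 : (ck b' : PName P) ∈ π.N := π.snd_mem hy
    have h3 := π.val_opN h1 h2
    have he' : π.val (opN (ck a') (ck b')) = pair (π.hat (el a)) (π.hat (el b)) := he
    rw [he'] at h3
    obtain ⟨h4, h5⟩ := ZFSet.pair_inj.1 h3
    obtain rfl := (hat_el_inj π ha h1).1 h4
    obtain rfl := (hat_el_inj π hb h2).1 h5
    exact ⟨r, ht, k, hk⟩
  · rintro ⟨r, ht, k, hk⟩
    exact ⟨opN (ck a) (ck b), π.opN_mem ha hb, r, el_mk.2 ⟨⟨(a, b, r), ht⟩, rfl, rfl⟩, ⟨k, hk⟩,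
      π.val_opN ha hb⟩

end names

variable {K : Type} [LinearOrder K] [WellFoundedLT K] {E : Setup K}
  {a : Set (TT E)} {μ : K} {π : Pkg (Qt E)}

theorem hat_b0 (π : Pkg (Qt E)) : π.hat (el E.b0) = ∅ := by
  ext z
  rw [mem_hat_el]
  constructor
  · rintro ⟨x, hx, -⟩
    exact absurd hx (not_lt.2 (E.b0_le x))
  · intro h
    exact absurd h (ZFSet.notMem_empty z)

theorem b0_lt : E.b0 < E.o1 := by
  rcases (E.b0_le E.o1).eq_or_lt with h | h
  · exfalso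
    have h1 := E.o1_unc
    rw [← h] at h1
    refine h1 ?_
    have h2 : Set.Iio E.b0 = ∅ := by
      ext x
      simp [not_lt.2 (E.b0_le x)]
    rw [h2]
    exact Set.countable_empty
  · exact h

theorem Ctx.empty_mem (c : Ctx a μ π) : ∅ ∈ π.hat (el E.o1) := by
  rw [← hat_b0 π]
  exact (hat_el_mem π c.hb c.ho).2 b0_lt

theorem Ctx.countable (c : Ctx a μ π) {α : ZFSet.{0}} (hα : α ∈ π.hat (el E.o1)) :
    ∃ f ∈ π.W, IsInj α ZFSet.omega f := by
  obtain ⟨k, hk, hkN, rfl⟩ := (mem_hat_el π).1 hα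
  have h1 : (el k).card ≤ ZFSet.omega.card := by
    rw [card_el, card_omega]
    exact (E.o1_cnt k hk).le_aleph0
  obtain ⟨f, hf, hfi⟩ := π.exists_inj_V hkN π.om (exists_isInj h1)
  rw [Pkg.hat_omega] at hfi
  exact ⟨f, π.V_subset_W hf, hfi⟩

/-- Countable subsets of `ω₁` are bounded. -/
theorem Ctx.bdd_cnt (c : Ctx a μ π) {x F : ZFSet.{0}} (hx : x ∈ π.W) (hF : F ∈ π.W)
    (h : x ⊆ π.hat (el E.o1)) (hi : IsInj x ZFSet.omega F) :
    ∃ γ ∈ π.hat (el E.o1), ∀ i ∈ x, i ∈ γ :=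
  bdd_sub π.isZF_W π.isZF_W.infinity (π.val_mem_W c.ho) hx hF c.bdd_omega c.empty_mem h hi

theorem Ctx.aleph1 (c : Ctx a μ π) : IsAleph1 π.W (π.hat (el E.o1)) := by
  refine ⟨π.val_mem_W c.ho, π.hat_isOrdinal (el_ord _), ?_, fun α hα => c.countable hα⟩
  rintro ⟨f, hf, hi⟩
  obtain ⟨γ, hγ, h⟩ := c.bdd_cnt (π.val_mem_W c.ho) hf (fun _ h => h) hi
  exact ZFSet.mem_irrefl γ (h γ hγ)

theorem Ctx.not_inj (c : Ctx a μ π) {κ : Cardinal.{0}} (hκ : Supercompact κ) (hI : Inac κ K) :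
    ¬ ∃ f ∈ π.W, IsInj (π.hat (kz K)) (π.hat (el E.o1)) f := by
  rintro ⟨f, hf, hi⟩
  have h0 : (∅ : ZFSet.{0}) ∈ π.hat (kz K) := by
    rw [← hat_b0 π]
    exact (mem_hat_kz π).2 ⟨E.b0, c.hb, rfl⟩
  obtain ⟨γ, hγ, h⟩ := bdd_sub π.isZF_W (π.val_mem_W c.ho) (π.val_mem_W c.hk) (π.val_mem_W c.hk)
    hf (c.bdd_kappa hκ hI) h0 (fun _ h => h) hi
  exact ZFSet.mem_irrefl γ (h γ hγ)

open Classical in
/-- An enumeration of a countable set. -/
noncomputable def enn (s : Set K) (b : K) : ℕ → K :=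
  if h : s.Countable ∧ s.Nonempty then (h.1.exists_eq_range h.2).choose else fun _ => b

theorem enn_spec {s : Set K} (b : K) (h : s.Countable) (h' : s.Nonempty) :
    s = Set.range (enn s b) := by
  unfold enn
  rw [dif_pos ⟨h, h'⟩]
  exact (h.exists_eq_range h').choose_spec

/-- The relation that collapses `γ`. -/
def colS (e : K → ℕ → K) (γ : K) : Set (K × K × Qt E) :=
  {z | ∃ N ∈ z.2.2.1.M, γ ∈ N ∧ ∃ i n, Setup.IsMex N i ∧ z.1 = e i n ∧
    z.2.1 = enn (N ∩ Set.Iic γ) E.b0 n}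

theorem Ctx.col_onto (c : Ctx a μ π) {e : K → ℕ → K} (he : ∀ i < E.o1, ∀ n, e i n < E.o1)
    (hinj : ∀ i < E.o1, ∀ i' < E.o1, ∀ n n', e i n = e i' n' → i = i' ∧ n = n') {γ : K}
    (hγ : ck γ ∈ π.N) (hF : nmR (colS (E := E) e γ) ∈ π.N) :
    Onto (π.hat (el E.o1)) (π.val (nmR (colS (E := E) e γ))) (π.hat (el γ)) := by
  constructor
  · intro w hw
    obtain ⟨x, hx, hxN, rfl⟩ := (mem_hat_el π).1 hw
    let S : Set (PName (Qt E)) := {ck x, ck E.o1, nmR (colS (E := E) e γ)}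
    have s1 : check (el x) ∈ S := by
      change ck x ∈ S
      simp [S]
    have s2 : check (el E.o1) ∈ S := by
      change ck E.o1 ∈ S
      simp [S]
    have s3 : nmR (colS (E := E) e γ) ∈ S := by simp [S]
    refine by_dense (S := S) (R := fun π : Pkg (Qt E) => ∃ i ∈ π.hat (el E.o1),
      pair i (π.hat (el x)) ∈ π.val (nmR (colS (E := E) e γ))) ?_ (Set.toFinite _).countable ?_
      (fun q hq => ?_)
    · unfold ND
      (repeat' first
      | assumption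
      | exact NDfnF.proj _
      | exact NDfnF.val (by assumption)
      | exact NDfnF.hat (by assumption)
      | apply NDfn.bex
      | apply NDfn.eq | apply NDfn.mem | apply NDfnF.pair)
    · rintro z (rfl | rfl | rfl)
      exacts [hxN, c.ho, hF]
    · obtain ⟨q', hq', N, hN, hNsub⟩ := exists_add_nd q (Y := {x, γ}) (Set.toFinite _).countable
      have hxN' : x ∈ N := hNsub (by simp)
      have hγN' : γ ∈ N := hNsub (by simp)
      obtain ⟨i, hi, hio⟩ := exists_mex (E := E) (q'.1.nd N hN).cnt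
      have h1 : x ∈ N ∩ Set.Iic γ := ⟨hxN', hx.le⟩
      rw [enn_spec E.b0 ((q'.1.nd N hN).cnt.mono Set.inter_subset_left) ⟨x, h1⟩] at h1
      obtain ⟨n, hn⟩ := h1
      refine ⟨q', hq', {ck (e i n)}, Set.countable_singleton _, fun π' hS' hA' h0 => ?_⟩
      have hj : ck (e i n) ∈ π'.N := hA' rfl
      refine ⟨π'.hat (el (e i n)), (hat_el_mem π' hj (hS' s2)).2 (he i hio n), ?_⟩
      refine (mem_nmR π' hj (hS' s1)).2 ⟨q', ⟨N, hN, hγN', i, n, hi, rfl, hn.symm⟩, 0, h0.le⟩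
  · intro j hj w hw w' hw' h1 h2
    obtain ⟨j₀, hj₀, hjN, rfl⟩ := (mem_hat_el π).1 hj
    obtain ⟨x, hx, hxN, rfl⟩ := (mem_hat_el π).1 hw
    obtain ⟨x', hx', hxN', rfl⟩ := (mem_hat_el π).1 hw'
    obtain ⟨r, ⟨N, hN, hγN, i, n, hi, h3, h4⟩, k, hk⟩ := (mem_nmR π hjN hxN).1 h1
    obtain ⟨r', ⟨N', hN', hγN', i', n', hi', h3', h4'⟩, k', hk'⟩ := (mem_nmR π hjN hxN').1 h2
    simp only at hN hN' h3 h3' h4 h4'
    have hio : i < E.o1 := hi.lt_o1 (r.1.nd N hN).cnt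
    have hio' : i' < E.o1 := hi'.lt_o1 (r'.1.nd N' hN').cnt
    obtain ⟨rfl, rfl⟩ := hinj i hio i' hio' n n' (h3.symm.trans h3')
    have hN₁ : N ∈ (π.g (max k k')).1.M := (((π.g_le_left k k').trans hk).1.2) hN
    have hN₂ : N' ∈ (π.g (max k k')).1.M := (((π.g_le_right k k').trans hk').1.2) hN'
    have h5 := node_eq (π.g (max k k')).1 hN₁ hN₂ hγN hγN' hi hi'
    rw [h4, h4', h5]

theorem exists_e (hinf : Infinite K) : ∃ e : K → ℕ → K, (∀ i < E.o1, ∀ n, e i n < E.o1) ∧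
    ∀ i < E.o1, ∀ i' < E.o1, ∀ n n', e i n = e i' n' → i = i' ∧ n = n' := by
  classical
  have h1 : ℵ₀ ≤ #(Set.Iio E.o1) := by
    by_contra h
    push Not at h
    have h2 : (Set.Iio E.o1).Countable := by
      rw [← Cardinal.le_aleph0_iff_set_countable]
      exact h.le
    exact E.o1_unc h2
  have h2 : #(Set.Iio E.o1 × ℕ) ≤ #(Set.Iio E.o1) := by
    rw [mk_prod, lift_id, lift_id, mk_nat]
    exact (mul_le_mul' le_rfl h1).trans (mul_eq_self h1).le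
  obtain ⟨g⟩ := h2
  refine ⟨fun i n => if h : i < E.o1 then (g (⟨i, h⟩, n)).1 else i, fun i hi n => ?_,
    fun i hi i' hi' n n' h => ?_⟩
  · simp only [dif_pos hi]
    exact (g (⟨i, hi⟩, n)).2
  · simp only [dif_pos hi, dif_pos hi'] at h
    have h3 := g.injective (Subtype.ext h)
    simp only [Prod.mk.injEq] at h3
    exact ⟨congrArg Subtype.val h3.1, h3.2⟩

/-- Every ordinal below `κ` injects into `ω₁`. -/
theorem Ctx.collapse (c : Ctx a μ π) {α : ZFSet.{0}} (hα : α ∈ π.hat (kz K)) :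
    ∃ f ∈ π.W, IsInj α (π.hat (el E.o1)) f := by
  obtain ⟨γ, hγ, rfl⟩ := (mem_hat_kz π).1 hα
  obtain ⟨e, he, hinj⟩ := exists_e (E := E) c.hc.infinite
  let S : Set (PName (Qt E)) := Sn a μ ∪ {ck γ}
  have s1 : check (el γ) ∈ S := Or.inr rfl
  have s2 : check (el E.o1) ∈ S := by
    change ck E.o1 ∈ S
    exact Or.inl (by simp [Sn])
  have hd : ND S fun π : Pkg (Qt E) => ∃ f ∈ π.W, IsInj (π.hat (el γ)) (π.hat (el E.o1)) f := by
    refine NDfn.ex (Q := fun π f _ => IsInj (π.hat (el γ)) (π.hat (el E.o1)) f) ?_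
    exact nd_isInj (NDfnF.hat s1) (NDfnF.hat s2) (NDfnF.proj 0)
  refine by_dense hd ((Sn_cnt a μ).union (Set.countable_singleton _))
    (Set.union_subset c.sub (Set.singleton_subset_iff.2 hγ)) fun q hq => ?_
  refine ⟨q, le_rfl, {nmR (colS (E := E) e γ)}, Set.countable_singleton _,
    fun π' hS' hA' h0 => ?_⟩
  have c' : Ctx a μ π' := c.change (fun z hz => hS' (Or.inl hz)) (by rw [h0]; exact hq)
  have hγ' : ck γ ∈ π'.N := hS' s1
  have hF : nmR (colS (E := E) e γ) ∈ π'.N := hA' rfl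
  exact inj_of_onto π'.isZF_W (π'.val_mem_W hγ') (π'.val_mem_W c'.ho) (π'.val_mem_W hF)
    (π'.hat_isOrdinal (el_ord _)) (c'.col_onto he hinj hγ' hF)

/-- The name of an enumeration of the submodel. -/
noncomputable def MF {β : K} (s : Set.Iio β → HN K (Qt E)) : PName (Qt E) :=
  .mk (Set.Iio β) (fun i => opN (ck i.1) (HN.nm (s i))) (fun _ => ⊤)

theorem mem_MF {β : K} {s : Set.Iio β → HN K (Qt E)} {k : K} (hk : ck k ∈ π.N) {z : ZFSet.{0}} :
    pair (π.hat (el k)) z ∈ π.val (MF s) ↔ ∃ h : k < β, HN.nm (s ⟨k, h⟩) ∈ π.N ∧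
      π.val (HN.nm (s ⟨k, h⟩)) = z := by
  rw [Pkg.mem_val]
  constructor
  · rintro ⟨y, hy, c, hc, -, h⟩
    obtain ⟨⟨k', hk'⟩, rfl, rfl⟩ := el_mk.1 hc
    have h1 : (ck k' : PName (Qt E)) ∈ π.N := π.fst_mem hy
    have h2 := π.snd_mem hy
    rw [π.val_opN h1 h2] at h
    obtain ⟨h3, h4⟩ := ZFSet.pair_inj.1 h
    obtain rfl := (hat_el_inj π h1 hk).1 h3
    exact ⟨hk', h2, h4⟩
  · rintro ⟨h, h1, rfl⟩
    exact ⟨_, π.opN_mem hk h1, ⊤, el_mk.2 ⟨⟨k, h⟩, rfl, rfl⟩, ⟨0, le_top⟩, π.val_opN hk h1⟩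

theorem Ctx.MF_onto (c : Ctx a μ π) {β : K} {s : Set.Iio β → HN K (Qt E)}
    (hs : ∀ i, jH E (s i) ∈ a) (hs' : ∀ τ, jH E τ ∈ a → ∃ i, s i = τ)
    (hβ : ck β ∈ π.N) (hF : MF s ∈ π.N) :
    Onto (π.hat (el β)) (π.val (MF s)) (π.val (Mn a)) := by
  constructor
  · intro w hw
    obtain ⟨τ, hτ, hτN, rfl⟩ := mem_Mn.1 hw
    obtain ⟨⟨k, hk⟩, rfl⟩ := hs' τ hτ
    let S : Set (PName (Qt E)) := {HN.nm (s ⟨k, hk⟩), MF s, ck β}
    have s1 : HN.nm (s ⟨k, hk⟩) ∈ S := by simp [S]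
    have s2 : MF s ∈ S := by simp [S]
    have s3 : check (el β) ∈ S := by
      change ck β ∈ S
      simp [S]
    refine all_of π (S := S) (R := fun π => ∃ i ∈ π.hat (el β),
      pair i (π.val (HN.nm (s ⟨k, hk⟩))) ∈ π.val (MF s)) ?_ (Set.toFinite _).countable {ck k}
      (Set.countable_singleton _) (fun π' hS hA => ?_) ?_
    · unfold ND
      (repeat' first
      | assumption
      | exact NDfnF.proj _
      | exact NDfnF.val (by assumption)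
      | exact NDfnF.hat (by assumption)
      | apply NDfn.bex
      | apply NDfn.eq | apply NDfn.mem | apply NDfnF.pair)
    · have hkN : ck k ∈ π'.N := hA rfl
      exact ⟨π'.hat (el k), (hat_el_mem π' hkN (hS s3)).2 hk,
        (mem_MF hkN).2 ⟨hk, hS s1, rfl⟩⟩
    · rintro z (rfl | rfl | rfl) <;> assumption
  · intro i hi w _ w' _ h1 h2
    obtain ⟨k, hk, hkN, rfl⟩ := (mem_hat_el π).1 hi
    obtain ⟨_, _, h3⟩ := (mem_MF hkN).1 h1
    obtain ⟨_, _, h4⟩ := (mem_MF hkN).1 h2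
    rw [← h3, h4]

/-- The submodel injects into `ω₁`. -/
theorem Ctx.size (c : Ctx a μ π) {κ : Cardinal.{0}} (hI : Inac κ K) (ha : #a < κ) :
    ∃ f ∈ π.W, IsInj (π.val (Mn a)) (π.hat (el E.o1)) f := by
  classical
  -- an enumeration of the set of names
  have hne : ∃ τ, jH E τ ∈ a := by
    obtain ⟨τ, hτ, -⟩ := mem_Mn.1 c.kap_mem
    exact ⟨τ, hτ⟩
  obtain ⟨τ₀, hτ₀⟩ := hne
  have h1 : #{τ // jH E τ ∈ a} < κ := by
    refine (mk_le_of_injective (f := fun τ : {τ // jH E τ ∈ a} => (⟨jH E τ.1, τ.2⟩ : a)) ?_).trans_lt ha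
    intro x y h
    exact Subtype.ext (jH_inj E (Subtype.ext_iff.1 h))
  have h2 : #{τ // jH E τ ∈ a} ≤ #K := by rw [hI.card]; exact h1.le
  obtain ⟨g⟩ := h2
  obtain ⟨β, hβ⟩ := hI.reg _ h1 g
  let s : Set.Iio β → HN K (Qt E) := fun i => if h : ∃ τ : {τ // jH E τ ∈ a}, g τ = i.1
    then h.choose.1 else τ₀
  have hs : ∀ i, jH E (s i) ∈ a := by
    intro i
    simp only [s]
    split_ifs with h
    · exact h.choose.2
    · exact hτ₀
  have hs' : ∀ τ, jH E τ ∈ a → ∃ i, s i = τ := by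
    intro τ hτ
    refine ⟨⟨g ⟨τ, hτ⟩, hβ _⟩, ?_⟩
    have h : ∃ τ' : {τ // jH E τ ∈ a}, g τ' = g ⟨τ, hτ⟩ := ⟨_, rfl⟩
    simp only [s, dif_pos h]
    exact congrArg Subtype.val (g.injective h.choose_spec)
  have s2 : check (el E.o1) ∈ Sn a μ := by
    change ck E.o1 ∈ Sn a μ
    simp [Sn]
  have s3 : Mn a ∈ Sn a μ := by simp [Sn]
  have hd : ND (Sn a μ) fun π : Pkg (Qt E) => ∃ f ∈ π.W,
      IsInj (π.val (Mn a)) (π.hat (el E.o1)) f := by
    refine NDfn.ex (Q := fun π f _ => IsInj (π.val (Mn a)) (π.hat (el E.o1)) f) ?_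
    exact nd_isInj (NDfnF.val s3) (NDfnF.hat s2) (NDfnF.proj 0)
  refine by_dense hd (Sn_cnt a μ) c.sub fun q hq => ?_
  refine ⟨q, le_rfl, {MF s, ck β}, (Set.toFinite _).countable, fun π' hS' hA' h0 => ?_⟩
  have c' : Ctx a μ π' := c.change hS' (by rw [h0]; exact hq)
  have hF : MF s ∈ π'.N := hA' (by simp)
  have hβN : ck β ∈ π'.N := hA' (by simp)
  obtain ⟨f, hf, hfi⟩ := inj_of_onto π'.isZF_W (π'.val_mem_W c'.hM) (π'.val_mem_W hβN)
    (π'.val_mem_W hF) (π'.hat_isOrdinal (el_ord _)) (c'.MF_onto hs hs' hβN hF)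
  obtain ⟨f', hf', hfi'⟩ := c'.collapse ((mem_hat_kz π').2 ⟨β, hβN, rfl⟩)
  exact comp_inj π'.isZF_W (π'.val_mem_W c'.hM) (π'.val_mem_W c'.ho) (π'.val_mem_W hβN) hf hf'
    hfi hfi'

theorem Ctx.o1_sub (c : Ctx a μ π) : π.hat (el E.o1) ⊆ π.val (Mn a) := by
  intro z hz
  obtain ⟨k, hk, hkN, rfl⟩ := (mem_hat_el π).1 hz
  exact c.ord_mem (hk.trans c.apt.good.ht.o1) hkN

theorem Ctx.size' (c : Ctx a μ π) : ∃ f ∈ π.W, IsInj (π.hat (el E.o1)) (π.val (Mn a)) f :=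
  id_inj π.isZF_W (π.val_mem_W c.ho) (π.val_mem_W c.hM) c.o1_sub

end Pool.Agent.X209.Vi
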