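import Pool.Agent.X209.Vi.Ng

/-!
# The final assembly
-/

set_option autoImplicit false
set_option linter.unreachableTactic false
set_option linter.unusedTactic false
set_option linter.unusedSectionVars false
set_option linter.deprecated false

namespace Pool.Agent.X209.Vi

open Pool.Agent.W868 Pool.Agent.W868.PName Pool.Agent.X209.Gss
open ZFSet (pair)
open Cardinal

variable {K : Type} [LinearOrder K] [WellFoundedLT K] {E : Setup K}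

theorem exists_ctx {κ : Cardinal.{0}} (hκ : Supercompact κ) (hI : Inac κ K) :
    ∃ (a : Set (TT E)) (μ : K) (π : Pkg (Qt E)), #a < κ ∧ Ctx a μ π ∧ nnm (hε E μ) ∈ π.N := by
  obtain ⟨a, μ, ha, hapt⟩ := exists_apt (E := E) hκ hI
  have hinf : ℵ₀ ≤ #K := by rw [hI.card]; exact hI.aleph0_le
  have : Infinite K := aleph0_le_mk_iff.1 hinf
  let p₀ : Qt E := (Cnd.addHt ⊤ μ hapt.good.ht (fun N hN => hN.elim), ⊤)
  obtain ⟨π, h1, h2⟩ := exists_pkg' (Sn a μ ∪ {nnm (hε E μ)})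
    ((Sn_cnt a μ).union (Set.countable_singleton _)) p₀
  refine ⟨a, μ, π, ha, ⟨hapt, ?_, ?_, ?_, ?_, ?_, ?_, ?_, ?_, ?_⟩, h1 (Or.inr rfl)⟩
  · rw [h2]
    exact Or.inl rfl
  · have h3 : #(List K) = #K := mk_list_eq_mk K
    obtain ⟨e⟩ := Cardinal.eq.1 h3
    exact ⟨e.symm, e.symm.surjective⟩
  · have h3 : #(K × Qt E) ≤ #K := by
      rw [mk_prod, lift_id, lift_id]
      refine (mul_le_mul' le_rfl (hI.card_qt_le.trans hI.card.ge)).trans (mul_eq_self hinf).le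
    obtain ⟨e⟩ := h3
    have : Nonempty (K × Qt E) := ⟨(E.b0, p₀)⟩
    exact ⟨Function.invFun e, Function.invFun_surjective e.injective⟩
  all_goals exact h1 (Or.inl (by simp [Sn]))

variable {a : Set (TT E)} {μ : K} {π : Pkg (Qt E)}

/-- An injection of a set into an ordinal gives a map of the ordinal onto the set. -/
theorem onto_of_inj {W : Set ZFSet.{0}} (hW : IsZF W) {t κ f : ZFSet.{0}} (ht : t ∈ W)
    (hκ : κ ∈ W) (hf : f ∈ W) (h : IsInj t κ f) : ∃ F ∈ W, Onto κ F t := by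
  have hB := hW.base
  have hd : Dfn W W fun w : Fin 2 → ZFSet.{0} => pair (w 1) (w 0) ∈ f := by
    (repeat' first
      | assumption
      | exact DfnF.proj _
      | exact DfnF.const (by assumption)
      | apply Dfn.mem | apply hB.pair')
  obtain ⟨F, hF, -, hF'⟩ := hW.rel_mem hκ ht (Q := fun i w => pair w i ∈ f) hd
  refine ⟨F, hF, fun w hw => ?_, fun i hi w hw w' hw' h1 h2 => ?_⟩
  · obtain ⟨i, hi, -⟩ := h.1.2 w hw
    have h3 := (ZFSet.pair_mem_prod.1 (h.1.1 hi)).2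
    exact ⟨i, h3, (hF' i w).2 ⟨h3, hw, hi⟩⟩
  · exact h.2 w w' i ((hF' i w).1 h1).2.2 ((hF' i w').1 h2).2.2

theorem Ctx.isHSucc (c : Ctx a μ π) : IsHSucc π.W (π.hat (kz K)) (π.val (HH K (Qt E))) := by
  have hW := π.isZF_W
  have hkW : π.hat (kz K) ∈ π.W := π.val_mem_W c.hk
  refine ⟨π.val_mem_W c.hH, fun x => ⟨fun hx => ?_, ?_⟩⟩
  · obtain ⟨t, ht, F, hF, h1, h2, -, h4⟩ := c.hc.small hx
    obtain ⟨f, hf, hfi⟩ := inj_of_onto hW ht hkW hF (π.hat_isOrdinal (kz_ord K)) h4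
    exact ⟨c.hc.sub_W hx, t, ht, h2, h1, f, hf, hfi⟩
  · rintro ⟨-, t, ht, hxt, htr, f, hf, hfi⟩
    obtain ⟨F, hF, h⟩ := onto_of_inj hW ht hkW hf hfi
    exact c.hc.all ht hF htr h hxt

theorem Ctx.isKap (c : Ctx a μ π) : IsKap (π.val (Mn a)) (π.hat (kz K)) := by
  refine ⟨c.kap_mem, π.hat_isOrdinal (kz_ord K), ?_, ?_⟩
  · intro h
    have h1 := h ((mem_hat_kz π).2 ⟨μ, c.hmu, rfl⟩)
    exact lt_irrefl _ (c.lt_mu c.hmu h1)
  · intro α hα hακ z hz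
    obtain ⟨k, hk, rfl⟩ := (mem_hat_kz π).1 hακ
    have h1 := c.lt_mu hk hα
    obtain ⟨j, hj, hjN, rfl⟩ := (mem_hat_el π).1 hz
    exact c.ord_mem (hj.trans h1) hjN

theorem Ctx.guessing (c : Ctx a μ π) : Guessing π.W (π.hat (kz K)) (π.val (Mn a)) := by
  rintro x hx ⟨y, hy, hxy⟩ h
  obtain ⟨x', hx', h1⟩ := c.guess_all hx hy hxy h
  refine ⟨x', hx', ?_⟩
  ext z
  rw [ZFSet.mem_inter, ZFSet.mem_inter]
  exact ⟨fun ⟨h2, h3⟩ => ⟨(h1 z h3).2 h2, h3⟩, fun ⟨h2, h3⟩ => ⟨(h1 z h3).1 h2, h3⟩⟩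

theorem Ctx.not_guessing (c : Ctx a μ π) (hN : nnm (hε E μ) ∈ π.N) :
    ¬ Guessing π.W (π.hat (el E.o1)) (π.val (Mn a)) := by
  intro h
  obtain ⟨x, hx, hxo, h1, h2⟩ := c.not_guess hN
  obtain ⟨x', hx', h3⟩ := h x hx ⟨_, c.ord_mem c.apt.good.ht.o1 c.ho, hxo⟩ h1
  refine h2 ⟨x', hx', fun z hz => ⟨fun h4 => ?_, fun h4 => ?_⟩⟩
  · have h5 : z ∈ x ∩ π.val (Mn a) := ZFSet.mem_inter.2 ⟨h4, hz⟩
    rw [← h3] at h5
    exact (ZFSet.mem_inter.1 h5).1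
  · have h5 : z ∈ x' ∩ π.val (Mn a) := ZFSet.mem_inter.2 ⟨h4, hz⟩
    rw [h3] at h5
    exact (ZFSet.mem_inter.1 h5).1

/-- The main theorem. -/
theorem main {κ : Cardinal.{0}} (hκ : Supercompact κ) :
    ∃ W : Set ZFSet.{0}, W.Countable ∧ IsZFC W ∧ ∃ ω₁ ω₂ H M : ZFSet.{0},
      IsAleph1 W ω₁ ∧ IsAleph2 W ω₂ ∧ IsHSucc W ω₂ H ∧ M ∈ W ∧ IsElem M H ∧
      (∃ f ∈ W, IsInj M ω₁ f) ∧ (∃ f ∈ W, IsInj ω₁ M f) ∧ ω₁ ∈ M ∧ IsKap M ω₂ ∧
      Guessing W ω₂ M ∧ ¬ Guessing W ω₁ M := by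
  obtain ⟨K, _, _, hI⟩ := exists_K hκ
  obtain ⟨E⟩ := hI.exists_setup
  obtain ⟨a, μ, π, ha, c, hN⟩ := exists_ctx (E := E) hκ hI
  exact ⟨π.W, π.countable_W, π.isZFC_W, π.hat (el E.o1), π.hat (kz K), π.val (HH K (Qt E)),
    π.val (Mn a), c.aleph1, ⟨π.val_mem_W c.hk, π.hat_isOrdinal (kz_ord K), _, c.aleph1,
      c.not_inj hκ hI, fun α hα => c.collapse hα⟩, c.isHSucc, π.val_mem_W c.hM,
    ⟨fun x hx => c.sub_H hx, fun n φ v hv => c.elem φ v hv⟩, c.size hI ha, c.size',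
    c.ord_mem c.apt.good.ht.o1 c.ho, c.isKap, c.guessing, c.not_guessing hN⟩

end Pool.Agent.X209.Vi
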