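import Pool.Agent.W868.Defs

/-!
# Guessing models inside a transitive model of set theory: the definitions
-/

set_option autoImplicit false

namespace Pool.Agent.X209.Vi

open Pool.Agent.W868

/-- In the transitive model `W`, the ordinal `κ` is the cardinal `ℵ₂`: the first ordinal that
does not inject into `ω₁`, where `ω₁` is the cardinal `ℵ₁` of `W`. -/
def IsAleph2 (W : Set ZFSet.{0}) (κ : ZFSet.{0}) : Prop :=
  κ ∈ W ∧ κ.IsOrdinal ∧ ∃ ω₁, IsAleph1 W ω₁ ∧ (¬ ∃ f ∈ W, IsInj κ ω₁ f) ∧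
    ∀ α ∈ κ, ∃ f ∈ W, IsInj α ω₁ f

/-- In the transitive model `W`, the set `H` is the set `H(κ⁺)` of the sets whose transitive closure
has size at most `κ`. -/
def IsHSucc (W : Set ZFSet.{0}) (κ H : ZFSet.{0}) : Prop :=
  H ∈ W ∧ ∀ x, x ∈ H ↔ x ∈ W ∧ ∃ t ∈ W, x ∈ t ∧ (∀ y ∈ t, ∀ z ∈ y, z ∈ t) ∧
    ∃ f ∈ W, IsInj t κ f

/-- `(M, ∈)` is an elementary submodel of `(H, ∈)`. -/
def IsElem (M H : ZFSet.{0}) : Prop :=
  M ⊆ H ∧ ∀ (n : ℕ) (φ : Fml Empty n) (v : Fin n → ZFSet.{0}), (∀ i, v i ∈ M) →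
    (Sat {x | x ∈ M} Empty.elim φ v ↔ Sat {x | x ∈ H} Empty.elim φ v)

/-- `κ = κ_M`: the least ordinal that belongs to `M` and is not a subset of `M` is `κ`. -/
def IsKap (M κ : ZFSet.{0}) : Prop :=
  κ ∈ M ∧ κ.IsOrdinal ∧ ¬ κ ⊆ M ∧ ∀ α ∈ M, α ∈ κ → α ⊆ M

/-- In `M`, the set `b` has size less than `δ`: some function in `M` is an injection of `b` into an
ordinal `β < δ` in `M`. -/
def SmallIn (M δ b : ZFSet.{0}) : Prop := ∃ β ∈ M, β ∈ δ ∧ ∃ f ∈ M, IsInj b β f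

/-- In the transitive model `W`, the model `M` is `δ`-guessing: if the set `x` is bounded in `M`
(it is a subset of some `y ∈ M`) and `δ`-approximated in `M` (the set `x ∩ b` belongs to `M` for
each `b ∈ M` that has size less than `δ` in `M`), then `x` is guessed in `M` (there is `x' ∈ M`
with `x' ∩ M = x ∩ M`). -/
def Guessing (W : Set ZFSet.{0}) (δ M : ZFSet.{0}) : Prop :=
  ∀ x ∈ W, (∃ y ∈ M, x ⊆ y) → (∀ b ∈ M, SmallIn M δ b → x ∩ b ∈ M) →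
    ∃ x' ∈ M, x' ∩ M = x ∩ M

end Pool.Agent.X209.Vi
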