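import Pool.Agent.X209.Vi.Gu
import Pool.Agent.X209.Vi.Spec

/-!
# Guessing arbitrary bounded sets
-/

set_option autoImplicit false
set_option linter.unreachableTactic false
set_option linter.unusedTactic false
set_option linter.unusedSectionVars false
set_option linter.deprecated false

namespace Pool.Agent.X209.Vi

open Pool.Agent.W868 Pool.Agent.W868.PName Pool.Agent.X209.Gss
open ZFSet (pair)
open Cardinal

section W

variable {W : Set ZFSet.{0}} (hW : IsZF W)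

include hW

/-- The image of an ordinal injects into the ordinal. -/
theorem inj_of_onto {A β g : ZFSet.{0}} (hA : A ∈ W) (hβ : β ∈ W) (hg : g ∈ W)
    (hord : β.IsOrdinal) (h : Onto β g A) : ∃ f ∈ W, IsInj A β f := by
  have hB := hW.base
  have hd : Dfn W W fun w : Fin 2 → ZFSet.{0} => pair (w 1) (w 0) ∈ g ∧
      ∀ j ∈ w 1, ¬ pair j (w 0) ∈ g := by
    (repeat' first
      | assumption
      | exact DfnF.proj _
      | exact DfnF.const (by assumption)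
      | exact DfnF.const' (by first | assumption | trivial) (by first | assumption | trivial)
      | exact Dfn.prop _
      | apply Dfn.not | apply Dfn.and | apply Dfn.or | apply Dfn.imp | apply Dfn.iff
      | apply hB.bex | apply hB.ball | apply Dfn.ex | apply Dfn.all
      | apply Dfn.eq | apply Dfn.mem | apply hB.pair')
  obtain ⟨f, hf, hfs, hf'⟩ := hW.rel_mem hA hβ (Q := fun w i => pair i w ∈ g ∧
    ∀ j ∈ i, ¬ pair j w ∈ g) hd
  refine ⟨f, hf, ⟨hfs, fun w hw => ?_⟩, ?_⟩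
  · have h1 : ({i | i ∈ β ∧ pair i w ∈ g} : Set ZFSet.{0}).Nonempty := h.1 w hw
    obtain ⟨i, ⟨hi, hi'⟩, hmin⟩ := WellFounded.has_min ZFSet.mem_wf _ h1
    refine ⟨i, (hf' w i).2 ⟨hw, hi, hi', fun j hj hj' => hmin j ⟨hord.mem_trans hj hi, hj'⟩ hj⟩, ?_⟩
    intro i' hi2
    obtain ⟨-, h2, h3, h4⟩ := (hf' w i').1 hi2
    rcases (hord.mem h2).mem_trichotomous (hord.mem hi) with h5 | h5 | h5
    · exact absurd ⟨h2, h3⟩ (fun h6 => hmin i' h6 h5)
    · exact h5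
    · exact absurd hi' (h4 i h5)
  · intro w w' i h1 h2
    obtain ⟨h3, h4, h5, -⟩ := (hf' w i).1 h1
    obtain ⟨h6, -, h7, -⟩ := (hf' w' i).1 h2
    exact h.2 i h4 w h3 w' h6 h5 h7

end W

variable {K : Type} [LinearOrder K] [WellFoundedLT K]

theorem base_pair {M : Set ZFSet.{0}} (hB : IsBase M) {x y : ZFSet.{0}} (hx : x ∈ M) (hy : y ∈ M) :
    pair x y ∈ M := by
  have h := hB.pairing _ (hB.pairing _ hx _ hx) _ (hB.pairing _ hx _ hy)
  rwa [ZFSet.pair_eq_singleton] at h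

theorem HC.infinite {P : Type} [Preorder P] [OrderTop P] {π : Pkg P} (c : HC K π) : Infinite K := by
  obtain ⟨e, he⟩ := c.sL
  obtain ⟨k, -⟩ := he []
  have : Nonempty K := ⟨k⟩
  exact Infinite.of_surjective e he

theorem HC.prod {P : Type} [Preorder P] [OrderTop P] {π : Pkg P} (c : HC K π)
    (hne : ∃ a ∈ π.hat (kz K), ∃ b ∈ π.hat (kz K), a ≠ b) {x y : ZFSet.{0}}
    (hx : x ∈ Hs K π) (hy : y ∈ Hs K π) : ZFSet.prod x y ∈ Hs K π := by
  have hW := π.isZF_W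
  have hB := hW.base
  have hBH := c.base hne
  have hinf := c.infinite
  have hkW : π.hat (kz K) ∈ π.W := π.val_mem_W c.hk
  obtain ⟨t, -, F, hF, h1, h2, h3, h4⟩ := c.small hx
  obtain ⟨t', -, F', hF', h1', h2', h3', h4'⟩ := c.small hy
  have hox : Onto (π.hat (kz K)) F x := h4.mono fun w hw => h1 x h2 w hw
  have hoy : Onto (π.hat (kz K)) F' y := h4'.mono fun w hw => h1' y h2' w hw
  have hcard : (ZFSet.prod (kz K) (kz K)).card ≤ (kz K).card := by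
    rw [card_prod, card_kz]
    exact (mul_eq_self (aleph0_le_mk K)).le
  obtain ⟨f, hf, hfi⟩ := π.exists_inj_V (π.prod_Z c.hk c.hk) c.hk (exists_isInj hcard)
  rw [π.hat_prod c.hk c.hk] at hfi
  have hfW : f ∈ π.W := π.V_subset_W hf
  have hxW := c.sub_W hx
  have hyW := c.sub_W hy
  have hpW : ZFSet.prod x y ∈ π.W := hW.prod_mem hxW hyW
  have hd : Dfn π.W π.W fun w : Fin 2 → ZFSet.{0} => ∃ i ∈ π.hat (kz K), ∃ j ∈ π.hat (kz K),
      ∃ u ∈ x, ∃ v ∈ y, pair (pair i j) (w 0) ∈ f ∧ pair i u ∈ F ∧ pair j v ∈ F' ∧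
        w 1 = pair u v := by
    (repeat' first
      | assumption
      | exact DfnF.proj _
      | exact DfnF.const (by assumption)
      | exact DfnF.const' (by first | assumption | trivial) (by first | assumption | trivial)
      | exact Dfn.prop _
      | apply Dfn.not | apply Dfn.and | apply Dfn.or | apply Dfn.imp | apply Dfn.iff
      | apply hB.bex | apply hB.ball | apply Dfn.ex | apply Dfn.all
      | apply Dfn.eq | apply Dfn.mem | apply hB.pair')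
  obtain ⟨G, hG, -, hG'⟩ := hW.rel_mem hkW hpW (Q := fun k p => ∃ i ∈ π.hat (kz K),
    ∃ j ∈ π.hat (kz K), ∃ u ∈ x, ∃ v ∈ y, pair (pair i j) k ∈ f ∧ pair i u ∈ F ∧
      pair j v ∈ F' ∧ p = pair u v) hd
  refine c.mix hpW hG ?_ ⟨?_, ?_⟩
  · intro p hp
    obtain ⟨u, hu, v, hv, rfl⟩ := ZFSet.mem_prod.1 hp
    exact base_pair hBH (c.trans hx hu) (c.trans hy hv)
  · intro p hp
    obtain ⟨u, hu, v, hv, rfl⟩ := ZFSet.mem_prod.1 hp
    obtain ⟨i, hi, hiu⟩ := hox.1 u hu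
    obtain ⟨j, hj, hjv⟩ := hoy.1 v hv
    obtain ⟨k, hk, -⟩ := hfi.1.2 (pair i j) (ZFSet.pair_mem_prod.2 ⟨hi, hj⟩)
    have hk2 := (ZFSet.pair_mem_prod.1 (hfi.1.1 hk)).2
    exact ⟨k, hk2, (hG' _ _).2 ⟨hk2, hp, i, hi, j, hj, u, hu, v, hv, hk, hiu, hjv, rfl⟩⟩
  · intro k _ p _ p' _ hp hp'
    obtain ⟨-, -, i, hi, j, hj, u, hu, v, hv, e1, e2, e3, rfl⟩ := (hG' _ _).1 hp
    obtain ⟨-, -, i', hi', j', hj', u', hu', v', hv', e1', e2', e3', rfl⟩ := (hG' _ _).1 hp'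
    obtain ⟨rfl, rfl⟩ := ZFSet.pair_inj.1 (hfi.2 _ _ _ e1 e1')
    rw [hox.2 i hi u hu u' hu' e2 e2', hoy.2 j hj v hv v' hv' e3 e3']

theorem HC.rel {P : Type} [Preorder P] [OrderTop P] {π : Pkg P} (c : HC K π)
    (hne : ∃ a ∈ π.hat (kz K), ∃ b ∈ π.hat (kz K), a ≠ b) {x y r : ZFSet.{0}}
    (hx : x ∈ Hs K π) (hy : y ∈ Hs K π) (hr : r ∈ π.W) (h : r ⊆ ZFSet.prod x y) :
    r ∈ Hs K π := c.subset (c.prod hne hx hy) hr h

variable {E : Setup K} {a : Set (TT E)} {μ : K} {π : Pkg (Qt E)}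

/-- The ordinals below the height. -/
theorem Ctx.mem_mu (c : Ctx a μ π) {i : ZFSet.{0}} (hi : i ∈ π.hat (kz K))
    (hiM : i ∈ π.val (Mn a)) : i ∈ π.hat (el μ) := by
  obtain ⟨k, hk, rfl⟩ := (mem_hat_kz π).1 hi
  exact (hat_el_mem π hk c.hmu).2 (c.lt_mu hk hiM)

theorem Ctx.of_mem_mu (c : Ctx a μ π) {i : ZFSet.{0}} (hi : i ∈ π.hat (el μ)) :
    i ∈ π.val (Mn a) ∧ i ∈ π.hat (kz K) := by
  obtain ⟨k, hk, hkN, rfl⟩ := (mem_hat_el π).1 hi
  exact ⟨c.ord_mem hk hkN, (mem_hat_kz π).2 ⟨k, hkN, rfl⟩⟩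

theorem vec1 {M : ZFSet.{0}} {x : ZFSet.{0}} (hx : x ∈ M) :
    ∀ i, (![x] : Fin 1 → ZFSet.{0}) i ∈ M := by
  intro i
  fin_cases i
  exact hx

theorem vec2 {M : ZFSet.{0}} {x y : ZFSet.{0}} (hx : x ∈ M) (hy : y ∈ M) :
    ∀ i, (![x, y] : Fin 2 → ZFSet.{0}) i ∈ M := by
  intro i
  fin_cases i
  exacts [hx, hy]

theorem vec3 {M : ZFSet.{0}} {x y z : ZFSet.{0}} (hx : x ∈ M) (hy : y ∈ M) (hz : z ∈ M) :
    ∀ i, (![x, y, z] : Fin 3 → ZFSet.{0}) i ∈ M := by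
  intro i
  fin_cases i
  exacts [hx, hy, hz]

/-- The submodel guesses all sets that are bounded and approximated in it. -/
theorem Ctx.guess_all (c : Ctx a μ π) {x y : ZFSet.{0}} (hx : x ∈ π.W) (hy : y ∈ π.val (Mn a))
    (hxy : x ⊆ y) (h : ∀ b ∈ π.val (Mn a), SmallIn (π.val (Mn a)) (π.hat (kz K)) b →
      x ∩ b ∈ π.val (Mn a)) :
    ∃ x' ∈ π.val (Mn a), ∀ z ∈ π.val (Mn a), (z ∈ x ↔ z ∈ x') := by
  have hW := π.isZF_W
  have hB := hW.base
  have hBH := c.base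
  have hc := c.hc
  have hne := c.ne
  have hyH := c.sub_H hy
  have hyW := hc.sub_W hyH
  have hkW : π.hat (kz K) ∈ π.W := π.val_mem_W c.hk
  have hkH := hc.kap_mem
  have hord := π.hat_isOrdinal (kz_ord K)
  -- a function onto `y` in the submodel
  have e1 : ∃ g ∈ π.val (Mn a), Onto (π.hat (kz K)) g y := by
    have hd : Dfn ∅ (Hs K π) fun w : Fin 3 → ZFSet.{0} =>
        (∀ u ∈ w 2, ∃ i ∈ w 1, pair i u ∈ w 0) ∧ ∀ i ∈ w 1, ∀ u ∈ w 2, ∀ u' ∈ w 2,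
          pair i u ∈ w 0 → pair i u' ∈ w 0 → u = u' := by
      (repeat' first
      | assumption
      | exact DfnF.proj _
      | apply Dfn.not | apply Dfn.and | apply Dfn.or | apply Dfn.imp | apply Dfn.iff
      | apply hBH.bex | apply hBH.ball | apply Dfn.ex | apply Dfn.all
      | apply Dfn.eq | apply Dfn.mem | apply hBH.pair')
    refine c.wit (Q := fun g v => Onto (v 0) g (v 1)) hd (v := ![π.hat (kz K), y])
      (vec2 c.kap_mem hy) ?_
    obtain ⟨t, -, F, hF, h1, h2, h3, h4⟩ := hc.small hyH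
    have hoy : Onto (π.hat (kz K)) F y := h4.mono fun w hw => h1 y h2 w hw
    have hd2 : Dfn π.W π.W fun w : Fin 2 → ZFSet.{0} => pair (w 0) (w 1) ∈ F := by
      (repeat' first
      | assumption
      | exact DfnF.proj _
      | exact DfnF.const (by assumption)
      | apply Dfn.eq | apply Dfn.mem | apply hB.pair')
    obtain ⟨g, hg, hgs, hg'⟩ := hW.rel_mem hkW hyW (Q := fun i u => pair i u ∈ F) hd2
    refine ⟨g, hc.rel hne hkH hyH hg hgs, fun w hw => ?_, ?_⟩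
    · obtain ⟨i, hi, hiw⟩ := hoy.1 w hw
      exact ⟨i, hi, (hg' _ _).2 ⟨hi, hw, hiw⟩⟩
    · intro i hi w hw w' hw' h5 h6
      exact hoy.2 i hi w hw w' hw' ((hg' _ _).1 h5).2.2 ((hg' _ _).1 h6).2.2
  obtain ⟨g, hg, hgo⟩ := e1
  have hgW := hc.sub_W (c.sub_H hg)
  -- the set to be guessed
  have hdd : Dfn π.W π.W fun w : Fin 1 → ZFSet.{0} => ∃ u ∈ x, pair (w 0) u ∈ g := by
    (repeat' first
      | assumption
      | exact DfnF.proj _
      | exact DfnF.const (by assumption)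
      | apply hB.bex
      | apply Dfn.eq | apply Dfn.mem | apply hB.pair')
  have hdW := hW.sep_mem (Q := fun i => ∃ u ∈ x, pair i u ∈ g) hdd hkW
  set d : ZFSet.{0} := ZFSet.sep (fun i => ∃ u ∈ x, pair i u ∈ g) (π.hat (kz K)) with hdef
  have hmem : ∀ i, i ∈ d ↔ i ∈ π.hat (kz K) ∧ ∃ u ∈ x, pair i u ∈ g := fun i => by
    rw [hdef, ZFSet.mem_sep]
  have happ : ∀ β ∈ π.hat (el μ), ∃ e ∈ π.val (Mn a), ∀ i ∈ β, (i ∈ d ↔ i ∈ e) := by
    intro β hβ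
    obtain ⟨hβM, hβk⟩ := c.of_mem_mu hβ
    have hβW := hc.sub_W (c.sub_H hβM)
    have hβsub : ∀ i ∈ β, i ∈ π.hat (kz K) := fun i hi => hord.mem_trans hi hβk
    -- the image of `β`
    have e2 : ∃ A ∈ π.val (Mn a), ∀ w, w ∈ A ↔ w ∈ y ∧ ∃ i ∈ β, pair i w ∈ g := by
      have hd : Dfn ∅ (Hs K π) fun w : Fin 4 → ZFSet.{0} =>
          (∀ u ∈ w 0, u ∈ w 1 ∧ ∃ i ∈ w 3, pair i u ∈ w 2) ∧
          ∀ u ∈ w 1, (∃ i ∈ w 3, pair i u ∈ w 2) → u ∈ w 0 := by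
        (repeat' first
      | assumption
      | exact DfnF.proj _
      | apply Dfn.not | apply Dfn.and | apply Dfn.or | apply Dfn.imp | apply Dfn.iff
      | apply hBH.bex | apply hBH.ball | apply Dfn.ex | apply Dfn.all
      | apply Dfn.eq | apply Dfn.mem | apply hBH.pair')
      obtain ⟨A, hA, h1, h2⟩ := c.wit (Q := fun A v => (∀ u ∈ A, u ∈ v 0 ∧ ∃ i ∈ v 2,
          pair i u ∈ v 1) ∧ ∀ u ∈ v 0, (∃ i ∈ v 2, pair i u ∈ v 1) → u ∈ A) hd
        (v := ![y, g, β]) (vec3 hy hg hβM) (by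
          have hd3 : Dfn π.W π.W fun w : Fin 1 → ZFSet.{0} => ∃ i ∈ β, pair i (w 0) ∈ g := by
            (repeat' first
      | assumption
      | exact DfnF.proj _
      | exact DfnF.const (by assumption)
      | apply hB.bex
      | apply Dfn.eq | apply Dfn.mem | apply hB.pair')
          have h3 := hW.sep_mem (Q := fun w => ∃ i ∈ β, pair i w ∈ g) hd3 hyW
          refine ⟨_, hc.subset hyH h3 fun z hz => (ZFSet.mem_sep.1 hz).1, ?_, ?_⟩
          · intro u hu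
            exact ZFSet.mem_sep.1 hu
          · intro u hu hu'
            exact ZFSet.mem_sep.2 ⟨hu, hu'⟩)
      exact ⟨A, hA, fun w => ⟨fun hw => h1 w hw, fun hw => h2 w hw.1 hw.2⟩⟩
    obtain ⟨A, hA, hA'⟩ := e2
    have hAH := c.sub_H hA
    -- it is small in the submodel
    have e3 : ∃ f ∈ π.val (Mn a), IsInj A β f := by
      have hd : Dfn ∅ (Hs K π) fun w : Fin 3 → ZFSet.{0} => IsInj (w 1) (w 2) (w 0) :=
        hBH.isInj' (DfnF.proj _) (DfnF.proj _) (DfnF.proj _)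
      refine c.wit (Q := fun f v => IsInj (v 0) (v 1) f) hd (v := ![A, β]) (vec2 hA hβM) ?_
      obtain ⟨f, hf, hfi⟩ := inj_of_onto hW (hc.sub_W hAH) hβW hgW (hord.mem hβk)
        (g := g) (A := A) ⟨fun w hw => ((hA' w).1 hw).2, fun i hi w hw w' hw' =>
          hgo.2 i (hβsub i hi) w ((hA' w).1 hw).1 w' ((hA' w').1 hw').1⟩
      exact ⟨f, hc.rel hne hAH (c.sub_H hβM) hf hfi.1.1, hfi⟩
    obtain ⟨f, hf, hfi⟩ := e3
    have hz := h A hA ⟨β, hβM, hβk, f, hf, hfi⟩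
    -- the trace of the set
    have e4 : ∃ D ∈ π.val (Mn a), ∀ i, i ∈ D ↔ i ∈ β ∧ ∃ u ∈ x ∩ A, pair i u ∈ g := by
      have hd : Dfn ∅ (Hs K π) fun w : Fin 4 → ZFSet.{0} =>
          (∀ i ∈ w 0, i ∈ w 1 ∧ ∃ u ∈ w 3, pair i u ∈ w 2) ∧
          ∀ i ∈ w 1, (∃ u ∈ w 3, pair i u ∈ w 2) → i ∈ w 0 := by
        (repeat' first
      | assumption
      | exact DfnF.proj _
      | apply Dfn.not | apply Dfn.and | apply Dfn.or | apply Dfn.imp | apply Dfn.iff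
      | apply hBH.bex | apply hBH.ball | apply Dfn.ex | apply Dfn.all
      | apply Dfn.eq | apply Dfn.mem | apply hBH.pair')
      have hzW := hc.sub_W (c.sub_H hz)
      obtain ⟨D, hD, h1, h2⟩ := c.wit (Q := fun D v => (∀ i ∈ D, i ∈ v 0 ∧ ∃ u ∈ v 2,
          pair i u ∈ v 1) ∧ ∀ i ∈ v 0, (∃ u ∈ v 2, pair i u ∈ v 1) → i ∈ D) hd
        (v := ![β, g, x ∩ A]) (vec3 hβM hg hz) (by
          have hd3 : Dfn π.W π.W fun w : Fin 1 → ZFSet.{0} => ∃ u ∈ x ∩ A, pair (w 0) u ∈ g := by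
            (repeat' first
      | assumption
      | exact DfnF.proj _
      | exact DfnF.const (by assumption)
      | apply hB.bex
      | apply Dfn.eq | apply Dfn.mem | apply hB.pair')
          have h3 := hW.sep_mem (Q := fun i => ∃ u ∈ x ∩ A, pair i u ∈ g) hd3 hβW
          refine ⟨_, hc.subset (c.sub_H hβM) h3 fun z hz => (ZFSet.mem_sep.1 hz).1, ?_, ?_⟩
          · intro u hu
            exact ZFSet.mem_sep.1 hu
          · intro u hu hu'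
            exact ZFSet.mem_sep.2 ⟨hu, hu'⟩)
      exact ⟨D, hD, fun w => ⟨fun hw => h1 w hw, fun hw => h2 w hw.1 hw.2⟩⟩
    obtain ⟨D, hD, hD'⟩ := e4
    refine ⟨D, hD, fun i hi => ?_⟩
    rw [hmem, hD']
    constructor
    · rintro ⟨-, u, hu, hiu⟩
      exact ⟨hi, u, ZFSet.mem_inter.2 ⟨hu, (hA' u).2 ⟨hxy hu, i, hi, hiu⟩⟩, hiu⟩
    · rintro ⟨-, u, hu, hiu⟩
      exact ⟨hβsub i hi, u, (ZFSet.mem_inter.1 hu).1, hiu⟩
  obtain ⟨e, he, hde⟩ := c.guess hdW happ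
  -- the guess
  have e5 : ∃ x' ∈ π.val (Mn a), ∀ w, w ∈ x' ↔ w ∈ y ∧ ∃ i ∈ e, i ∈ π.hat (kz K) ∧
      pair i w ∈ g := by
    have hd : Dfn ∅ (Hs K π) fun w : Fin 5 → ZFSet.{0} =>
        (∀ u ∈ w 0, u ∈ w 1 ∧ ∃ i ∈ w 3, i ∈ w 4 ∧ pair i u ∈ w 2) ∧
        ∀ u ∈ w 1, (∃ i ∈ w 3, i ∈ w 4 ∧ pair i u ∈ w 2) → u ∈ w 0 := by
      (repeat' first
      | assumption
      | exact DfnF.proj _
      | apply Dfn.not | apply Dfn.and | apply Dfn.or | apply Dfn.imp | apply Dfn.iff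
      | apply hBH.bex | apply hBH.ball | apply Dfn.ex | apply Dfn.all
      | apply Dfn.eq | apply Dfn.mem | apply hBH.pair')
    have heW := hc.sub_W (c.sub_H he)
    obtain ⟨x', hx', h1, h2⟩ := c.wit (Q := fun x' v => (∀ u ∈ x', u ∈ v 0 ∧ ∃ i ∈ v 2,
        i ∈ v 3 ∧ pair i u ∈ v 1) ∧ ∀ u ∈ v 0, (∃ i ∈ v 2, i ∈ v 3 ∧ pair i u ∈ v 1) → u ∈ x') hd
      (v := ![y, g, e, π.hat (kz K)]) (by
        intro i
        fin_cases i
        exacts [hy, hg, he, c.kap_mem]) (by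
        have hd3 : Dfn π.W π.W fun w : Fin 1 → ZFSet.{0} => ∃ i ∈ e, i ∈ π.hat (kz K) ∧
            pair i (w 0) ∈ g := by
          (repeat' first
      | assumption
      | exact DfnF.proj _
      | exact DfnF.const (by assumption)
      | apply hB.bex | apply Dfn.and
      | apply Dfn.eq | apply Dfn.mem | apply hB.pair')
        have h3 := hW.sep_mem (Q := fun w => ∃ i ∈ e, i ∈ π.hat (kz K) ∧ pair i w ∈ g) hd3 hyW
        refine ⟨_, hc.subset hyH h3 fun z hz => (ZFSet.mem_sep.1 hz).1, ?_, ?_⟩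
        · intro u hu
          exact ZFSet.mem_sep.1 hu
        · intro u hu hu'
          exact ZFSet.mem_sep.2 ⟨hu, hu'⟩)
    exact ⟨x', hx', fun w => ⟨fun hw => h1 w hw, fun hw => h2 w hw.1 hw.2⟩⟩
  obtain ⟨x', hx', hx''⟩ := e5
  refine ⟨x', hx', fun z hz => ⟨fun hzx => ?_, fun hzx => ?_⟩⟩
  · have hzy : z ∈ y := hxy hzx
    -- an index in the submodel
    have hd : Dfn ∅ (Hs K π) fun w : Fin 4 → ZFSet.{0} => w 0 ∈ w 1 ∧ pair (w 0) (w 2) ∈ w 3 := by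
      (repeat' first
      | assumption
      | exact DfnF.proj _
      | apply Dfn.and
      | apply Dfn.eq | apply Dfn.mem | apply hBH.pair')
    obtain ⟨i, hi, hik, hiz⟩ := c.wit (Q := fun i v => i ∈ v 0 ∧ pair i (v 1) ∈ v 2) hd
      (v := ![π.hat (kz K), z, g]) (vec3 c.kap_mem hz hg) (by
        obtain ⟨i, hi, hiz⟩ := hgo.1 z hzy
        exact ⟨i, hc.trans hkH hi, hi, hiz⟩)
    have hid : i ∈ d := (hmem i).2 ⟨hik, z, hzx, hiz⟩
    exact (hx'' z).2 ⟨hzy, i, (hde i (c.mem_mu hik hi)).1 hid, hik, hiz⟩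
  · obtain ⟨hzy, i₀, hi₀e, hi₀k, hi₀z⟩ := (hx'' z).1 hzx
    have hd : Dfn ∅ (Hs K π) fun w : Fin 5 → ZFSet.{0} => w 0 ∈ w 1 ∧ pair (w 0) (w 2) ∈ w 3 ∧
        w 0 ∈ w 4 := by
      (repeat' first
      | assumption
      | exact DfnF.proj _
      | apply Dfn.and
      | apply Dfn.eq | apply Dfn.mem | apply hBH.pair')
    obtain ⟨i, hi, hik, hiz, hie⟩ := c.wit (Q := fun i v => i ∈ v 0 ∧ pair i (v 1) ∈ v 2 ∧
        i ∈ v 3) hd (v := ![π.hat (kz K), z, g, e]) (by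
        intro i
        fin_cases i
        exacts [c.kap_mem, hz, hg, he])
      ⟨i₀, hc.trans hkH hi₀k, hi₀k, hi₀z, hi₀e⟩
    obtain ⟨-, u, hu, hiu⟩ := (hmem i).1 ((hde i (c.mem_mu hik hi)).2 hie)
    rw [hgo.2 i hik z hzy u (hxy hu) hiz hiu]
    exact hu

end Pool.Agent.X209.Vi
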