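import Pool.Agent.X209.Vi.Poset

/-!
# Nodes that carry a generic sequence for the countable functions
-/

set_option autoImplicit false
set_option linter.unusedSectionVars false
set_option linter.deprecated false

open Set

namespace Pool.Agent.X209.Vi

open Setup

variable {K : Type} [LinearOrder K] [WellFoundedLT K] {E : Setup K}

theorem countable_iio {x : K} (h : x < E.o1) : (Iio x).Countable := E.o1_cnt x h

/-- one step of the closure to a node -/
def step (E : Setup K) (Y : Set K) : Set K :=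
  Y ∪ {E.b0} ∪ {x | ∃ s : Set K, s.Countable ∧ E.cd s ∈ Y ∧ x ∈ s} ∪
    {x | ∃ s : Set K, s.Countable ∧ E.cd s ∈ Y ∧ ∃ y ∈ Y, x = E.cd (s ∩ Iio y)} ∪
    {x | ∃ y ∈ Y, y < E.o1 ∧ x < y} ∪
    {x | ∃ s : Set K, s.Countable ∧ E.cd s ∈ Y ∧ IsMex s x}

open Classical in
/-- the set coded by an element -/
noncomputable def dc (E : Setup K) (y : K) : Set K :=
  if h : ∃ s : Set K, s.Countable ∧ E.cd s = y then h.choose else ∅

theorem dc_cnt (y : K) : (dc E y).Countable := by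
  unfold dc
  split_ifs with h
  · exact h.choose_spec.1
  · exact countable_empty

theorem dc_cd {s : Set K} (hs : s.Countable) : dc E (E.cd s) = s := by
  unfold dc
  have h : ∃ t : Set K, t.Countable ∧ E.cd t = E.cd s := ⟨s, hs, rfl⟩
  rw [dif_pos h]
  exact E.inj _ _ h.choose_spec.1 hs h.choose_spec.2

theorem mex_unique {s : Set K} {x y : K} (h : IsMex s x) (h' : IsMex s y) : x = y := by
  by_contra hne
  rcases lt_or_gt_of_ne hne with h1 | h1
  · exact h.1 (h'.2 h1)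
  · exact h'.1 (h.2 h1)

theorem step_cnt {Y : Set K} (hY : Y.Countable) : (step E Y).Countable := by
  unfold step
  refine Countable.union (Countable.union (Countable.union (Countable.union (Countable.union hY
    (countable_singleton _)) ?_) ?_) ?_) ?_
  · refine (hY.biUnion fun y _ => dc_cnt (E := E) y).mono ?_
    rintro x ⟨s, h1, h2, h3⟩
    exact mem_biUnion h2 (by rw [dc_cd h1]; exact h3)
  · refine ((hY.prod hY).image fun z : K × K => E.cd (dc E z.1 ∩ Iio z.2)).mono ?_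
    rintro x ⟨s, h1, h2, y, hy, rfl⟩
    exact ⟨(E.cd s, y), ⟨h2, hy⟩, by simp only [dc_cd h1]⟩
  · have h1 : (⋃ y ∈ {y | y ∈ Y ∧ y < E.o1}, Iio y).Countable :=
      (hY.mono fun y hy => hy.1).biUnion fun y hy => countable_iio hy.2
    refine h1.mono ?_
    rintro x ⟨y, hy, h2, h3⟩
    exact mem_biUnion (show y ∈ {y | y ∈ Y ∧ y < E.o1} from ⟨hy, h2⟩) h3
  · classical
    have h1 : (⋃ y ∈ Y, {x | IsMex (dc E y) x}).Countable :=
      hY.biUnion fun y hy => Set.Subsingleton.countable fun a ha b hb => mex_unique ha hb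
    refine h1.mono ?_
    rintro x ⟨s, h2, h3, h4⟩
    exact mem_biUnion h3 (by simp only [mem_setOf_eq, dc_cd h2]; exact h4)

theorem nd_iUnion {X : ℕ → Set K} (hX : Monotone X) (hc : ∀ n, (X n).Countable)
    (h : ∀ n, step E (X n) ⊆ X (n + 1)) : E.Nd (⋃ n, X n) where
  cnt := countable_iUnion hc
  b0 := mem_iUnion.2 ⟨1, h 0 (by unfold step; simp)⟩
  sub := by
    intro s hs h1 x hx
    obtain ⟨n, hn⟩ := mem_iUnion.1 h1
    refine mem_iUnion.2 ⟨n + 1, h n ?_⟩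
    exact Or.inl (Or.inl (Or.inl (Or.inr ⟨s, hs, hn, hx⟩)))
  trim := by
    intro s hs h1 y hy
    obtain ⟨n, hn⟩ := mem_iUnion.1 h1
    obtain ⟨m, hm⟩ := mem_iUnion.1 hy
    refine mem_iUnion.2 ⟨max n m + 1, h _ ?_⟩
    exact Or.inl (Or.inl (Or.inr ⟨s, hs, hX (le_max_left n m) hn, y, hX (le_max_right n m) hm, rfl⟩))
  seg := by
    intro x hx h1 y hy
    obtain ⟨n, hn⟩ := mem_iUnion.1 hx
    exact mem_iUnion.2 ⟨n + 1, h n (Or.inl (Or.inr ⟨x, hn, h1, hy⟩))⟩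
  mex := by
    intro s hs h1 x hx
    obtain ⟨n, hn⟩ := mem_iUnion.1 h1
    exact mem_iUnion.2 ⟨n + 1, h n (Or.inr ⟨s, hs, hn, hx⟩)⟩

theorem sub_step (Y : Set K) : Y ⊆ step E Y :=
  fun _ h => Or.inl (Or.inl (Or.inl (Or.inl (Or.inl h))))

theorem exists_nd {Y : Set K} (hY : Y.Countable) : ∃ X, E.Nd X ∧ Y ⊆ X := by
  let X : ℕ → Set K := fun n => Nat.rec Y (fun _ Z => step E Z) n
  have h0 : ∀ n, X (n + 1) = step E (X n) := fun n => rfl
  have hc : ∀ n, (X n).Countable := by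
    intro n
    induction n with
    | zero => exact hY
    | succ n ih => rw [h0]; exact step_cnt ih
  exact ⟨⋃ n, X n, nd_iUnion (monotone_nat_of_le_succ fun n => sub_step _) hc fun n => subset_rfl,
    subset_iUnion X 0⟩

/-- the code of a condition of the first forcing -/
def ci (r : Cnd E) : Set K := r.D ∪ E.cd '' r.M

theorem ci_fin (r : Cnd E) : (ci r).Finite := r.finD.union (r.finM.image _)

theorem in_iff {X : Set K} {r : Cnd E} : Cnd.In X r ↔ ci r ⊆ X := by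
  unfold ci
  rw [union_subset_iff, image_subset_iff]
  rfl

theorem ci_inj {r s : Cnd E} (h1 : r.D = s.D) (h2 : E.cd '' r.M = E.cd '' s.M) : r = s := by
  have key : ∀ r s : Cnd E, E.cd '' r.M = E.cd '' s.M → r.M ⊆ s.M := by
    intro r s h N hN
    have h3 : E.cd N ∈ E.cd '' s.M := by rw [← h]; exact ⟨N, hN, rfl⟩
    obtain ⟨N', hN', h4⟩ := h3
    rw [E.inj _ _ (r.nd N hN).cnt (s.nd N' hN').cnt h4.symm]
    exact hN'
  exact Cnd.ext h1 (subset_antisymm (key r s h2) (key s r h2.symm))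

theorem in_cnt {X : Set K} (hX : X.Countable) : {r : Cnd E | Cnd.In X r}.Countable := by
  have h1 : {t : Set K | t.Finite ∧ t ⊆ X}.Countable := countable_setOf_finite_subset hX
  have h2 := h1.prod h1
  have h3 : InjOn (fun r : Cnd E => (r.D, E.cd '' r.M)) {r : Cnd E | Cnd.In X r} := by
    intro r _ s _ h
    simp only [Prod.mk.injEq] at h
    exact ci_inj h.1 h.2
  refine MapsTo.countable_of_injOn (t := {t : Set K | t.Finite ∧ t ⊆ X} ×ˢ
    {t : Set K | t.Finite ∧ t ⊆ X}) ?_ h3 h2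
  rintro r ⟨h4, h5⟩
  refine ⟨⟨r.finD, h4⟩, ⟨r.finM.image _, ?_⟩⟩
  rintro _ ⟨N, hN, rfl⟩
  exact h5 N hN

theorem finite_sub_iUnion {X : ℕ → Set K} (hX : Monotone X) {s : Set K} (hs : s.Finite)
    (h : s ⊆ ⋃ n, X n) : ∃ n, s ⊆ X n := by
  induction s, hs using Set.Finite.induction_on with
  | empty => exact ⟨0, empty_subset _⟩
  | @insert a s _ _ ih =>
    obtain ⟨n, hn⟩ := ih ((subset_insert a s).trans h)
    obtain ⟨m, hm⟩ := mem_iUnion.1 (h (mem_insert a s))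
    refine ⟨max n m, insert_subset (hX (le_max_right n m) hm) (hn.trans (hX (le_max_left n m)))⟩

/-- Nodes that solve tasks along a decreasing sequence. -/
theorem exists_gs {ω : Type} (cs : ω → Set K) (hcs : ∀ w, (cs w).Countable)
    (D : Cnd E × ℕ → ω → Ad K → Prop) (hD : ∀ t w b b', D t w b → b' ≤ b → D t w b')
    (b₀ : Ad K) (h : ∀ t, ∀ b ≤ b₀, ∃ b' ≤ b, ∃ w, D t w b')
    {Y : Set K} (hY : Y.Countable) :
    ∃ X, E.Nd X ∧ Y ⊆ X ∧ ∃ b ≤ b₀, ∀ r, Cnd.In X r → ∀ n, ∃ w, cs w ⊆ X ∧ D (r, n) w b := by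
  classical
  -- one step
  have h1 : ∀ z : {z : Set K × Ad K // z.1.Countable ∧ z.2 ≤ b₀}, ∃ z' : {z : Set K × Ad K //
      z.1.Countable ∧ z.2 ≤ b₀}, step E z.1.1 ⊆ z'.1.1 ∧ z'.1.2 ≤ z.1.2 ∧
      ∀ r, Cnd.In z.1.1 r → ∀ n, ∃ w, cs w ⊆ z'.1.1 ∧ D (r, n) w z'.1.2 := by
    rintro ⟨⟨Z, b⟩, hZ, hb⟩
    have h2 : ({t : Cnd E × ℕ | Cnd.In Z t.1}).Countable := by
      refine ((in_cnt (E := E) hZ).prod (countable_univ (α := ℕ))).mono ?_
      rintro ⟨r, n⟩ hr
      exact ⟨hr, mem_univ _⟩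
    have h3 : ({t : Cnd E × ℕ | Cnd.In Z t.1} ∪ {((⊤ : Cnd E), 0)}).Countable :=
      h2.union (countable_singleton _)
    obtain ⟨e, he⟩ := h3.exists_eq_range ⟨((⊤ : Cnd E), 0), Or.inr rfl⟩
    have h4 : ∀ z : {c : Ad K // c ≤ b₀}, ∀ n : ℕ, ∃ c' : {c : Ad K // c ≤ b₀}, c'.1 ≤ z.1 ∧
        ∃ w, D (e n) w c'.1 := by
      rintro ⟨c, hc⟩ n
      obtain ⟨c', h5, w, h6⟩ := h (e n) c hc
      exact ⟨⟨c', h5.trans hc⟩, h5, w, h6⟩
    choose g hg1 hg2 using h4
    let c : ℕ → {c : Ad K // c ≤ b₀} := fun n => Nat.rec ⟨b, hb⟩ (fun n z => g z n) n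
    have hc : ∀ n, c (n + 1) = g (c n) n := fun n => rfl
    obtain ⟨d, hd⟩ := Ad.exists_lower (fun n => (c n).1) fun n => by rw [hc]; exact hg1 _ _
    have h5 : ∀ n, ∃ w, D (e n) w d := by
      intro n
      obtain ⟨w, hw⟩ := hg2 (c n) n
      exact ⟨w, hD _ _ _ _ hw (by rw [← hc]; exact hd (n + 1))⟩
    choose w hw using h5
    refine ⟨⟨(step E Z ∪ (⋃ n, cs (w n)), d), (step_cnt hZ).union (countable_iUnion fun n => hcs _),
      (hd 0).trans hb⟩, subset_union_left, hd 0, fun r hr n => ?_⟩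
    have h6 : (r, n) ∈ range e := by
      rw [← he]
      exact Or.inl hr
    obtain ⟨k, hk⟩ := h6
    refine ⟨w k, subset_union_of_subset_right (subset_iUnion (fun n => cs (w n)) k) _, ?_⟩
    rw [← hk]
    exact hw k
  choose g hg1 hg2 hg3 using h1
  let z : ℕ → {z : Set K × Ad K // z.1.Countable ∧ z.2 ≤ b₀} := fun n =>
    Nat.rec ⟨(Y, b₀), hY, le_rfl⟩ (fun _ z => g z) n
  have hz : ∀ n, z (n + 1) = g (z n) := fun n => rfl
  have hmono : Monotone fun n => (z n).1.1 :=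
    monotone_nat_of_le_succ fun n => by
      rw [hz]; exact (sub_step _).trans (hg1 _)
  obtain ⟨d, hd⟩ := Ad.exists_lower (fun n => (z n).1.2) fun n => by rw [hz]; exact hg2 _
  refine ⟨⋃ n, (z n).1.1, nd_iUnion hmono (fun n => (z n).2.1) (fun n => by
    rw [hz]; exact hg1 _), subset_iUnion (fun n => (z n).1.1) 0, d, hd 0, fun r hr n => ?_⟩
  rw [in_iff] at hr
  obtain ⟨m, hm⟩ := finite_sub_iUnion hmono (ci_fin r) hr
  obtain ⟨w, h2, h3⟩ := hg3 (z m) r (in_iff.2 hm) n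
  rw [← hz] at h2 h3
  exact ⟨w, h2.trans (subset_iUnion (fun n => (z n).1.1) (m + 1)), hD _ _ _ _ h3 (hd (m + 1))⟩

end Pool.Agent.X209.Vi
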