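import Pool.Agent.X209.Vi.Tv

/-!
# Guessing subsets of the height
-/

set_option autoImplicit false
set_option linter.unreachableTactic false
set_option linter.unusedTactic false
set_option linter.unusedSectionVars false
set_option linter.deprecated false

namespace Pool.Agent.X209.Vi

open Pool.Agent.W868 Pool.Agent.W868.PName Pool.Agent.X209.Gss
open ZFSet (pair)
open Cardinal

variable {K : Type} [LinearOrder K] [WellFoundedLT K] {E : Setup K}
  {a : Set (TT E)} {μ : K} {π : Pkg (Qt E)}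

theorem nd_hatmem (x : PName (Qt E)) (α : K) :
    ND {x, ck α} fun π : Pkg (Qt E) => π.hat (el α) ∈ π.val x := by
  have h : check (el α) ∈ ({x, ck α} : Set (PName (Qt E))) := by
    change ck α ∈ _
    simp
  exact NDfn.mem (NDfnF.hat h) (NDfnF.val mem2l)

theorem fi_nnm {ε : K → Set (Qt E)} {α : K} {r : Qt E} : FI ε α r ↔
    Fc {nnm ε, ck α} (fun π => π.hat (el α) ∈ π.val (nnm ε)) r := by
  constructor
  · intro h
    refine fc_of_dense (nd_hatmem _ _) (Set.toFinite _).countable fun q hq => ?_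
    obtain ⟨q', hq', r', hr', h1⟩ := h q hq
    exact ⟨q', hq', ∅, Set.countable_empty, fun π' hS _ h0 =>
      (mem_nnm π' (hS mem2r)).2 ⟨r', hr', 0, h0.le.trans h1⟩⟩
  · intro h q hq
    obtain ⟨π', h1, h2⟩ := exists_pkg' {nnm ε, ck α} (Set.toFinite _).countable q
    obtain ⟨r', hr', m, hm⟩ := (mem_nnm π' (h1 mem2r)).1 (h π' h1 ⟨0, h2.le.trans hq⟩)
    exact ⟨π'.g m, h2 ▸ π'.g_anti (Nat.zero_le m), r', hr', hm⟩

theorem fi_nice {x : PName (Qt E)} {α : K} {r : Qt E} : FI (nice x) α r ↔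
    Fc {x, ck α} (fun π => π.hat (el α) ∈ π.val x) r := by
  constructor
  · intro h
    refine fc_of_dense (nd_hatmem _ _) (Set.toFinite _).countable fun q hq => ?_
    obtain ⟨q', hq', r', hr', h1⟩ := h q hq
    exact ⟨q', hq', ∅, Set.countable_empty, fun π' hS _ h0 => hr' π' hS ⟨0, h0.le.trans h1⟩⟩
  · intro h q hq
    exact ⟨q, le_rfl, q, h.mono hq, le_rfl⟩

theorem Apt.cut (ha : Apt a μ) {ε : K → Set (Qt E)} (hε : jN E ε ∈ a) {i : K} (hi : i < μ)
    {r : Qt E} (hr : μ ∈ r.1.D) : FI ε i r ↔ FI (fun i => {u ∈ ε i | Qt.BL μ u}) i r := by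
  constructor
  · intro h q hq
    obtain ⟨q', hq', r', hr', h1⟩ := h q hq
    have hμ : μ ∈ q'.1.D := (hq'.trans hq).1.1 hr
    have h2 := Qt.BL_Rs ha.good.ht hμ
    obtain ⟨s, hs1, hs2, -, -⟩ := Qt.exists_fac ha.good.ht hμ h2 le_rfl
    obtain ⟨y, hy, z, hz, h3⟩ := ha.cl .cut ![jQ E (Qt.Rs ha.good.ht q'), jN E ε, jK E i] (by
      intro j
      fin_cases j
      exacts [(ha.q _).2 h2, hε, (ha.k i).2 hi])
      ⟨_, _, ε, i, _, s, r', rfl, rfl, rfl, hs2, hr', hs1.trans h1⟩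
    obtain ⟨ε', i', u₁, u₁', r'', h4, rfl, rfl, h5, h6, h7⟩ := h3
    have e1 : jQ E (Qt.Rs ha.good.ht q') = jQ E u₁ := congrFun h4 0
    have e2 : jN E ε = jN E ε' := congrFun h4 1
    have e3 : jK E i = jK E i' := congrFun h4 2
    have e4 := jQ_inj E e1
    obtain rfl := jN_inj E e2
    obtain rfl := jK_inj E e3
    rw [← e4] at h5
    obtain ⟨t, ht1, ht2, -, -⟩ := Qt.exists_fac ha.good.ht hμ ((ha.q _).1 hy) h5
    exact ⟨t, ht1.trans hq', r'', ⟨h6, (ha.q _).1 hz⟩, ht2.trans h7⟩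
  · intro h q hq
    obtain ⟨q', hq', r', hr', h1⟩ := h q hq
    exact ⟨q', hq', r', hr'.1, h1⟩

theorem eqv_of {x y : PName (Qt E)} {q : Qt E} {β : K}
    (h : Fc {x, y, ck β} (fun π => ∀ i ∈ π.hat (el β), (i ∈ π.val x ↔ i ∈ π.val y)) q) :
    Eqv (nice x) (nice y) q β := by
  intro α hα r hr
  rw [fi_nice, fi_nice]
  constructor
  · intro h1
    refine fc_drop (A := {x, y, ck β, ck α}) ?_ (nd_hatmem _ _) (Set.toFinite _).countable
      (Set.toFinite _).countable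
    intro π' hA hm
    have a1 : x ∈ π'.N := hA (by simp)
    have a2 : y ∈ π'.N := hA (by simp)
    have a3 : ck β ∈ π'.N := hA (by simp)
    have a4 : ck α ∈ π'.N := hA (by simp)
    have h2 := h1 π' (by rintro z (rfl | rfl) <;> assumption) hm
    exact (h π' (by rintro z (rfl | rfl | rfl) <;> assumption)
      (hm.imp fun m hm => hm.trans hr) _ ((hat_el_mem π' a4 a3).2 hα)).1 h2
  · intro h1
    refine fc_drop (A := {x, y, ck β, ck α}) ?_ (nd_hatmem _ _) (Set.toFinite _).countable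
      (Set.toFinite _).countable
    intro π' hA hm
    have a1 : x ∈ π'.N := hA (by simp)
    have a2 : y ∈ π'.N := hA (by simp)
    have a3 : ck β ∈ π'.N := hA (by simp)
    have a4 : ck α ∈ π'.N := hA (by simp)
    have h2 := h1 π' (by rintro z (rfl | rfl) <;> assumption) hm
    exact (h π' (by rintro z (rfl | rfl | rfl) <;> assumption)
      (hm.imp fun m hm => hm.trans hr) _ ((hat_el_mem π' a4 a3).2 hα)).2 h2

theorem of_eqv {x : PName (Qt E)} {ε : K → Set (Qt E)} {q : Qt E} {β : K}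
    (h : Eqv (nice x) ε q β) (hx : x ∈ π.N) (hε : nnm ε ∈ π.N) (hq : π.g 0 ≤ q) {α : K}
    (hα : α < β) (hαN : ck α ∈ π.N) : π.hat (el α) ∈ π.val x ↔ π.hat (el α) ∈ π.val (nnm ε) := by
  constructor
  · intro h1
    obtain ⟨m, hm⟩ := fc_gen (nd_hatmem x α) π (by rintro z (rfl | rfl) <;> assumption) h1
    have h2 := (h α hα (π.g m) ((π.g_anti (Nat.zero_le m)).trans hq)).1 (fi_nice.2 hm)
    exact fi_nnm.1 h2 π (by rintro z (rfl | rfl) <;> assumption) ⟨m, le_rfl⟩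
  · intro h1
    obtain ⟨m, hm⟩ := fc_gen (nd_hatmem (nnm ε) α) π (by rintro z (rfl | rfl) <;> assumption) h1
    have h2 := (h α hα (π.g m) ((π.g_anti (Nat.zero_le m)).trans hq)).2 (fi_nnm.2 hm)
    exact fi_nice.1 h2 π (by rintro z (rfl | rfl) <;> assumption) ⟨m, le_rfl⟩

/-- Sets with names in the chosen set belong to the submodel. -/
theorem Ctx.nnm_mem (c : Ctx a μ π) {ε : K → Set (Qt E)} (hε : jN E ε ∈ a) (hN : nnm ε ∈ π.N) :
    π.val (nnm ε) ∈ π.val (Mn a) := by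
  have s1 : nnm ε ∈ (Sn a μ ∪ {nnm ε} : Set (PName (Qt E))) := Or.inr rfl
  have s2 : Mn a ∈ (Sn a μ ∪ {nnm ε} : Set (PName (Qt E))) := Or.inl (by simp [Sn])
  refine c.get (S := {nnm ε}) (Set.countable_singleton _) (Set.singleton_subset_iff.2 hN)
    (R := fun π => π.val (nnm ε) ∈ π.val (Mn a)) (NDfn.mem (NDfnF.val s1) (NDfnF.val s2))
    (jH E) (fun σ => {HN.nm σ, nnm ε}) (fun σ => (Set.toFinite _).countable)
    (fun σ π => π.val (HN.nm σ) = π.val (nnm ε)) ?_ ?_ ?_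
  · intro u hu ⟨u', hu', σ, hσ⟩
    obtain ⟨y, hy, z, hz, h⟩ := c.apt.cl .sub ![jQ E u, jN E ε, jN E ε] (by
      intro j
      fin_cases j
      exacts [(c.apt.q u).2 hu, hε, hε])
      ⟨_, _, ε, u, u', σ, rfl, rfl, rfl, hu', hσ⟩
    obtain ⟨ε', u₁, u₁', σ', h1, rfl, rfl, h2, h3⟩ := h
    have e1 : jQ E u = jQ E u₁ := congrFun h1 0
    have e2 : jN E ε = jN E ε' := congrFun h1 1
    obtain rfl := jQ_inj E e1
    obtain rfl := jN_inj E e2
    exact ⟨u₁', h2, (c.apt.q _).1 hy, σ', hz, h3⟩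
  · intro π' c' hS' _
    have hN' : nnm ε ∈ π'.N := hS' rfl
    have h1 : π'.val (nnm ε) ⊆ π'.hat (kz K) := by
      intro z hz
      obtain ⟨i, hi, rfl⟩ := of_mem_nnm π' hz
      exact (mem_hat_kz π').2 ⟨i, hi, rfl⟩
    obtain ⟨σ, hσ, h⟩ := (mem_HH π').1 (c'.hc.subset c'.hc.kap_mem (π'.val_mem_W hN') h1)
    exact ⟨σ, exists_fc (nd_valeq _ _) (by rintro x (rfl | rfl) <;> assumption) h⟩
  · intro π' c' hS' σ hσ hX h
    exact mem_Mn.2 ⟨σ, hσ, hX mem2l, h⟩

theorem Apt.nice_mem (ha : Apt a μ) {τ : HN K (Qt E)} (hτ : jH E τ ∈ a) :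
    jN E (nice (HN.nm τ)) ∈ a := by
  obtain ⟨y, hy, z, hz, h⟩ := ha.cl .nic ![jH E τ, jH E τ, jH E τ] (by
    intro j
    fin_cases j
    exacts [hτ, hτ, hτ]) ⟨_, _, τ, rfl, rfl, rfl⟩
  obtain ⟨τ', h1, rfl, rfl⟩ := h
  have e1 : jH E τ = jH E τ' := congrFun h1 0
  obtain rfl := jH_inj E e1
  exact hz

/-- Guessing subsets of the height of the submodel. -/
theorem Ctx.guess (c : Ctx a μ π) {d : ZFSet.{0}} (hd : d ∈ π.W)
    (h : ∀ β ∈ π.hat (el μ), ∃ e ∈ π.val (Mn a), ∀ i ∈ β, (i ∈ d ↔ i ∈ e)) :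
    ∃ e ∈ π.val (Mn a), ∀ i ∈ π.hat (el μ), (i ∈ d ↔ i ∈ e) := by
  obtain ⟨x, hx, rfl⟩ := hd
  let S : Set (PName (Qt E)) := Sn a μ ∪ {x}
  have hSc : S.Countable := (Sn_cnt a μ).union (Set.countable_singleton _)
  have s1 : x ∈ S := Or.inr rfl
  have s2 : Mn a ∈ S := Or.inl (by simp [Sn])
  have s3 : check (el μ) ∈ S := by
    change ck μ ∈ S
    exact Or.inl (by simp [Sn])
  have hSπ : ∀ {π' : Pkg (Qt E)}, Ctx a μ π' → x ∈ π'.N → S ⊆ π'.N := by
    intro π' c' hx'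
    exact Set.union_subset c'.sub (Set.singleton_subset_iff.2 hx')
  have hd1 : ND S fun π : Pkg (Qt E) => ∀ β ∈ π.hat (el μ), ∃ e ∈ π.val (Mn a), ∀ i ∈ β,
      (i ∈ π.val x ↔ i ∈ e) := by
    unfold ND
    (repeat' first
      | assumption
      | exact NDfnF.proj _
      | exact NDfnF.val (by assumption)
      | exact NDfnF.hat (by assumption)
      | apply NDfn.not | apply NDfn.and | apply NDfn.or | apply NDfn.imp | apply NDfn.iff
      | apply NDfn.bex | apply NDfn.ball | apply NDfn.ex | apply NDfn.all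
      | apply NDfn.eq | apply NDfn.mem | apply NDfnF.pair)
  have hd2 : ND S fun π : Pkg (Qt E) => ∃ e ∈ π.val (Mn a), ∀ i ∈ π.hat (el μ),
      (i ∈ π.val x ↔ i ∈ e) := by
    unfold ND
    (repeat' first
      | assumption
      | exact NDfnF.proj _
      | exact NDfnF.val (by assumption)
      | exact NDfnF.hat (by assumption)
      | apply NDfn.not | apply NDfn.and | apply NDfn.or | apply NDfn.imp | apply NDfn.iff
      | apply NDfn.bex | apply NDfn.ball | apply NDfn.ex | apply NDfn.all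
      | apply NDfn.eq | apply NDfn.mem | apply NDfnF.pair)
  refine by_dense (S := S) (R := fun π : Pkg (Qt E) => (∀ β ∈ π.hat (el μ),
    ∃ e ∈ π.val (Mn a), ∀ i ∈ β, (i ∈ π.val x ↔ i ∈ e)) → ∃ e ∈ π.val (Mn a),
      ∀ i ∈ π.hat (el μ), (i ∈ π.val x ↔ i ∈ e)) (NDfn.imp hd1 hd2) hSc (hSπ c hx)
      (fun q hq => ?_) h
  obtain ⟨q', hq', hC | hC⟩ := fc_dec hd1 hSc q
  swap
  · exact ⟨q', hq', ∅, Set.countable_empty, fun π' hS' _ h0 h3 => absurd h3 (hC π' hS' ⟨0, h0.le⟩)⟩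
  have hμq' : μ ∈ q'.1.D := c.below (hq'.trans hq)
  have happ : App (nice x) μ q' := by
    intro q₁ hq₁ β hβ
    obtain ⟨π', hA, h0, c'⟩ := c.exists_pkg (hq₁.trans (hq'.trans hq)) {x, ck β}
      (Set.toFinite _).countable
    have hx' : x ∈ π'.N := hA mem2l
    have hβ' : ck β ∈ π'.N := hA mem2r
    obtain ⟨e, he, h1⟩ := hC π' (hSπ c' hx') ⟨0, h0.le.trans hq₁⟩ (π'.hat (el β))
      ((hat_el_mem π' hβ' c'.hmu).2 hβ)
    obtain ⟨τ, hτ, hτN, rfl⟩ := mem_Mn.1 he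
    have u1 : x ∈ ({x, HN.nm τ, ck β} : Set (PName (Qt E))) := by simp
    have u2 : HN.nm τ ∈ ({x, HN.nm τ, ck β} : Set (PName (Qt E))) := by simp
    have u3 : check (el β) ∈ ({x, HN.nm τ, ck β} : Set (PName (Qt E))) := by
      change ck β ∈ _
      simp
    have hd3 : ND {x, HN.nm τ, ck β} fun π : Pkg (Qt E) => ∀ i ∈ π.hat (el β),
        (i ∈ π.val x ↔ i ∈ π.val (HN.nm τ)) := by
      unfold ND
      (repeat' first
      | assumption
      | exact NDfnF.proj _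
      | exact NDfnF.val (by assumption)
      | exact NDfnF.hat (by assumption)
      | apply NDfn.not | apply NDfn.and | apply NDfn.or | apply NDfn.imp | apply NDfn.iff
      | apply NDfn.bex | apply NDfn.ball | apply NDfn.ex | apply NDfn.all
      | apply NDfn.eq | apply NDfn.mem | apply NDfnF.pair)
    obtain ⟨q₂, hq₂, h2⟩ := exists_fc hd3 (by rintro z (rfl | rfl | rfl) <;> assumption) h1
    rw [h0] at hq₂
    refine ⟨q₂, hq₂, fun i => {u ∈ nice (HN.nm τ) i | Qt.BL μ u}, fun i u hu => hu.2, ?_⟩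
    intro α hα r hr
    rw [eqv_of h2 α hα r hr]
    exact c.apt.cut (c.apt.nice_mem hτ) (hα.trans hβ)
      (((hr.trans hq₂).trans hq₁).1.1 hμq')
  obtain ⟨q₂, hq₂, e, he, hEq⟩ := exists_guess c.apt.good hμq' happ
  obtain ⟨ε, hε, hε'⟩ := c.apt.guess e
  have hEq' : Eqv (nice x) ε q₂ μ := by
    intro α hα r hr
    rw [hEq α hα r hr, c.apt.cut hε hα ((hr.trans hq₂).1.1 hμq')]
    have h1 : (fun i => {u ∈ ε i | Qt.BL μ u}) α = e α := by
      ext u
      constructor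
      · rintro ⟨h1, h2⟩
        exact (hε' α hα u h2).1 h1
      · intro h1
        exact ⟨(hε' α hα u (he α u h1)).2 h1, he α u h1⟩
    unfold FI
    rw [← h1]
  refine ⟨q₂, hq₂.trans hq', {nnm ε}, Set.countable_singleton _, fun π' hS' hA h0 _ => ?_⟩
  have hεN : nnm ε ∈ π'.N := hA rfl
  have c' : Ctx a μ π' := c.change (fun z hz => hS' (Or.inl hz))
    (by rw [h0]; exact hq₂.trans (hq'.trans hq))
  refine ⟨_, c'.nnm_mem hε hεN, fun i hi => ?_⟩
  obtain ⟨α, hα, hαN, rfl⟩ := (mem_hat_el π').1 hi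
  exact of_eqv hEq' (hS' s1) hεN h0.le hα hαN

end Pool.Agent.X209.Vi
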