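import Pool.Agent.X209.Vi.Apt

/-!
# Closure properties of the set `H`
-/

set_option autoImplicit false
set_option linter.unreachableTactic false
set_option linter.unusedTactic false
set_option linter.unusedSectionVars false
set_option linter.deprecated false

namespace Pool.Agent.X209.Vi

open Pool.Agent.W868 Pool.Agent.W868.PName Pool.Agent.X209.Gss
open ZFSet (pair)
open Cardinal

section

variable {K : Type} [LinearOrder K] [WellFoundedLT K] {P : Type} [Preorder P] [OrderTop P]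

/-- The basic assumptions. -/
structure HC (K : Type) [LinearOrder K] [WellFoundedLT K] {P : Type} [Preorder P] [OrderTop P]
    (π : Pkg P) : Prop where
  sL : ∃ e : K → List K, Function.Surjective e
  sP : ∃ e : K → K × P, Function.Surjective e
  hH : HH K P ∈ π.N
  hk : check (kz K) ∈ π.N

variable {π : Pkg P} (c : HC K π)

include c

theorem HC.small {z : ZFSet.{0}} (hz : z ∈ Hs K π) :
    ∃ t ∈ π.W, ∃ F ∈ π.W, (∀ x ∈ t, ∀ y ∈ x, y ∈ t) ∧ z ∈ t ∧ (∀ x ∈ t, x ∈ Hs K π) ∧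
      Onto (π.hat (kz K)) F t := by
  obtain ⟨e, he⟩ := c.sL
  exact HH_small π he c.hH c.hk hz

theorem HC.mix {z F : ZFSet.{0}} (hz : z ∈ π.W) (hF : F ∈ π.W) (h1 : ∀ w ∈ z, w ∈ Hs K π)
    (h2 : Onto (π.hat (kz K)) F z) : z ∈ Hs K π := by
  obtain ⟨e, he⟩ := c.sP
  exact Vi.mix π he c.hH c.hk hz hF ⟨h1, h2⟩

theorem HC.sub_W : Hs K π ⊆ π.W := fun _ hx => π.trans_W (π.val_mem_W c.hH) hx

theorem HC.trans {x y : ZFSet.{0}} (hx : x ∈ Hs K π) (hy : y ∈ x) : y ∈ Hs K π := by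
  obtain ⟨t, -, F, -, h1, h2, h3, -⟩ := c.small hx
  exact h3 y (h1 x h2 y hy)

omit c in
theorem Onto.mono {κ F s t : ZFSet.{0}} (h : Onto κ F t) (hs : s ⊆ t) : Onto κ F s :=
  ⟨fun w hw => h.1 w (hs hw), fun i hi w hw w' hw' => h.2 i hi w (hs hw) w' (hs hw')⟩

theorem HC.subset {x z : ZFSet.{0}} (hx : x ∈ Hs K π) (hz : z ∈ π.W) (h : z ⊆ x) :
    z ∈ Hs K π := by
  obtain ⟨t, -, F, hF, h1, h2, h3, h4⟩ := c.small hx
  have h5 : z ⊆ t := fun w hw => h1 x h2 w (h hw)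
  exact c.mix hz hF (fun w hw => h3 w (h5 hw)) (h4.mono h5)

theorem HC.union {x : ZFSet.{0}} (hx : x ∈ Hs K π) : ZFSet.sUnion x ∈ Hs K π := by
  obtain ⟨t, -, F, hF, h1, h2, h3, h4⟩ := c.small hx
  have h5 : ZFSet.sUnion x ⊆ t := by
    intro w hw
    obtain ⟨y, hy, hw⟩ := ZFSet.mem_sUnion.1 hw
    exact h1 y (h1 x h2 y hy) w hw
  exact c.mix (π.isZF_W.union x (c.sub_W hx)) hF (fun w hw => h3 w (h5 hw)) (h4.mono h5)

/-- The ordinals below `κ` belong to `H`. -/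
theorem HC.ord_mem {x : ZFSet.{0}} (hx : x ∈ π.hat (kz K)) : x ∈ Hs K π := by
  have hB := π.isZF_W.base
  have hkW : π.hat (kz K) ∈ π.W := π.val_mem_W c.hk
  have hd : Dfn π.W π.W fun w : Fin 2 → ZFSet.{0} => w 0 = w 1 :=
    Dfn.eq (DfnF.proj 0) (DfnF.proj 1)
  obtain ⟨F, hF, -, hF'⟩ := π.isZF_W.rel_mem hkW hkW (Q := fun a b => a = b) hd
  have hord := π.hat_isOrdinal (kz_ord K)
  induction x using ZFSet.inductionOn with
  | _ x ih =>
    have h1 : ∀ y ∈ x, y ∈ π.hat (kz K) := fun y hy => hord.mem_trans hy hx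
    refine c.mix (π.trans_W hkW hx) hF (fun w hw => ih w hw (h1 w hw)) ⟨fun w hw =>
      ⟨w, h1 w hw, (hF' w w).2 ⟨h1 w hw, h1 w hw, rfl⟩⟩, ?_⟩
    intro i hi w _ w' _ h2 h3
    rw [← ((hF' i w).1 h2).2.2, ((hF' i w').1 h3).2.2]

theorem HC.kap_mem : π.hat (kz K) ∈ Hs K π := by
  have hB := π.isZF_W.base
  have hkW : π.hat (kz K) ∈ π.W := π.val_mem_W c.hk
  have hd : Dfn π.W π.W fun w : Fin 2 → ZFSet.{0} => w 0 = w 1 :=
    Dfn.eq (DfnF.proj 0) (DfnF.proj 1)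
  obtain ⟨F, hF, -, hF'⟩ := π.isZF_W.rel_mem hkW hkW (Q := fun a b => a = b) hd
  refine c.mix hkW hF (fun w hw => c.ord_mem hw) ⟨fun w hw => ⟨w, hw, (hF' w w).2 ⟨hw, hw, rfl⟩⟩, ?_⟩
  intro i hi w _ w' _ h2 h3
  rw [← ((hF' i w).1 h2).2.2, ((hF' i w').1 h3).2.2]

theorem HC.pairing {x y : ZFSet.{0}} (hx : x ∈ Hs K π) (hy : y ∈ Hs K π)
    (hne : ∃ a ∈ π.hat (kz K), ∃ b ∈ π.hat (kz K), a ≠ b) : ({x, y} : ZFSet.{0}) ∈ Hs K π := by
  obtain ⟨a, ha, b, hb, hab⟩ := hne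
  have hW := π.isZF_W
  have hkW : π.hat (kz K) ∈ π.W := π.val_mem_W c.hk
  have haW := π.trans_W hkW ha
  have hbW := π.trans_W hkW hb
  refine c.mix (hW.pairing _ (c.sub_W hx) _ (c.sub_W hy))
    (hW.pairing _ (hW.pair_mem haW (c.sub_W hx)) _ (hW.pair_mem hbW (c.sub_W hy))) ?_ ⟨?_, ?_⟩
  · intro w hw
    rcases ZFSet.mem_pair.1 hw with rfl | rfl
    · exact hx
    · exact hy
  · intro w hw
    rcases ZFSet.mem_pair.1 hw with rfl | rfl
    · exact ⟨a, ha, ZFSet.mem_pair.2 (Or.inl rfl)⟩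
    · exact ⟨b, hb, ZFSet.mem_pair.2 (Or.inr rfl)⟩
  · intro i _ w _ w' _ h1 h2
    rw [ZFSet.mem_pair, ZFSet.pair_inj, ZFSet.pair_inj] at h1 h2
    rcases h1 with ⟨h1, h3⟩ | ⟨h1, h3⟩ <;> rcases h2 with ⟨h2, h4⟩ | ⟨h2, h4⟩
    · rw [h3, h4]
    · exact absurd (h1.symm.trans h2) hab
    · exact absurd (h2.symm.trans h1) hab
    · rw [h3, h4]

theorem HC.base (hne : ∃ a ∈ π.hat (kz K), ∃ b ∈ π.hat (kz K), a ≠ b) : IsBase (Hs K π) :=
  ⟨fun _ hx _ hy => c.trans hx hy, fun _ hx _ hy => c.pairing hx hy hne, fun _ hx => c.union hx⟩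

/-- `H` consists of the sets that belong to a transitive set that is the image of `κ`. -/
theorem HC.all {t F : ZFSet.{0}} (ht : t ∈ π.W) (hF : F ∈ π.W) (htr : ∀ x ∈ t, ∀ y ∈ x, y ∈ t)
    (h : Onto (π.hat (kz K)) F t) {x : ZFSet.{0}} (hx : x ∈ t) : x ∈ Hs K π := by
  induction x using ZFSet.inductionOn with
  | _ x ih =>
    exact c.mix (π.trans_W ht hx) hF (fun w hw => ih w hw (htr x hx w hw))
      (h.mono fun w hw => htr x hx w hw)

end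

end Pool.Agent.X209.Vi
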