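import Pool.Agent.X209.Vi.Sem

/-!
# Hereditarily small names
-/

set_option autoImplicit false
set_option linter.unreachableTactic false
set_option linter.unusedTactic false
set_option linter.unusedSectionVars false
set_option linter.deprecated false

namespace Pool.Agent.X209.Vi

open Pool.Agent.W868 Pool.Agent.W868.PName
open ZFSet (pair)
open Cardinal

/-- The names that are hereditarily indexed by subsets of `K`. -/
inductive HN (K P : Type) : Type
  | mk (s : Set K) (x : s → HN K P) (c : s → P) : HN K P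

namespace HN

variable {K P : Type}

/-- The name. -/
noncomputable def nm : HN K P → PName P
  | .mk s x c => PName.mk s (fun i => nm (x i)) c

/-- The direct subname with index `k`. -/
noncomputable def ch (k : K) : HN K P → HN K P
  | .mk s x c => by classical exact if h : k ∈ s then x ⟨k, h⟩ else .mk s x c

/-- The subname at the end of a path. -/
noncomputable def sub (τ : HN K P) : List K → HN K P
  | [] => τ
  | k :: l => ch k (sub τ l)

theorem el_nm {τ : HN K P} {y : PName P} {c : P} (h : El (nm τ) y c) : ∃ k, y = nm (ch k τ) := by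
  classical
  cases τ with
  | mk s x d =>
    obtain ⟨i, h1, -⟩ := el_mk.1 h
    refine ⟨i.1, ?_⟩
    rw [ch, dif_pos i.2]
    exact h1.symm

end HN

section

variable {K : Type} [LinearOrder K] [WellFoundedLT K] {P : Type} [Preorder P] [OrderTop P]

open HN

variable (K P) in
/-- The name of the set of all values of hereditarily small names. -/
noncomputable def HH : PName P := .mk (HN K P) nm (fun _ => ⊤)

variable (π : Pkg P)

theorem mem_HH {z : ZFSet.{0}} : z ∈ π.val (HH K P) ↔ ∃ τ : HN K P, nm τ ∈ π.N ∧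
    π.val (nm τ) = z := by
  rw [Pkg.mem_val]
  constructor
  · rintro ⟨y, hy, c, hc, -, rfl⟩
    obtain ⟨τ, rfl, rfl⟩ := el_mk.1 hc
    exact ⟨τ, hy, rfl⟩
  · rintro ⟨τ, h, rfl⟩
    exact ⟨nm τ, h, ⊤, el_mk.2 ⟨τ, rfl, rfl⟩, ⟨0, le_top⟩, rfl⟩

/-- The property of being the image of `κ`. -/
def Onto (κ F t : ZFSet.{0}) : Prop :=
  (∀ w ∈ t, ∃ i ∈ κ, pair i w ∈ F) ∧ ∀ i ∈ κ, ∀ w ∈ t, ∀ w' ∈ t, pair i w ∈ F → pair i w' ∈ F →
    w = w'

theorem nd_onto {S : Set (PName P)} {n : ℕ} {F G H : Pkg P → (Fin n → ZFSet.{0}) → ZFSet.{0}}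
    (hF : NDfnF S F) (hG : NDfnF S G) (hH : NDfnF S H) :
    NDfn S fun π v => Onto (F π v) (G π v) (H π v) := by
  have h : NDfn S fun (_ : Pkg P) (w : Fin 3 → ZFSet.{0}) =>
      (∀ x ∈ w 2, ∃ i ∈ w 0, pair i x ∈ w 1) ∧ ∀ i ∈ w 0, ∀ x ∈ w 2, ∀ x' ∈ w 2,
        pair i x ∈ w 1 → pair i x' ∈ w 1 → x = x' := by
    (repeat' first
      | assumption
      | exact NDfnF.proj _
      | exact NDfnF.val (by assumption)
      | exact NDfnF.hat (by assumption)
      | apply NDfn.not | apply NDfn.and | apply NDfn.or | apply NDfn.imp | apply NDfn.iff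
      | apply NDfn.bex | apply NDfn.ball | apply NDfn.ex | apply NDfn.all
      | apply NDfn.eq | apply NDfn.mem | apply NDfnF.pair)
  exact NDfn.comp3 (Q := Onto) h hF hG hH

/-- The name of the transitive set. -/
noncomputable def trN (τ : HN K P) : PName P := .mk (List K) (fun l => nm (sub τ l)) (fun _ => ⊤)

/-- The name of the function onto the transitive set. -/
noncomputable def trF (e : K → List K) (τ : HN K P) : PName P :=
  .mk K (fun k => opN (ck k) (nm (sub τ (e k)))) (fun _ => ⊤)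

theorem mem_trN {τ : HN K P} {z : ZFSet.{0}} : z ∈ π.val (trN τ) ↔ ∃ l, nm (sub τ l) ∈ π.N ∧
    π.val (nm (sub τ l)) = z := by
  rw [Pkg.mem_val]
  constructor
  · rintro ⟨y, hy, c, hc, -, rfl⟩
    obtain ⟨l, rfl, rfl⟩ := el_mk.1 hc
    exact ⟨l, hy, rfl⟩
  · rintro ⟨l, h, rfl⟩
    exact ⟨_, h, ⊤, el_mk.2 ⟨l, rfl, rfl⟩, ⟨0, le_top⟩, rfl⟩

theorem trN_trans {τ : HN K P} {y z : ZFSet.{0}} (hy : y ∈ π.val (trN τ)) (hz : z ∈ y) :
    z ∈ π.val (trN τ) := by
  obtain ⟨l, hl, rfl⟩ := (mem_trN π).1 hy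
  obtain ⟨w, hw, c, hc, -, rfl⟩ := π.mem_val.1 hz
  obtain ⟨k, rfl⟩ := el_nm hc
  exact (mem_trN π).2 ⟨k :: l, hw, rfl⟩

theorem mem_trF {e : K → List K} {τ : HN K P} {k : K} (hk : ck k ∈ π.N) {z : ZFSet.{0}} :
    pair (π.hat (el k)) z ∈ π.val (trF e τ) ↔ opN (ck k) (nm (sub τ (e k))) ∈ π.N ∧
      π.val (nm (sub τ (e k))) = z := by
  rw [Pkg.mem_val]
  constructor
  · rintro ⟨y, hy, c, hc, -, h⟩
    obtain ⟨k', rfl, rfl⟩ := el_mk.1 hc
    have h1 : (ck k' : PName P) ∈ π.N := π.fst_mem hy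
    have h2 := π.snd_mem hy
    rw [π.val_opN h1 h2] at h
    obtain ⟨h3, h4⟩ := ZFSet.pair_inj.1 h
    obtain rfl := (hat_el_inj π h1 hk).1 h3
    exact ⟨hy, h4⟩
  · rintro ⟨h, rfl⟩
    exact ⟨_, h, ⊤, el_mk.2 ⟨k, rfl, rfl⟩, ⟨0, le_top⟩, π.val_opN hk (π.snd_mem h)⟩

/-- A definable property holds if it holds in all richer packages. -/
theorem all_of {S : Set (PName P)} {R : Pkg P → Prop} (hd : ND S R) (hS : S.Countable)
    (A : Set (PName P)) (hA : A.Countable) (h : ∀ π : Pkg P, S ⊆ π.N → A ⊆ π.N → R π)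
    (hSπ : S ⊆ π.N) : R π :=
  fc_of_dense hd hS (p := (⊤ : P)) (fun q _ => ⟨q, le_rfl, A, hA, fun π h1 h2 _ => h π h1 h2⟩) π hSπ
    ⟨0, le_top⟩

theorem trF_onto {e : K → List K} (he : Function.Surjective e) {τ : HN K P} {l : List K}
    (h1 : nm (sub τ l) ∈ π.N) (h2 : trF e τ ∈ π.N) (h3 : check (kz K) ∈ π.N) :
    ∃ i ∈ π.hat (kz K), pair i (π.val (nm (sub τ l))) ∈ π.val (trF e τ) := by
  obtain ⟨k, rfl⟩ := he l
  have s1 : nm (sub τ (e k)) ∈ ({nm (sub τ (e k)), trF e τ, check (kz K)} : Set (PName P)) := by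
    simp
  have s2 : trF e τ ∈ ({nm (sub τ (e k)), trF e τ, check (kz K)} : Set (PName P)) := by simp
  have s3 : check (kz K) ∈ ({nm (sub τ (e k)), trF e τ, check (kz K)} : Set (PName P)) := by simp
  refine all_of π (S := {nm (sub τ (e k)), trF e τ, check (kz K)})
    (R := fun π => ∃ i ∈ π.hat (kz K), pair i (π.val (nm (sub τ (e k)))) ∈ π.val (trF e τ))
    ?_ (Set.toFinite _).countable {ck k} (Set.countable_singleton _) (fun π' hS hA => ?_) ?_
  · unfold ND
    (repeat' first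
      | assumption
      | exact NDfnF.proj _
      | exact NDfnF.val (by assumption)
      | exact NDfnF.hat (by assumption)
      | apply NDfn.not | apply NDfn.and | apply NDfn.or | apply NDfn.imp | apply NDfn.iff
      | apply NDfn.bex | apply NDfn.ball | apply NDfn.ex | apply NDfn.all
      | apply NDfn.eq | apply NDfn.mem | apply NDfnF.pair)
  · have hk : ck k ∈ π'.N := hA rfl
    exact ⟨π'.hat (el k), (mem_hat_kz π').2 ⟨k, hk, rfl⟩,
      (mem_trF π' hk).2 ⟨π'.opN_mem hk (hS s1), rfl⟩⟩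
  · rintro x (rfl | rfl | rfl) <;> assumption

/-- Every element of the set belongs to a transitive set that is the image of `κ`. -/
theorem HH_small {e : K → List K} (he : Function.Surjective e)
    (h1 : HH K P ∈ π.N) (h2 : check (kz K) ∈ π.N) {z : ZFSet.{0}} (hz : z ∈ π.val (HH K P)) :
    ∃ t ∈ π.W, ∃ F ∈ π.W, (∀ x ∈ t, ∀ y ∈ x, y ∈ t) ∧ z ∈ t ∧ (∀ x ∈ t, x ∈ π.val (HH K P)) ∧
      Onto (π.hat (kz K)) F t := by
  obtain ⟨τ, hτ, rfl⟩ := (mem_HH π).1 hz
  have s1 : nm τ ∈ ({nm τ, HH K P, check (kz K)} : Set (PName P)) := by simp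
  have s2 : HH K P ∈ ({nm τ, HH K P, check (kz K)} : Set (PName P)) := by simp
  have s3 : check (kz K) ∈ ({nm τ, HH K P, check (kz K)} : Set (PName P)) := by simp
  refine all_of π (S := {nm τ, HH K P, check (kz K)}) (R := fun π : Pkg P => ∃ t ∈ π.W,
      ∃ F ∈ π.W, (∀ x ∈ t, ∀ y ∈ x, y ∈ t) ∧ π.val (nm τ) ∈ t ∧ (∀ x ∈ t, x ∈ π.val (HH K P)) ∧
      Onto (π.hat (kz K)) F t) ?_ (Set.toFinite _).countable {trN τ, trF e τ}
      (Set.toFinite _).countable (fun π' hS hA => ?_) ?_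
  · unfold ND
    (repeat' first
      | assumption
      | exact NDfnF.proj _
      | exact NDfnF.val (by assumption)
      | exact NDfnF.hat (by assumption)
      | apply nd_onto
      | apply NDfn.not | apply NDfn.and | apply NDfn.or | apply NDfn.imp | apply NDfn.iff
      | apply NDfn.bex | apply NDfn.ball | apply NDfn.ex | apply NDfn.all
      | apply NDfn.eq | apply NDfn.mem | apply NDfnF.pair)
  · have a1 : trN τ ∈ π'.N := hA (by simp)
    have a2 : trF e τ ∈ π'.N := hA (by simp)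
    refine ⟨_, π'.val_mem_W a1, _, π'.val_mem_W a2, fun x hx y hy => trN_trans π' hx hy,
      (mem_trN π').2 ⟨[], hS s1, rfl⟩, ?_, ?_, ?_⟩
    · intro x hx
      obtain ⟨l, hl, rfl⟩ := (mem_trN π').1 hx
      exact (mem_HH π').2 ⟨_, hl, rfl⟩
    · intro w hw
      obtain ⟨l, hl, rfl⟩ := (mem_trN π').1 hw
      exact trF_onto π' he hl a2 (hS s3)
    · intro i hi w _ w' _ h3 h4
      obtain ⟨k, hk, rfl⟩ := (mem_hat_kz π').1 hi
      rw [mem_trF π' hk] at h3 h4
      rw [← h3.2, h4.2]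
  · rintro x (rfl | rfl | rfl) <;> assumption

/-- The premise of the mixing lemma. -/
def MixP (H z F κ : ZFSet.{0}) : Prop := (∀ w ∈ z, w ∈ H) ∧ Onto κ F z

theorem nd_mixP {S : Set (PName P)} {z F : PName P} (h1 : HH K P ∈ S) (h2 : z ∈ S) (h3 : F ∈ S)
    (h4 : check (kz K) ∈ S) :
    ND S fun π : Pkg P => MixP (π.val (HH K P)) (π.val z) (π.val F) (π.hat (kz K)) := by
  unfold ND MixP
  (repeat' first
      | assumption
      | exact NDfnF.proj _
      | exact NDfnF.val (by assumption)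
      | exact NDfnF.hat (by assumption)
      | apply nd_onto
      | apply NDfn.not | apply NDfn.and | apply NDfn.or | apply NDfn.imp | apply NDfn.iff
      | apply NDfn.bex | apply NDfn.ball | apply NDfn.ex | apply NDfn.all
      | apply NDfn.eq | apply NDfn.mem | apply NDfnF.pair)

theorem fc_mem_of {S : Set (PName P)} {R : Pkg P → Prop} {p q : P} (h : Fc S R p) {π : Pkg P}
    (hS : S ⊆ π.N) (h0 : π.g 0 = q) (hq : q ≤ p) : R π := h π hS ⟨0, h0.le.trans hq⟩

/-- The mixing lemma. -/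
theorem mix {e : K → K × P} (he : Function.Surjective e) (h1 : HH K P ∈ π.N)
    (h2 : check (kz K) ∈ π.N) {z F : ZFSet.{0}} (hz : z ∈ π.W) (hF : F ∈ π.W)
    (h : MixP (π.val (HH K P)) z F (π.hat (kz K))) : z ∈ π.val (HH K P) := by
  classical
  obtain ⟨ż, hz', rfl⟩ := hz
  obtain ⟨f, hf', rfl⟩ := hF
  let S : Set (PName P) := {ż, f, HH K P, check (kz K)}
  have s1 : ż ∈ S := by simp [S]
  have s2 : f ∈ S := by simp [S]
  have s3 : HH K P ∈ S := by simp [S]
  have s4 : check (kz K) ∈ S := by simp [S]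
  have hSc : S.Countable := (Set.toFinite _).countable
  have hdC := nd_mixP (K := K) (S := S) s3 s1 s2 s4
  have hd : ND S fun π : Pkg P => MixP (π.val (HH K P)) (π.val ż) (π.val f) (π.hat (kz K)) →
      π.val ż ∈ π.val (HH K P) := by
    refine NDfn.imp hdC ?_
    exact NDfn.mem (NDfnF.val s1) (NDfnF.val s3)
  have hSπ : S ⊆ π.N := by
    rintro x (rfl | rfl | rfl | rfl) <;> assumption
  refine fc_of_dense hd hSc (p := (⊤ : P)) (fun q _ => ?_) π hSπ ⟨0, le_top⟩ h
  obtain ⟨p, hp, hC | hC⟩ := fc_dec hdC hSc q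
  swap
  · exact ⟨p, hp, ∅, Set.countable_empty, fun π' hS _ h0 h3 =>
      absurd h3 (fc_mem_of hC hS h0 le_rfl)⟩
  -- the mixed name
  let G : K → HN K P → P → Prop := fun i τ r => r ≤ p ∧
    Fc {nm τ, ż} (fun π => π.val (nm τ) ∈ π.val ż) r ∧
    Fc {nm τ, ck i, f} (fun π => pair (π.hat (el i)) (π.val (nm τ)) ∈ π.val f) r
  let s : Set K := {k | ∃ τ, G (e k).1 τ (e k).2}
  obtain ⟨T, hT⟩ : ∃ T : s → HN K P, ∀ k : s, G (e k.1).1 (T k) (e k.1).2 :=
    ⟨fun k => k.2.choose, fun k => k.2.choose_spec⟩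
  let X : HN K P := .mk s T (fun k => (e k.1).2)
  refine ⟨p, hp, {nm X}, Set.countable_singleton _, fun π' hS hA h0 h3 => ?_⟩
  have hX : nm X ∈ π'.N := hA rfl
  refine (mem_HH π').2 ⟨X, hX, ?_⟩
  ext w
  constructor
  · intro hw
    obtain ⟨y, hy, c, hc, ⟨m, hm⟩, rfl⟩ := π'.mem_val.1 hw
    obtain ⟨k, rfl, rfl⟩ := el_mk.1 hc
    have h4 := hT k
    exact h4.2.1 π' (by rintro x (rfl | rfl); exacts [hy, hS s1]) ⟨m, hm⟩
  · intro hw
    obtain ⟨i, hi, hiw⟩ := h3.2.1 w hw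
    obtain ⟨k, hk, rfl⟩ := (mem_hat_kz π').1 hi
    have t1 : ck k ∈ ({ck k, nm X, ż, f, HH K P, check (kz K)} : Set (PName P)) := by simp
    have t2 : nm X ∈ ({ck k, nm X, ż, f, HH K P, check (kz K)} : Set (PName P)) := by simp
    have t3 : ż ∈ ({ck k, nm X, ż, f, HH K P, check (kz K)} : Set (PName P)) := by simp
    have t4 : f ∈ ({ck k, nm X, ż, f, HH K P, check (kz K)} : Set (PName P)) := by simp
    have t5 : HH K P ∈ ({ck k, nm X, ż, f, HH K P, check (kz K)} : Set (PName P)) := by simp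
    have t6 : check (kz K) ∈ ({ck k, nm X, ż, f, HH K P, check (kz K)} : Set (PName P)) := by simp
    have t1' : check (el k) ∈ ({ck k, nm X, ż, f, HH K P, check (kz K)} : Set (PName P)) := t1
    have key : Fc {ck k, nm X, ż, f, HH K P, check (kz K)} (fun π : Pkg P => ∀ w ∈ π.val ż,
        pair (π.hat (el k)) w ∈ π.val f → w ∈ π.val (nm X)) p := by
      refine fc_of_dense ?_ (Set.toFinite _).countable fun q₂ hq₂ => ?_
      · unfold ND
        (repeat' first
          | assumption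
          | exact NDfnF.proj _
          | exact NDfnF.val (by assumption)
          | exact NDfnF.hat (by assumption)
          | apply nd_onto
          | apply NDfn.not | apply NDfn.and | apply NDfn.or | apply NDfn.imp | apply NDfn.iff
          | apply NDfn.bex | apply NDfn.ball | apply NDfn.ex | apply NDfn.all
          | apply NDfn.eq | apply NDfn.mem | apply NDfnF.pair)
      by_cases hex : ∃ q₃ ≤ q₂, ∃ τ, G k τ q₃
      · obtain ⟨q₃, hq₃, τ, hτ⟩ := hex
        obtain ⟨j, hj⟩ := he (k, q₃)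
        have hjs : j ∈ s := ⟨τ, by rw [hj]; exact hτ⟩
        have h5 := hT ⟨j, hjs⟩
        generalize hσ : T ⟨j, hjs⟩ = σ at h5
        simp only [hj] at h5
        refine ⟨q₃, hq₃, {nm σ}, Set.countable_singleton _, fun π₂ hS₂ hA₂ h0₂ => ?_⟩
        intro w' hw' hiw'
        have hN : nm σ ∈ π₂.N := hA₂ rfl
        have h6 : π₂.val (nm σ) ∈ π₂.val ż :=
          fc_mem_of h5.2.1 (by rintro x (rfl | rfl); exacts [hN, hS₂ t3]) h0₂ le_rfl
        have h7 : pair (π₂.hat (el k)) (π₂.val (nm σ)) ∈ π₂.val f :=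
          fc_mem_of h5.2.2 (by rintro x (rfl | rfl | rfl); exacts [hN, hS₂ t1, hS₂ t4]) h0₂ le_rfl
        have h8 : MixP (π₂.val (HH K P)) (π₂.val ż) (π₂.val f) (π₂.hat (kz K)) :=
          fc_mem_of hC (by
            rintro x (rfl | rfl | rfl | rfl)
            exacts [hS₂ t3, hS₂ t4, hS₂ t5, hS₂ t6]) h0₂ (hq₃.trans hq₂)
        have h9 : w' = π₂.val (nm σ) :=
          h8.2.2 _ ((mem_hat_kz π₂).2 ⟨k, hS₂ t1, rfl⟩) w' hw' _ h6 hiw' h7
        rw [h9]
        refine π₂.mem_val.2 ⟨_, hN, q₃, ?_, ⟨0, h0₂.le⟩, rfl⟩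
        exact el_mk.2 ⟨⟨j, hjs⟩, by rw [hσ], by simp only [hj]⟩
      · refine ⟨q₂, le_rfl, ∅, Set.countable_empty, fun π₂ hS₂ _ h0₂ => ?_⟩
        intro w' hw' hiw'
        exfalso
        have h8 : MixP (π₂.val (HH K P)) (π₂.val ż) (π₂.val f) (π₂.hat (kz K)) :=
          fc_mem_of hC (by
            rintro x (rfl | rfl | rfl | rfl)
            exacts [hS₂ t3, hS₂ t4, hS₂ t5, hS₂ t6]) h0₂ hq₂
        obtain ⟨τ, hτ, rfl⟩ := (mem_HH π₂).1 (h8.1 w' hw')
        have u1 : nm τ ∈ ({nm τ, ż} : Set (PName P)) := by simp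
        have u2 : ż ∈ ({nm τ, ż} : Set (PName P)) := by simp
        have v1 : nm τ ∈ ({nm τ, ck k, f} : Set (PName P)) := by simp
        have v2 : check (el k) ∈ ({nm τ, ck k, f} : Set (PName P)) := by
          change ck k ∈ _
          simp
        have v3 : f ∈ ({nm τ, ck k, f} : Set (PName P)) := by simp
        obtain ⟨m₁, hm₁⟩ := fc_gen (S := {nm τ, ż}) (R := fun π => π.val (nm τ) ∈ π.val ż)
          (NDfn.mem (NDfnF.val u1) (NDfnF.val u2)) π₂
          (by rintro x (rfl | rfl); exacts [hτ, hS₂ t3]) hw'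
        obtain ⟨m₂, hm₂⟩ := fc_gen (S := {nm τ, ck k, f})
          (R := fun π => pair (π.hat (el k)) (π.val (nm τ)) ∈ π.val f)
          (NDfn.mem ((NDfnF.hat v2).pair (NDfnF.val v1)) (NDfnF.val v3)) π₂
          (by rintro x (rfl | rfl | rfl); exacts [hτ, hS₂ t1, hS₂ t4]) hiw'
        have hle : π₂.g (max m₁ m₂) ≤ q₂ := by
          rw [← h0₂]
          exact π₂.g_anti (Nat.zero_le _)
        exact hex ⟨π₂.g (max m₁ m₂), hle, τ, hle.trans hq₂, hm₁.mono (π₂.g_le_left _ _),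
          hm₂.mono (π₂.g_le_right _ _)⟩
    refine key π' ?_ ⟨0, h0.le⟩ w hw hiw
    rintro x (rfl | rfl | rfl | rfl | rfl | rfl)
    exacts [hk, hX, hS s1, hS s2, hS s3, hS s4]

end

end Pool.Agent.X209.Vi
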