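import Pool.Agent.X209.Vi.Appr
import Pool.Agent.X209.Gss.Sets

/-!
# The supercompactness measure
-/

set_option autoImplicit false
set_option linter.unusedSectionVars false
set_option linter.deprecated false

open Set Cardinal Filter

namespace Pool.Agent.X209.Vi

open Setup Cnd Qt Pool.Agent.X209.Gss

/-- The data of a measure. -/
structure Meas (κ : Cardinal.{0}) (T : Type) where
  U : Ultrafilter (Set T)
  c : KComplete κ U
  small : ∀ᶠ a in (U : Filter (Set T)), #(a : Set T) < κ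
  fine : ∀ x : T, ∀ᶠ a in (U : Filter (Set T)), x ∈ a
  normal : ∀ f : Set T → T, {a : Set T | f a ∈ a} ∈ U → ∃ x : T, {a : Set T | f a = x} ∈ U

theorem exists_meas {κ : Cardinal.{0}} (hκ : Supercompact κ) (T : Type) : Nonempty (Meas κ T) := by
  obtain ⟨U, h1, h2, h3, h4⟩ := hκ.2 T
  exact ⟨⟨U, h1, h2, h3, h4⟩⟩

namespace Meas

variable {κ : Cardinal.{0}} {T : Type} (m : Meas κ T)

theorem all_mem {p : Set T → T → Prop} (h : ∀ x, ∀ᶠ a in (m.U : Filter (Set T)), p a x) :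
    ∀ᶠ a in (m.U : Filter (Set T)), ∀ x ∈ a, p a x := by
  by_contra hcon
  have h1 : ∀ᶠ a in (m.U : Filter (Set T)), ∃ x ∈ a, ¬ p a x := by
    have h2 : ∀ᶠ a in (m.U : Filter (Set T)), ¬ ∀ x ∈ a, p a x := by
      rw [Ultrafilter.eventually_not]; exact hcon
    filter_upwards [h2] with a ha
    push Not at ha
    exact ha
  obtain ⟨x, hx⟩ := normal_exists m.normal h1
  obtain ⟨a, ha1, ha2⟩ := (hx.and (h x)).exists
  exact ha1 ha2

theorem all_mem' {B : Type} {j : B → T} (hj : Function.Injective j) {p : Set T → B → Prop}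
    (h : ∀ x, ∀ᶠ a in (m.U : Filter (Set T)), p a x) :
    ∀ᶠ a in (m.U : Filter (Set T)), ∀ x, j x ∈ a → p a x := by
  have h1 := m.all_mem (p := fun a x => ∀ b, j b = x → p a b) (by
    intro x
    by_cases hx : ∃ b, j b = x
    · obtain ⟨b, rfl⟩ := hx
      filter_upwards [h b] with a ha b' hb'
      rw [hj hb']
      exact ha
    · refine Eventually.of_forall fun a b hb => absurd ⟨b, hb⟩ hx)
  filter_upwards [h1] with a ha x hx
  exact ha _ hx x rfl

/-- a function into the set is constant on a large set -/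
theorem const {B : Type} {j : B → T} (hj : Function.Injective j) (f : Set T → B)
    (h : ∀ᶠ a in (m.U : Filter (Set T)), j (f a) ∈ a) :
    ∃ b, ∀ᶠ a in (m.U : Filter (Set T)), f a = b := by
  obtain ⟨x, hx⟩ := m.normal (fun a => j (f a)) h
  have hx' : ∀ᶠ a in (m.U : Filter (Set T)), j (f a) = x := hx
  obtain ⟨a₀, h0⟩ := hx'.exists
  refine ⟨f a₀, ?_⟩
  filter_upwards [hx'] with a ha
  exact hj (ha.trans h0.symm)

theorem closed (hκ : ℵ₀ < κ) (g : (ℕ → T) → T) :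
    ∀ᶠ a in (m.U : Filter (Set T)), ∀ f : ℕ → T, (∀ n, f n ∈ a) → g f ∈ a := by
  classical
  by_contra hcon
  have hcon' : ∀ᶠ a in (m.U : Filter (Set T)), ∃ f : ℕ → T, (∀ n, f n ∈ a) ∧ g f ∉ a := by
    have h2 : ∀ᶠ a in (m.U : Filter (Set T)), ¬ ∀ f : ℕ → T, (∀ n, f n ∈ a) → g f ∈ a := by
      rw [Ultrafilter.eventually_not]; exact hcon
    filter_upwards [h2] with a ha
    push Not at ha
    exact ha
  obtain ⟨a0, f0, hf0, -⟩ := hcon'.exists
  let F : Set T → (ℕ → T) := fun a =>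
    if h : ∃ f : ℕ → T, (∀ n, f n ∈ a) ∧ g f ∉ a then h.choose else f0
  have hF : ∀ᶠ a in (m.U : Filter (Set T)), (∀ n, F a n ∈ a) ∧ g (F a) ∉ a := by
    filter_upwards [hcon'] with a ha
    simp only [F, dif_pos ha]
    exact ha.choose_spec
  have h2 : ∀ n, ∃ x, ∀ᶠ a in (m.U : Filter (Set T)), F a n = x := fun n =>
    m.const (j := id) Function.injective_id (fun a => F a n) (hF.mono fun a ha => ha.1 n)
  choose y hy using h2
  have h3 : ∀ᶠ a in (m.U : Filter (Set T)), ∀ n, F a n = y n := (m.c.ev_forall_nat hκ).2 hy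
  obtain ⟨a, ha1, ha2, ha3⟩ := (hF.and (h3.and (m.fine (g y)))).exists
  have : F a = y := funext ha2
  rw [this] at ha1
  exact ha1.2 ha3

theorem wit {n : ℕ} (R : (Fin n → T) → T → T → Prop) :
    ∀ᶠ a in (m.U : Filter (Set T)), ∀ t : Fin n → T, (∀ i, t i ∈ a) → (∃ y z, R t y z) →
      ∃ y ∈ a, ∃ z ∈ a, R t y z := by
  classical
  by_cases hT : Nonempty T
  · obtain ⟨x0⟩ := hT
    let g₁ : (Fin n → T) → T := fun t => if h : ∃ y z, R t y z then h.choose else x0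
    let g₂ : (Fin n → T) → T := fun t => if h : ∃ y z, R t y z then h.choose_spec.choose else x0
    filter_upwards [normal_closed m.fine m.normal g₁, normal_closed m.fine m.normal g₂]
      with a h1 h2 t ht h
    refine ⟨g₁ t, h1 t ht, g₂ t, h2 t ht, ?_⟩
    simp only [g₁, g₂, dif_pos h]
    exact h.choose_spec.choose_spec
  · refine Eventually.of_forall fun a t _ ⟨y, _⟩ => absurd ⟨y⟩ hT

variable {K : Type} [LinearOrder K] [WellFoundedLT K]

/-- The trace on `K` is an initial segment. -/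
theorem exists_mu (hK : #K = κ) (hI : ∀ x : K, #(Iio x) < κ) {j : K → T}
    (hj : Function.Injective j) :
    ∀ᶠ a in (m.U : Filter (Set T)), ∃ μ : K, ∀ k, j k ∈ a ↔ k < μ := by
  have h1 : ∀ x : K, ∀ᶠ a in (m.U : Filter (Set T)), ∀ y < x, j y ∈ a := by
    intro x
    have h2 := (m.c.ev_forall (ι := Iio x) (hI x) (p := fun a y => j y.1 ∈ a)).2
      fun y => m.fine _
    filter_upwards [h2] with a ha y hy
    exact ha ⟨y, hy⟩
  filter_upwards [m.all_mem' hj h1, m.small] with a h2 h3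
  have h4 : ({k | j k ∉ a} : Set K).Nonempty := by
    by_contra h5
    rw [not_nonempty_iff_eq_empty] at h5
    have h6 : ∀ k, j k ∈ a := by
      intro k
      by_contra h7
      have : k ∈ ({k | j k ∉ a} : Set K) := h7
      rw [h5] at this
      exact this
    have h7 : #K ≤ #a := mk_le_of_injective (f := fun k => (⟨j k, h6 k⟩ : a)) (by
      intro x y hxy
      exact hj (Subtype.ext_iff.1 hxy))
    rw [hK] at h7
    exact absurd h3 (not_lt.2 h7)
  obtain ⟨μ, hμ, hmin⟩ := WellFounded.has_min (wellFounded_lt (α := K)) _ h4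
  refine ⟨μ, fun k => ⟨fun hk => ?_, fun hk => ?_⟩⟩
  · by_contra h5
    rcases (not_lt.1 h5).eq_or_lt with h6 | h6
    · rw [← h6] at hk
      exact hμ hk
    · exact hμ (h2 k hk μ h6)
  · by_contra h5
    exact hmin k h5 hk

end Meas

/-- The properties of `K`. -/
structure Inac (κ : Cardinal.{0}) (K : Type) [LinearOrder K] : Prop where
  card : #K = κ
  iio : ∀ x : K, #(Iio x) < κ
  reg : ∀ (ι : Type), #ι < κ → ∀ f : ι → K, ∃ γ, ∀ i, f i < γ
  pow : ∀ c : Cardinal.{0}, c < κ → 2 ^ c < κ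
  unc : ℵ₀ < κ

theorem exists_K {κ : Cardinal.{0}} (hκ : Supercompact κ) :
    ∃ (K : Type) (_ : LinearOrder K) (_ : WellFoundedLT K), Inac κ K := by
  refine ⟨κ.ord.ToType, inferInstance, inferInstance, ?_⟩
  have h1 : #κ.ord.ToType = κ := by simp
  have h2 : ∀ x : κ.ord.ToType, #(Iio x) < κ := fun x => mk_Iio_ord_toType x
  refine ⟨h1, h2, ?_, ?_, hκ.1⟩
  · intro ι hι f
    obtain ⟨m⟩ := exists_meas hκ κ.ord.ToType
    have h3 := m.exists_mu h1 h2 Function.injective_id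
    have h4 := (m.c.ev_forall hι (p := fun a i => f i ∈ a)).2 fun i => m.fine _
    obtain ⟨a, ⟨μ, ha⟩, ha2⟩ := (h3.and h4).exists
    exact ⟨μ, fun i => (ha _).1 (ha2 i)⟩
  · intro c hc
    refine StronglyCompact.two_power_lt ⟨hκ.1, fun X => ?_⟩ hc
    obtain ⟨m⟩ := exists_meas hκ X
    exact ⟨m.U, m.c, m.small, m.fine⟩

namespace Inac

variable {κ : Cardinal.{0}} {K : Type} [LinearOrder K] [WellFoundedLT K] (hI : Inac κ K)

include hI

theorem countable_bd {s : Set K} (hs : s.Countable) : ∃ γ, ∀ x ∈ s, x < γ := by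
  obtain ⟨γ, hγ⟩ := hI.reg s (hs.le_aleph0.trans_lt hI.unc) fun x => x.1
  exact ⟨γ, fun x hx => hγ ⟨x, hx⟩⟩

theorem aleph0_le : ℵ₀ ≤ κ := hI.unc.le

theorem card_bounded_le : #{s : Set K // ∃ γ, s ⊆ Iio γ} ≤ κ := by
  have h1 : #(Σ γ : K, Set (Iio γ)) ≤ κ := by
    rw [mk_sigma]
    refine (sum_le_sum _ (fun _ => κ) fun γ => ?_).trans ?_
    · rw [mk_set]
      exact (hI.pow _ (hI.iio γ)).le
    · rw [sum_const, lift_id, lift_id, hI.card]
      exact (mul_eq_self hI.aleph0_le).le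
  refine (mk_le_of_surjective (f := fun z : Σ γ : K, Set (Iio γ) =>
    (⟨Subtype.val '' z.2, ⟨z.1, by rintro _ ⟨x, -, rfl⟩; exact x.2⟩⟩ :
      {s : Set K // ∃ γ, s ⊆ Iio γ})) ?_).trans h1
  rintro ⟨s, γ, hγ⟩
  refine ⟨⟨γ, Subtype.val ⁻¹' s⟩, ?_⟩
  simp only [Subtype.mk.injEq, Subtype.image_preimage_coe]
  exact inter_eq_right.2 hγ

theorem card_cnt_le : #{s : Set K // s.Countable} ≤ κ := by
  refine (mk_le_of_injective (f := fun s : {s : Set K // s.Countable} =>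
    (⟨s.1, (hI.countable_bd s.2).imp fun γ h x hx => h x hx⟩ :
      {s : Set K // ∃ γ, s ⊆ Iio γ})) ?_).trans hI.card_bounded_le
  intro s t h
  simp only [Subtype.mk.injEq] at h
  exact Subtype.ext h

theorem exists_unc : ∃ x : K, ¬ (Iio x).Countable := by
  have h0 : #(Set ℕ) < κ := by
    have := hI.pow _ hI.unc
    rwa [mk_set, mk_nat]
  have h1 : #(Set ℕ) ≤ #K := by rw [hI.card]; exact h0.le
  obtain ⟨e⟩ := h1
  obtain ⟨γ, hγ⟩ := hI.reg (Set ℕ) h0 e
  refine ⟨γ, fun hc => ?_⟩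
  have h2 : #(Set ℕ) ≤ #(Iio γ) := mk_le_of_injective (f := fun s => (⟨e s, hγ s⟩ : Iio γ)) (by
    intro s t h
    exact e.injective (Subtype.ext_iff.1 h))
  have h3 := h2.trans hc.le_aleph0
  rw [mk_set, mk_nat] at h3
  exact absurd (cantor ℵ₀) (not_lt.2 h3)

theorem exists_setup : Nonempty (Setup K) := by
  classical
  have h1 : #{s : Set K // s.Countable} ≤ #K := by rw [hI.card]; exact hI.card_cnt_le
  obtain ⟨g⟩ := h1
  obtain ⟨x0, hx0⟩ := hI.exists_unc
  obtain ⟨b0, -, hb0⟩ := WellFounded.has_min (wellFounded_lt (α := K)) univ ⟨x0, trivial⟩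
  obtain ⟨o1, ho1, ho2⟩ := WellFounded.has_min (wellFounded_lt (α := K))
    {x : K | ¬ (Iio x).Countable} ⟨x0, hx0⟩
  refine ⟨⟨fun s => if h : s.Countable then g ⟨s, h⟩ else x0, ?_, b0, ?_, o1, ho1, ?_⟩⟩
  · intro s t hs ht h
    simp only [dif_pos hs, dif_pos ht] at h
    exact Subtype.ext_iff.1 (g.injective h)
  · intro x
    exact not_lt.1 (hb0 x trivial)
  · intro x hx
    by_contra h
    exact ho2 x h hx

variable {E : Setup K}

theorem card_ad_le : #(Ad K) ≤ κ := by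
  have h1 : #({s : Set K // s.Countable} × {s : Set K // s.Countable}) ≤ κ := by
    rw [mk_prod, lift_id]
    exact (mul_le_mul' hI.card_cnt_le hI.card_cnt_le).trans (mul_eq_self hI.aleph0_le).le
  refine (mk_le_of_injective (f := fun b : Ad K =>
    ((⟨{k | b.f k = some true}, b.cnt.mono fun k hk => by
      simp only [mem_setOf_eq] at hk ⊢; rw [hk]; simp⟩,
      ⟨{k | b.f k = some false}, b.cnt.mono fun k hk => by
      simp only [mem_setOf_eq] at hk ⊢; rw [hk]; simp⟩) :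
      {s : Set K // s.Countable} × {s : Set K // s.Countable})) ?_).trans h1
  intro b c h
  simp only [Prod.mk.injEq, Subtype.mk.injEq] at h
  obtain ⟨h2, h3⟩ := h
  ext k v
  cases v with
  | true => exact Set.ext_iff.1 h2 k
  | false => exact Set.ext_iff.1 h3 k

theorem card_cnd_le : #(Cnd E) ≤ κ := by
  have h1 : #({s : Set K // s.Countable} × {s : Set K // s.Countable}) ≤ κ := by
    rw [mk_prod, lift_id]
    exact (mul_le_mul' hI.card_cnt_le hI.card_cnt_le).trans (mul_eq_self hI.aleph0_le).le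
  refine (mk_le_of_injective (f := fun r : Cnd E =>
    ((⟨r.D, r.finD.countable⟩, ⟨E.cd '' r.M, (r.finM.image _).countable⟩) :
      {s : Set K // s.Countable} × {s : Set K // s.Countable})) ?_).trans h1
  intro b c h
  simp only [Prod.mk.injEq, Subtype.mk.injEq] at h
  exact ci_inj h.1 h.2

theorem card_qt_le : #(Qt E) ≤ κ := by
  rw [mk_prod, lift_id, lift_id]
  exact (mul_le_mul' hI.card_cnd_le hI.card_ad_le).trans (mul_eq_self hI.aleph0_le).le

theorem card_set_lt {ι : Type} (h : #ι < κ) : #(Set ι) < κ := by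
  rw [mk_set]; exact hI.pow _ h

theorem card_prod_lt {ι τ : Type} (h : #ι < κ) (h' : #τ < κ) : #(ι × τ) < κ := by
  rw [mk_prod, lift_id, lift_id]; exact mul_lt_of_lt hI.aleph0_le h h'

theorem card_BL_lt (β : K) : #{u : Qt E // BL β u} < κ := by
  have hs : #(Set (Iio β)) < κ := hI.card_set_lt (hI.iio β)
  have h1 : #((Set (Iio β) × Set (Set (Iio β))) × (Set (Iio β) × Set (Iio β))) < κ :=
    hI.card_prod_lt (hI.card_prod_lt hs (hI.card_set_lt hs)) (hI.card_prod_lt hs hs)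
  refine (mk_le_of_injective (f := fun u : {u : Qt E // BL β u} =>
    (((Subtype.val ⁻¹' u.1.1.D, (fun N : Set K => (Subtype.val ⁻¹' N : Set (Iio β))) '' u.1.1.M),
      ({k | u.1.2.f k.1 = some true}, {k | u.1.2.f k.1 = some false})) :
      (Set (Iio β) × Set (Set (Iio β))) × (Set (Iio β) × Set (Iio β)))) ?_).trans_lt h1
  rintro ⟨u, hu⟩ ⟨v, hv⟩ h
  simp only [Prod.mk.injEq] at h
  obtain ⟨⟨h2, h3⟩, h4, h5⟩ := h
  have key : ∀ s t : Set K, s ⊆ Iio β → (Subtype.val ⁻¹' s : Set (Iio β)) = Subtype.val ⁻¹' t →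
      s ⊆ t := by
    intro s t hs h x hx
    have h6 : (⟨x, hs hx⟩ : Iio β) ∈ (Subtype.val ⁻¹' s : Set (Iio β)) := hx
    rw [h] at h6
    exact h6
  have key2 : ∀ u v : Qt E, BL β u → BL β v →
      (fun N : Set K => (Subtype.val ⁻¹' N : Set (Iio β))) '' u.1.M =
      (fun N : Set K => (Subtype.val ⁻¹' N : Set (Iio β))) '' v.1.M → u.1.M ⊆ v.1.M := by
    intro u v hu hv h N hN
    have h6 : (Subtype.val ⁻¹' N : Set (Iio β)) ∈
      (fun N : Set K => (Subtype.val ⁻¹' N : Set (Iio β))) '' u.1.M := ⟨N, hN, rfl⟩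
    rw [h] at h6
    obtain ⟨N', hN', h7⟩ := h6
    have h8 : N = N' := subset_antisymm (key _ _ (hu.1.2 N hN) h7.symm)
      (key _ _ (hv.1.2 N' hN') h7)
    rw [h8]
    exact hN'
  have key3 : ∀ k, ¬ k < β → u.2.f k = none ∧ v.2.f k = none := by
    intro k hk
    constructor
    · by_contra h6; exact hk (hu.2 k h6)
    · by_contra h6; exact hk (hv.2 k h6)
  refine Subtype.ext (Prod.ext (Cnd.ext ?_ ?_) ?_)
  · exact subset_antisymm (key _ _ hu.1.1 h2) (key _ _ hv.1.1 h2.symm)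
  · exact subset_antisymm (key2 u v hu hv h3) (key2 v u hv hu h3.symm)
  · ext k w
    by_cases hk : k < β
    · cases w with
      | true => exact Set.ext_iff.1 h4 ⟨k, hk⟩
      | false => exact Set.ext_iff.1 h5 ⟨k, hk⟩
    · rw [(key3 k hk).1, (key3 k hk).2]

theorem card_Bs_lt (β : K) : #(Bs E β) < κ := by
  have h1 : #(Iio β ⊕ {u : Qt E // BL β u}) < κ := by
    rw [mk_sum, lift_id, lift_id]
    exact add_lt_of_lt hI.aleph0_le (hI.iio β) (hI.card_BL_lt β)
  refine (mk_le_of_surjective (f := fun z : Iio β ⊕ {u : Qt E // BL β u} =>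
    (z.elim (fun k => ⟨Sum.inl k.1, Or.inl ⟨k.1, k.2, rfl⟩⟩) (fun u => ⟨Sum.inr u.1,
      Or.inr ⟨u.1, u.2, rfl⟩⟩) : Bs E β)) ?_).trans_lt h1
  rintro ⟨z, ⟨k, hk, rfl⟩ | ⟨u, hu, rfl⟩⟩
  · exact ⟨Sum.inl ⟨k, hk⟩, rfl⟩
  · exact ⟨Sum.inr ⟨u, hu⟩, rfl⟩

/-- the labels of a tree -/
def lab {B : Type} : Tr B → List ℕ → Option (B ⊕ ℕ)
  | .leaf b, [] => some (Sum.inl b)
  | .leaf _, _ :: _ => none
  | .node n _, [] => some (Sum.inr n)
  | .node _ f, k :: l => lab (f k) l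

omit hI in
theorem lab_inj {B : Type} : Function.Injective (lab : Tr B → List ℕ → Option (B ⊕ ℕ)) := by
  intro s
  induction s with
  | leaf b =>
    intro t h
    have h1 := congrFun h []
    cases t with
    | leaf c => simp only [lab, Option.some.injEq, Sum.inl.injEq] at h1; rw [h1]
    | node n f => simp [lab] at h1
  | node n f ih =>
    intro t h
    have h1 := congrFun h []
    cases t with
    | leaf c => simp [lab] at h1
    | node m g =>
      simp only [lab, Option.some.injEq, Sum.inr.injEq] at h1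
      subst h1
      have h2 : f = g := by
        funext k
        apply ih
        funext l
        exact congrFun h (k :: l)
      rw [h2]

theorem card_Tr_lt {B : Type} (hB : #B < κ) : #(Tr B) < κ := by
  have h1 : #(Option (B ⊕ ℕ)) < κ := by
    rw [mk_option, mk_sum, lift_id, lift_id, mk_nat]
    exact add_lt_of_lt hI.aleph0_le (add_lt_of_lt hI.aleph0_le hB hI.unc)
      (one_lt_aleph0.trans hI.unc)
  have h2 : ℵ₀ ≤ #(Option (B ⊕ ℕ)) := by
    rw [mk_option, mk_sum, lift_id, lift_id, mk_nat]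
    exact (self_le_add_left _ _).trans (self_le_add_right _ _)
  refine (mk_le_of_injective lab_inj).trans_lt ?_
  rw [← power_def, mk_list_eq_aleph0]
  exact ((power_le_power_left (aleph0_pos.trans_le h2).ne' h2).trans
    (power_self_eq h2).le).trans_lt (hI.pow _ h1)

end Inac

section main

variable {κ : Cardinal.{0}} {K : Type} [LinearOrder K] [WellFoundedLT K] {E : Setup K}

/-- A bound for a countable sequence. -/
theorem exists_bound (hI : Inac κ K) : ∃ B : (ℕ → K) → K, ∀ f n, f n < B f := by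
  have h : ∀ f : ℕ → K, ∃ γ, ∀ n, f n < γ := fun f =>
    hI.reg ℕ (by rw [mk_nat]; exact hI.unc) f
  choose B hB using h
  exact ⟨B, hB⟩

theorem good_mu (hI : Inac κ K) {T : Type} (m : Meas κ T) {j : K → T}
    (hj : Function.Injective j) :
    ∀ᶠ a in (m.U : Filter (Set T)), ∃ μ : K, (∀ k, j k ∈ a ↔ k < μ) ∧ Good E μ := by
  classical
  have hmu := m.exists_mu hI.card hI.iio hj
  -- closure under countable operations on `K`
  have hcl : ∀ g : (ℕ → K) → K, ∀ᶠ a in (m.U : Filter (Set T)), ∀ f : ℕ → K,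
      (∀ n, j (f n) ∈ a) → j (g f) ∈ a := by
    intro g
    have h1 := m.closed hI.unc (fun f : ℕ → T => j (g fun n => if h : ∃ k, j k = f n then h.choose
      else E.b0))
    filter_upwards [h1] with a ha f hf
    have h2 := ha (fun n => j (f n)) hf
    have h3 : (fun n => if h : ∃ k, j k = j (f n) then h.choose else E.b0) = f := by
      funext n
      have h4 : ∃ k, j k = j (f n) := ⟨f n, rfl⟩
      rw [dif_pos h4]
      exact hj h4.choose_spec
    rw [h3] at h2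
    exact h2
  obtain ⟨B, hB⟩ := exists_bound hI
  -- bounds of the coded sets
  have hbd : ∀ y : K, ∃ γ, ∀ x ∈ dc E y, x < γ := fun y => hI.countable_bd (dc_cnt y)
  choose b hb using hbd
  have h1 := hcl B
  have h2 := hcl fun f => E.cd (range f)
  have h3 := hcl fun f => b (f 0)
  have h4 := m.fine (j E.o1)
  have h5 := m.fine (j (E.cd ∅))
  -- everything but the last property
  have hgood : ∀ᶠ a in (m.U : Filter (Set T)), ∃ μ : K, (∀ k, j k ∈ a ↔ k < μ) ∧ E.Ht μ ∧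
      ∀ s : Set K, s.Countable → s ⊆ Iio μ → ∃ β < μ, s ⊆ Iio β := by
    filter_upwards [hmu, h1, h2, h3, h4, h5] with a ⟨μ, hμ⟩ a1 a2 a3 a4 a5
    refine ⟨μ, hμ, ⟨(hμ _).1 a4, ?_, ?_⟩, ?_⟩
    · intro s hs hsμ
      rcases s.eq_empty_or_nonempty with rfl | hne
      · exact (hμ _).1 a5
      · obtain ⟨f, rfl⟩ := hs.exists_eq_range hne
        exact (hμ _).1 (a2 f fun n => (hμ _).2 (hsμ (mem_range_self n)))
    · intro s hs hcd x hx
      have h6 := a3 (fun _ => E.cd s) fun _ => (hμ _).2 hcd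
      have h7 : x < b (E.cd s) := hb _ x (by rw [dc_cd hs]; exact hx)
      exact h7.trans ((hμ _).1 h6)
    · intro s hs hsμ
      rcases s.eq_empty_or_nonempty with rfl | hne
      · exact ⟨E.o1, (hμ _).1 a4, empty_subset _⟩
      · obtain ⟨f, rfl⟩ := hs.exists_eq_range hne
        refine ⟨B f, (hμ _).1 (a1 f fun n => (hμ _).2 (hsμ (mem_range_self n))), ?_⟩
        rintro _ ⟨n, rfl⟩
        exact hB f n
  -- boundedness of small families
  have htr : ∀ β : K, ∀ᶠ a in (m.U : Filter (Set T)), ∀ f : Tr (Bs E β) → K,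
      ∃ γ : K, j γ ∈ a ∧ ∀ t, j (f t) ∈ a → f t < γ := by
    intro β
    by_contra hcon
    have hcon' : ∀ᶠ a in (m.U : Filter (Set T)), ∃ f : Tr (Bs E β) → K,
        ∀ γ : K, j γ ∈ a → ∃ t, j (f t) ∈ a ∧ γ ≤ f t := by
      have h6 : ∀ᶠ a in (m.U : Filter (Set T)), ¬ ∀ f : Tr (Bs E β) → K,
          ∃ γ : K, j γ ∈ a ∧ ∀ t, j (f t) ∈ a → f t < γ := by
        rw [Ultrafilter.eventually_not]; exact hcon
      filter_upwards [h6] with a ha
      push Not at ha
      exact ha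
    let F : Set T → Tr (Bs E β) → K := fun a => if h : ∃ f : Tr (Bs E β) → K,
        ∀ γ : K, j γ ∈ a → ∃ t, j (f t) ∈ a ∧ γ ≤ f t then
          fun t => if j (h.choose t) ∈ a then h.choose t else E.b0 else fun _ => E.b0
    have hF : ∀ᶠ a in (m.U : Filter (Set T)), (∀ t, j (F a t) ∈ a) ∧
        ∀ γ : K, j γ ∈ a → ∃ t, γ ≤ F a t := by
      filter_upwards [hcon', m.fine (j E.b0)] with a ha hb0
      simp only [F, dif_pos ha]
      constructor
      · intro t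
        split_ifs with h7
        · exact h7
        · exact hb0
      · intro γ hγ
        obtain ⟨t, h7, h8⟩ := ha.choose_spec γ hγ
        exact ⟨t, by rw [if_pos h7]; exact h8⟩
    have h6 : ∀ t, ∃ x, ∀ᶠ a in (m.U : Filter (Set T)), F a t = x := fun t =>
      m.const hj (fun a => F a t) (hF.mono fun a ha => ha.1 t)
    choose c hc using h6
    have hΛ : #(Tr (Bs E β)) < κ := hI.card_Tr_lt (hI.card_Bs_lt β)
    have h7 := (m.c.ev_forall hΛ (p := fun a t => F a t = c t)).2 hc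
    obtain ⟨γ, hγ⟩ := hI.reg _ hΛ c
    obtain ⟨a, ⟨ha1, ha2⟩, ha3, ha4⟩ := (hF.and (h7.and (m.fine (j γ)))).exists
    obtain ⟨t, ht⟩ := ha2 γ ha4
    rw [ha3 t] at ht
    exact absurd (hγ t) (not_lt.2 ht)
  have htr' := m.all_mem' hj htr
  -- the last property
  have hmah : ∀ᶠ a in (m.U : Filter (Set T)), ∀ h : K → K, (∀ β, j β ∈ a → j (h β) ∈ a) →
      ∃ δ, j δ ∈ a ∧ E.Ht δ ∧ (∀ β < δ, h β < δ) ∧
        ∀ s : Set K, s.Countable → s ⊆ Iio δ → ∃ β < δ, s ⊆ Iio β := by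
    by_contra hcon
    have hcon' : ∀ᶠ a in (m.U : Filter (Set T)), ∃ h : K → K, (∀ β, j β ∈ a → j (h β) ∈ a) ∧
        ¬ ∃ δ, j δ ∈ a ∧ E.Ht δ ∧ (∀ β < δ, h β < δ) ∧
          ∀ s : Set K, s.Countable → s ⊆ Iio δ → ∃ β < δ, s ⊆ Iio β := by
      have h6 : ∀ᶠ a in (m.U : Filter (Set T)), ¬ ∀ h : K → K, (∀ β, j β ∈ a → j (h β) ∈ a) →
          ∃ δ, j δ ∈ a ∧ E.Ht δ ∧ (∀ β < δ, h β < δ) ∧
            ∀ s : Set K, s.Countable → s ⊆ Iio δ → ∃ β < δ, s ⊆ Iio β := by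
        rw [Ultrafilter.eventually_not]; exact hcon
      filter_upwards [h6] with a ha
      by_contra h7
      exact ha fun h h8 => by
        by_contra h9
        exact h7 ⟨h, h8, h9⟩
    let F : Set T → K → K := fun a => if h : ∃ h : K → K, (∀ β, j β ∈ a → j (h β) ∈ a) ∧
        ¬ ∃ δ, j δ ∈ a ∧ E.Ht δ ∧ (∀ β < δ, h β < δ) ∧
          ∀ s : Set K, s.Countable → s ⊆ Iio δ → ∃ β < δ, s ⊆ Iio β then h.choose else id
    have hF : ∀ᶠ a in (m.U : Filter (Set T)), (∀ β, j β ∈ a → j (F a β) ∈ a) ∧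
        ¬ ∃ δ, j δ ∈ a ∧ E.Ht δ ∧ (∀ β < δ, F a β < δ) ∧
          ∀ s : Set K, s.Countable → s ⊆ Iio δ → ∃ β < δ, s ⊆ Iio β := by
      filter_upwards [hcon'] with a ha
      simp only [F, dif_pos ha]
      exact ha.choose_spec
    have h6 : ∀ β, ∃ x, ∀ᶠ a in (m.U : Filter (Set T)), F a β = x := fun β =>
      m.const hj (fun a => F a β) ((hF.and (m.fine (j β))).mono fun a ha => ha.1.1 β ha.2)
    choose H hH using h6
    have h7 := m.all_mem' (p := fun a β => F a β = H β) hj hH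
    obtain ⟨b', ⟨δ, hδ1, hδ2, hδ3⟩, hb1, hb2⟩ := (hgood.and (h7.and hF)).exists
    obtain ⟨a, ha1, ha2, ⟨μ, hμ⟩, ha3⟩ := (h7.and (hF.and (hmu.and (m.fine (j δ))))).exists
    refine ha2.2 ⟨δ, ha3, hδ2, fun β hβ => ?_, hδ3⟩
    have h8 : j β ∈ a := (hμ β).2 (hβ.trans ((hμ δ).1 ha3))
    have h9 : j β ∈ b' := (hδ1 β).2 hβ
    rw [ha1 β h8, ← hb1 β h9]
    exact (hδ1 _).1 (hb2.1 β h9)
  filter_upwards [hgood, htr', hmah] with a ⟨μ, hμ, h6, h7⟩ h8 h9
  refine ⟨μ, hμ, ⟨h6, h7, ?_, ?_⟩⟩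
  · intro β hβ f
    obtain ⟨γ, h10, h11⟩ := h8 β ((hμ β).2 hβ) f
    exact ⟨γ, (hμ γ).1 h10, fun t ht => h11 t ((hμ _).2 ht)⟩
  · intro h hh
    obtain ⟨δ, h10, h11⟩ := h9 h fun β hβ => (hμ _).2 (hh β ((hμ β).1 hβ))
    exact ⟨δ, (hμ δ).1 h10, h11⟩

/-- The set chosen by the measure. -/
theorem exists_a (hκ : Supercompact κ) (hI : Inac κ K) {T : Type} {jK : K → T}
    {jN : (K → Set (Qt E)) → T} {jQ : Qt E → T} (hK : Function.Injective jK)
    (hQ : Function.Injective jQ)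
    (C : ℕ → T)
    {ι : Type} [Countable ι] (ar : ι → ℕ) (R : ∀ i, (Fin (ar i) → T) → T → T → Prop) :
    ∃ a : Set T, #a < κ ∧ (∀ n, C n ∈ a) ∧ ∃ μ : K, (∀ k, jK k ∈ a ↔ k < μ) ∧ Good E μ ∧
      (∀ u, jQ u ∈ a ↔ BL μ u) ∧
      (∀ e : K → Set (Qt E), ∃ ε, jN ε ∈ a ∧ ∀ i < μ, ∀ u, BL μ u → (u ∈ ε i ↔ u ∈ e i)) ∧
      ∀ i t, (∀ j, t j ∈ a) → (∃ y z, R i t y z) → ∃ y ∈ a, ∃ z ∈ a, R i t y z := by
  classical
  obtain ⟨m⟩ := exists_meas hκ T
  have h1 := good_mu (E := E) hI m hK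
  have h2 := (m.c.ev_forall_nat hI.unc (p := fun (a : Set T) (i : ι) =>
    ∀ t : Fin (ar i) → T, (∀ j, t j ∈ a) → (∃ y z, R i t y z) → ∃ y ∈ a, ∃ z ∈ a, R i t y z)).2
    fun i => m.wit (R i)
  have hC := (m.c.ev_forall_nat hI.unc (p := fun (a : Set T) (n : ℕ) => C n ∈ a)).2
    fun n => m.fine _
  -- the conditions
  have h3 : ∀ β : K, ∀ᶠ a in (m.U : Filter (Set T)), ∀ u, BL β u → jQ u ∈ a := by
    intro β
    have h4 := (m.c.ev_forall (hI.card_BL_lt (E := E) β) (p := fun a u => jQ u.1 ∈ a)).2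
      fun u => m.fine _
    filter_upwards [h4] with a ha u hu
    exact ha ⟨u, hu⟩
  have h3' := m.all_mem' hK h3
  have h4 : ∀ u : Qt E, ∀ᶠ a in (m.U : Filter (Set T)), ∀ k ∈ supp u, jK k ∈ a := by
    intro u
    have h5 := (m.c.ev_forall_nat hI.unc (p := fun (a : Set T) (n : ℕ) => jK (en u n) ∈ a)).2
      fun n => m.fine _
    filter_upwards [h5] with a ha k hk
    rw [en_spec] at hk
    obtain ⟨n, rfl⟩ := hk
    exact ha n
  have h4' := m.all_mem' hQ h4
  -- guessing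
  have h5 : ∀ᶠ a in (m.U : Filter (Set T)), ∀ e : K → Set (Qt E), ∃ ε, jN ε ∈ a ∧
      ∀ i, jK i ∈ a → ∀ u, jQ u ∈ a → (u ∈ ε i ↔ u ∈ e i) := by
    by_contra hcon
    have hcon' : ∀ᶠ a in (m.U : Filter (Set T)), ∃ e : K → Set (Qt E), ¬ ∃ ε, jN ε ∈ a ∧
        ∀ i, jK i ∈ a → ∀ u, jQ u ∈ a → (u ∈ ε i ↔ u ∈ e i) := by
      have h6 : ∀ᶠ a in (m.U : Filter (Set T)), ¬ ∀ e : K → Set (Qt E), ∃ ε, jN ε ∈ a ∧
          ∀ i, jK i ∈ a → ∀ u, jQ u ∈ a → (u ∈ ε i ↔ u ∈ e i) := by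
        rw [Ultrafilter.eventually_not]; exact hcon
      filter_upwards [h6] with a ha
      exact not_forall.1 ha
    let F : Set T → K → Set (Qt E) := fun a => if h : ∃ e : K → Set (Qt E), ¬ ∃ ε, jN ε ∈ a ∧
        ∀ i, jK i ∈ a → ∀ u, jQ u ∈ a → (u ∈ ε i ↔ u ∈ e i) then h.choose else fun _ => ∅
    have hF : ∀ᶠ a in (m.U : Filter (Set T)), ¬ ∃ ε, jN ε ∈ a ∧
        ∀ i, jK i ∈ a → ∀ u, jQ u ∈ a → (u ∈ ε i ↔ u ∈ F a i) := by
      filter_upwards [hcon'] with a ha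
      simp only [F, dif_pos ha]
      exact ha.choose_spec
    let ε : K → Set (Qt E) := fun i => {u | ∀ᶠ a in (m.U : Filter (Set T)), u ∈ F a i}
    have h6 : ∀ i u, ∀ᶠ a in (m.U : Filter (Set T)), (u ∈ ε i ↔ u ∈ F a i) := by
      intro i u
      by_cases h : u ∈ ε i
      · have h' : ∀ᶠ a in (m.U : Filter (Set T)), u ∈ F a i := h
        filter_upwards [h'] with a ha
        exact ⟨fun _ => ha, fun _ => h⟩
      · have h' : ∀ᶠ a in (m.U : Filter (Set T)), ¬ u ∈ F a i := by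
          rw [Ultrafilter.eventually_not]; exact h
        filter_upwards [h'] with a ha
        exact ⟨fun h1 => absurd h1 h, fun h1 => absurd h1 ha⟩
    have h7 : ∀ i, ∀ᶠ a in (m.U : Filter (Set T)), ∀ u, jQ u ∈ a → (u ∈ ε i ↔ u ∈ F a i) :=
      fun i => m.all_mem' hQ (h6 i)
    have h8 := m.all_mem' hK h7
    obtain ⟨a, ha1, ha2, ha3⟩ := (hF.and (h8.and (m.fine (jN ε)))).exists
    exact ha1 ⟨ε, ha3, ha2⟩
  obtain ⟨a, ⟨μ, a1, a2⟩, a3, a4, a5, a6, a7, a8⟩ :=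
    (h1.and (h2.and (h3'.and (h4'.and (h5.and (m.small.and hC)))))).exists
  have hBL : ∀ u, jQ u ∈ a ↔ BL μ u := by
    intro u
    constructor
    · intro h
      rw [bl_iff]
      intro k hk
      exact (a1 k).1 (a5 u h k hk)
    · intro h
      rw [bl_iff] at h
      obtain ⟨β, hβ, h8⟩ := a2.bd (supp u) (supp_cnt u) h
      exact a4 β ((a1 β).2 hβ) u (bl_iff.2 h8)
  refine ⟨a, a7, a8, μ, a1, a2, hBL, fun e => ?_, a3⟩
  obtain ⟨ε, h8, h9⟩ := a6 e
  exact ⟨ε, h8, fun i hi u hu => h9 i ((a1 i).2 hi) u ((hBL u).2 hu)⟩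

end main

end Pool.Agent.X209.Vi
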