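import Pool.Agent.X209.Vi.Ce

/-!
# A subset of `ω₁` that is approximated but not guessed
-/

set_option autoImplicit false
set_option linter.unreachableTactic false
set_option linter.unusedTactic false
set_option linter.unusedSectionVars false
set_option linter.deprecated false

namespace Pool.Agent.X209.Vi

open Pool.Agent.W868 Pool.Agent.W868.PName Pool.Agent.X209.Gss
open ZFSet (pair)
open Cardinal

variable {K : Type} [LinearOrder K] [WellFoundedLT K] {E : Setup K}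
  {a : Set (TT E)} {μ : K} {π : Pkg (Qt E)}

/-- The name of the subset of `ω₁`. -/
def hε (E : Setup K) (α : K) : K → Set (Qt E) :=
  fun i => {r | i < E.o1 ∧ r.2.f (E.cd {i, α}) = some true}

theorem cd_ge (hμ : E.Ht μ) (i : K) : μ ≤ E.cd {i, μ} := by
  by_contra h
  have h1 := hμ.dn {i, μ} (Set.toFinite _).countable (not_le.1 h) (show μ ∈ ({i, μ} : Set K) by simp)
  exact lt_irrefl _ h1

theorem cd_injOn (hμ : E.Ht μ) : Set.InjOn (fun i => E.cd {i, μ}) (Set.Iio E.o1) := by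
  intro i hi i' _ h
  have h1 := E.inj {i, μ} {i', μ} (Set.toFinite _).countable (Set.toFinite _).countable h
  have h2 : i ∈ ({i', μ} : Set K) := by
    rw [← h1]; simp
  rcases h2 with h2 | h2
  · exact h2
  · rw [h2] at hi
    exact absurd (lt_trans hμ.o1 hi) (lt_irrefl _)

/-- The function with one value. -/
noncomputable def sgl (s : Set K) (hs : s.Countable) (v : Bool) : Ad K := by
  classical
  exact ⟨fun k => if k ∈ s then some v else none, hs.mono fun k hk => by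
    simp only [Set.mem_setOf_eq] at hk
    by_contra h
    rw [if_neg h] at hk
    exact hk rfl⟩

theorem sgl_some {s : Set K} {hs : s.Countable} {v w : Bool} {k : K} :
    (sgl s hs v).f k = some w ↔ k ∈ s ∧ w = v := by
  classical
  unfold sgl
  by_cases h : k ∈ s
  · simp only [h, if_true, Option.some.injEq, true_and]
    exact eq_comm
  · simp [h]

/-- below `ω₁` the set belongs to the submodel -/
theorem Ctx.h_local (c : Ctx a μ π) (hN : nnm (hε E μ) ∈ π.N) {β : ZFSet.{0}}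
    (hβ : β ∈ π.hat (el E.o1)) :
    ∃ s ∈ π.val (Mn a), ∀ i ∈ β, (i ∈ π.val (nnm (hε E μ)) ↔ i ∈ s) := by
  obtain ⟨b, hb, hbN, rfl⟩ := (mem_hat_el π).1 hβ
  let S : Set (PName (Qt E)) := Sn a μ ∪ {ck b, nnm (hε E μ)}
  have s1 : check (el b) ∈ S := Or.inr mem2l
  have s2 : nnm (hε E μ) ∈ S := Or.inr mem2r
  have s3 : Mn a ∈ S := Or.inl (by simp [Sn])
  refine by_dense (S := S) (R := fun π : Pkg (Qt E) => ∃ s ∈ π.val (Mn a), ∀ i ∈ π.hat (el b),
    (i ∈ π.val (nnm (hε E μ)) ↔ i ∈ s)) ?_ ((Sn_cnt a μ).union (Set.toFinite _).countable) ?_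
    (fun q hq => ?_)
  · unfold ND
    (repeat' first
      | assumption
      | exact NDfnF.proj _
      | exact NDfnF.val (by assumption)
      | exact NDfnF.hat (by assumption)
      | apply NDfn.not | apply NDfn.and | apply NDfn.or | apply NDfn.imp | apply NDfn.iff
      | apply NDfn.bex | apply NDfn.ball | apply NDfn.ex | apply NDfn.all
      | apply NDfn.eq | apply NDfn.mem | apply NDfnF.pair)
  · refine Set.union_subset c.sub ?_
    rintro z (rfl | rfl) <;> assumption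
  have hcb : (Set.Iio b).Countable := E.o1_cnt b hb
  have hcc : ((fun i => E.cd {i, μ}) '' Set.Iio b).Countable := hcb.image _
  let q' : Qt E := (q.1, Ad.jn q.2 (sgl _ hcc false))
  have hq' : q' ≤ q := ⟨le_rfl, Ad.jn_le_left _ _⟩
  have hdec : ∀ i < b, ∃ v, q'.2.f (E.cd {i, μ}) = some v := by
    intro i hi
    rcases hv : q.2.f (E.cd {i, μ}) with _ | v
    · exact ⟨false, Ad.jn_some.2 (Or.inr ⟨hv, sgl_some.2 ⟨⟨i, hi, rfl⟩, rfl⟩⟩)⟩
    · exact ⟨v, Ad.jn_some.2 (Or.inl hv)⟩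
  let s : Set K := {i | i < b ∧ q'.2.f (E.cd {i, μ}) = some true}
  have hs : s.Countable := hcb.mono fun i hi => hi.1
  have hbμ : b < μ := hb.trans c.apt.good.ht.o1
  have hk : E.cd s < μ := c.apt.good.ht.up s hs fun i hi => hi.1.trans hbμ
  have hε' : jN E (fun i => {_r : Qt E | i ∈ s}) ∈ a := by
    obtain ⟨y, hy, z, hz, h⟩ := c.apt.cl .cod ![jK E (E.cd s), jK E (E.cd s), jK E (E.cd s)] (by
      intro j
      fin_cases j
      exacts [(c.apt.k _).2 hk, (c.apt.k _).2 hk, (c.apt.k _).2 hk])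
      ⟨_, _, E.cd s, rfl, rfl, rfl⟩
    obtain ⟨k', h1, rfl, rfl⟩ := h
    have e1 : jK E (E.cd s) = jK E k' := congrFun h1 0
    obtain rfl := jK_inj E e1
    rw [dc_cd hs] at hz
    exact hz
  refine ⟨q', hq', {nnm (fun i => {_r : Qt E | i ∈ s})}, Set.countable_singleton _,
    fun π' hS' hA' h0 => ?_⟩
  have c' : Ctx a μ π' := c.change (fun z hz => hS' (Or.inl hz)) (by rw [h0]; exact hq'.trans hq)
  have hN' : nnm (fun i => {_r : Qt E | i ∈ s}) ∈ π'.N := hA' rfl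
  refine ⟨_, c'.nnm_mem hε' hN', fun i hi => ?_⟩
  obtain ⟨k, hkb, hkN, rfl⟩ := (mem_hat_el π').1 hi
  rw [mem_nnm π' hkN, mem_nnm π' hkN]
  constructor
  · rintro ⟨r, ⟨-, hr⟩, m, hm⟩
    obtain ⟨v, hv⟩ := hdec k hkb
    have h1 := hm.2 _ _ hr
    have h2 : π'.g m ≤ q' := h0 ▸ π'.g_anti (Nat.zero_le m)
    have h3 := h2.2 _ _ hv
    rw [h1] at h3
    obtain rfl := Option.some.inj h3
    exact ⟨⊤, ⟨hkb, hv⟩, 0, le_top⟩
  · rintro ⟨r, hr, m, hm⟩
    exact ⟨q', ⟨hkb.trans hb, hr.2⟩, 0, h0.le⟩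

/-- the set is not guessed -/
theorem Ctx.h_not (c : Ctx a μ π) (hN : nnm (hε E μ) ∈ π.N) {e : ZFSet.{0}}
    (he : e ∈ π.val (Mn a))
    (h : ∀ i ∈ π.hat (el E.o1), (i ∈ π.val (nnm (hε E μ)) ↔ i ∈ e)) : False := by
  obtain ⟨τ, hτ, hτN, rfl⟩ := mem_Mn.1 he
  let S : Set (PName (Qt E)) := {HN.nm τ, nnm (hε E μ), ck E.o1}
  have s1 : HN.nm τ ∈ S := by simp [S]
  have s2 : nnm (hε E μ) ∈ S := by simp [S]
  have s3 : check (el E.o1) ∈ S := by
    change ck E.o1 ∈ S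
    simp [S]
  have hSc : S.Countable := (Set.toFinite _).countable
  have hd : ND S fun π : Pkg (Qt E) => ∀ i ∈ π.hat (el E.o1),
      (i ∈ π.val (nnm (hε E μ)) ↔ i ∈ π.val (HN.nm τ)) := by
    unfold ND
    (repeat' first
      | assumption
      | exact NDfnF.proj _
      | exact NDfnF.val (by assumption)
      | exact NDfnF.hat (by assumption)
      | apply NDfn.not | apply NDfn.and | apply NDfn.or | apply NDfn.imp | apply NDfn.iff
      | apply NDfn.bex | apply NDfn.ball | apply NDfn.ex | apply NDfn.all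
      | apply NDfn.eq | apply NDfn.mem | apply NDfnF.pair)
  have hSπ : S ⊆ π.N := by
    rintro z (rfl | rfl | rfl)
    exacts [hτN, hN, c.ho]
  obtain ⟨q, hq, hC⟩ := exists_fc hd hSπ h
  have hμq : μ ∈ q.1.D := c.below hq
  have hμ := c.apt.good.ht
  -- an undecided coordinate
  have h1 : ∃ i < E.o1, q.2.f (E.cd {i, μ}) = none := by
    by_contra hcon
    push Not at hcon
    refine E.o1_unc ?_
    have h2 : ((fun i => E.cd {i, μ}) '' Set.Iio E.o1).Countable := by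
      refine q.2.cnt.mono ?_
      rintro _ ⟨i, hi, rfl⟩
      exact hcon i hi
    exact Set.countable_of_injective_of_countable_image (cd_injOn hμ) h2
  obtain ⟨i, hi, hz⟩ := h1
  have hzμ := cd_ge hμ i
  have hiμ : i < μ := hi.trans hμ.o1
  have hε := c.apt.nice_mem hτ
  -- contradiction from a condition that decides both memberships differently
  have hfin : ∀ r ≤ q, ∀ v : Bool, r.2.f (E.cd {i, μ}) = some v →
      (v = true → NI (nice (HN.nm τ)) i r) → (v = false → ∃ u ∈ nice (HN.nm τ) i, r ≤ u) →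
      False := by
    intro r hr v hv h2 h3
    obtain ⟨π', hA, h0⟩ := exists_pkg' (S ∪ {ck i}) (hSc.union (Set.countable_singleton _)) r
    have hiN : ck i ∈ π'.N := hA (Or.inr rfl)
    have hS' : S ⊆ π'.N := fun z hz => hA (Or.inl hz)
    have h4 := hC π' hS' ⟨0, h0.le.trans hr⟩ (π'.hat (el i))
      ((hat_el_mem π' hiN (hS' s3)).2 hi)
    cases v with
    | true =>
      have h5 : π'.hat (el i) ∈ π'.val (nnm (Vi.hε E μ)) :=
        (mem_nnm π' hiN).2 ⟨r, ⟨hi, hv⟩, 0, h0.le⟩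
      obtain ⟨m, hm⟩ := fc_gen (nd_hatmem (HN.nm τ) i) π'
        (by rintro z (rfl | rfl); exacts [hS' s1, hiN]) (h4.1 h5)
      have h6 := h2 rfl
      exact h6 (π'.g m) (h0 ▸ π'.g_anti (Nat.zero_le m)) (π'.g m) hm le_rfl
    | false =>
      obtain ⟨u, hu, hru⟩ := h3 rfl
      have h5 : π'.hat (el i) ∈ π'.val (HN.nm τ) :=
        hu π' (by rintro z (rfl | rfl); exacts [hS' s1, hiN]) ⟨0, h0.le.trans hru⟩
      obtain ⟨r', ⟨-, hr'⟩, m, hm⟩ := (mem_nnm π' hiN).1 (h4.2 h5)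
      have h6 := hm.2 _ _ hr'
      have h7 : π'.g m ≤ r := h0 ▸ π'.g_anti (Nat.zero_le m)
      have h8 := h7.2 _ _ hv
      rw [h6] at h8
      exact absurd h8 (by simp)
  have hsc : ({E.cd {i, μ}} : Set K).Countable := Set.countable_singleton _
  by_cases hNI : NI (nice (HN.nm τ)) i q
  · let r : Qt E := (q.1, Ad.jn q.2 (sgl _ hsc true))
    have hr : r ≤ q := ⟨le_rfl, Ad.jn_le_left _ _⟩
    exact hfin r hr true (Ad.jn_some.2 (Or.inr ⟨hz, sgl_some.2 ⟨rfl, rfl⟩⟩))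
      (fun _ => hNI.mono hr) (fun h => absurd h (by simp))
  · unfold NI at hNI
    push Not at hNI
    obtain ⟨r, hr, r', hr', hrr'⟩ := hNI
    have hμr : μ ∈ r.1.D := hr.1.1 hμq
    obtain ⟨s, hs1, hs2, -, -⟩ := Qt.exists_fac hμ hμr (Qt.BL_Rs hμ hμr) le_rfl
    have hBL := Qt.BL_Rs hμ hμq
    obtain ⟨y, hy, z, hz', h3⟩ := c.apt.cl .cut
      ![jQ E (Qt.Rs hμ q), jN E (nice (HN.nm τ)), jK E i] (by
        intro j
        fin_cases j
        exacts [(c.apt.q _).2 hBL, hε, (c.apt.k i).2 hiμ])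
      ⟨_, _, _, i, _, s, r', rfl, rfl, rfl, hs2.trans (Qt.Rs_mono hμ hμq hr), hr',
        hs1.trans hrr'⟩
    obtain ⟨ε', i', u₁, u', r'', h4, rfl, rfl, h5, h6, h7⟩ := h3
    have e1 : jQ E (Qt.Rs hμ q) = jQ E u₁ := congrFun h4 0
    have e2 : jN E (nice (HN.nm τ)) = jN E ε' := congrFun h4 1
    have e3 : jK E i = jK E i' := congrFun h4 2
    have e4 := jQ_inj E e1
    obtain rfl := jN_inj E e2
    obtain rfl := jK_inj E e3
    rw [← e4] at h5
    have hu' : Qt.BL μ u' := (c.apt.q _).1 hy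
    obtain ⟨t, ht1, ht2, -, -⟩ := Cnd.exists_factor hμ hμq hu'.1 h5.1
    obtain ⟨h8, -⟩ := Qt.jn_on hu'.2 h5.2
    let b := Ad.jn q.2 u'.2
    have hbz : b.f (E.cd {i, μ}) = none := by
      have h9 : u'.2.f (E.cd {i, μ}) = none := by
        by_contra h10
        exact absurd (hu'.2 _ h10) (not_lt.2 hzμ)
      change (q.2.f (E.cd {i, μ})).or (u'.2.f (E.cd {i, μ})) = none
      rw [hz, h9]
      rfl
    let x : Qt E := (t, Ad.jn b (sgl _ hsc false))
    have hx1 : x ≤ q := ⟨ht1, (Ad.jn_le_left _ _).trans (Ad.jn_le_left _ _)⟩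
    have hx2 : x ≤ u' := ⟨ht2, (Ad.jn_le_left _ _).trans (Ad.jn_le_right h8)⟩
    exact hfin x hx1 false (Ad.jn_some.2 (Or.inr ⟨hbz, sgl_some.2 ⟨rfl, rfl⟩⟩))
      (fun h => absurd h (by simp)) (fun _ => ⟨r'', h6, hx2.trans h7⟩)

/-- The submodel is not guessing for countable approximations. -/
theorem Ctx.not_guess (c : Ctx a μ π) (hN : nnm (hε E μ) ∈ π.N) :
    ∃ x ∈ π.W, x ⊆ π.hat (el E.o1) ∧ (∀ b ∈ π.val (Mn a),
      SmallIn (π.val (Mn a)) (π.hat (el E.o1)) b → x ∩ b ∈ π.val (Mn a)) ∧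
      ¬ ∃ x' ∈ π.val (Mn a), ∀ z ∈ π.val (Mn a), (z ∈ x ↔ z ∈ x') := by
  have hW := π.isZF_W
  have hB := hW.base
  have hBH := c.base
  have hc := c.hc
  have hoW := π.val_mem_W c.ho
  have hxo : π.val (nnm (hε E μ)) ⊆ π.hat (el E.o1) := by
    intro z hz
    obtain ⟨i, hi, rfl⟩ := of_mem_nnm π hz
    obtain ⟨r, hr, -⟩ := (mem_nnm π hi).1 hz
    exact (hat_el_mem π hi c.ho).2 hr.1
  refine ⟨_, π.val_mem_W hN, hxo, ?_, ?_⟩
  · rintro b hb ⟨β, hβM, hβ, f, hf, hfi⟩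
    have hbH := c.sub_H hb
    have hbW := hc.sub_W hbH
    obtain ⟨k, hk, hki⟩ := c.countable hβ
    obtain ⟨f₁, hf₁, hf₁i⟩ := comp_inj hW hbW hW.infinity (hc.sub_W (c.sub_H hβM))
      (hc.sub_W (c.sub_H hf)) hk hfi hki
    -- the ordinals in `b`
    have hd : Dfn π.W π.W fun w : Fin 1 → ZFSet.{0} => w 0 ∈ π.hat (el E.o1) :=
      Dfn.mem (DfnF.proj 0) (DfnF.const hoW)
    have hbo := hW.sep_mem (Q := fun z => z ∈ π.hat (el E.o1)) hd hbW
    obtain ⟨f₂, hf₂, hf₂i⟩ := sub_inj hW hbo hW.infinity hf₁ hf₁i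
      (fun z hz => (ZFSet.mem_sep.1 hz).1)
    obtain ⟨γ, hγ, hγ'⟩ := c.bdd_cnt hbo hf₂ (fun z hz => (ZFSet.mem_sep.1 hz).2) hf₂i
    obtain ⟨s, hs, hs'⟩ := c.h_local hN hγ
    have hγM := c.o1_sub hγ
    have hd2 : Dfn ∅ (Hs K π) fun w : Fin 4 → ZFSet.{0} =>
        (∀ u ∈ w 0, u ∈ w 1 ∧ u ∈ w 2 ∧ u ∈ w 3) ∧
        ∀ u ∈ w 1, (u ∈ w 2 ∧ u ∈ w 3) → u ∈ w 0 := by
      (repeat' first
      | assumption
      | exact DfnF.proj _
      | apply Dfn.not | apply Dfn.and | apply Dfn.or | apply Dfn.imp | apply Dfn.iff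
      | apply hBH.bex | apply hBH.ball
      | apply Dfn.eq | apply Dfn.mem | apply hBH.pair')
    obtain ⟨y, hy, h1, h2⟩ := c.wit (Q := fun y v => (∀ u ∈ y, u ∈ v 0 ∧ u ∈ v 1 ∧ u ∈ v 2) ∧
        ∀ u ∈ v 0, (u ∈ v 1 ∧ u ∈ v 2) → u ∈ y) hd2 (v := ![b, γ, s]) (vec3 hb hγM hs) (by
      have hd3 : Dfn π.W π.W fun w : Fin 1 → ZFSet.{0} => w 0 ∈ γ ∧ w 0 ∈ s := by
        have a1 := hc.sub_W (c.sub_H hγM)
        have a2 := hc.sub_W (c.sub_H hs)
        exact (Dfn.mem (DfnF.proj 0) (DfnF.const a1)).and (Dfn.mem (DfnF.proj 0) (DfnF.const a2))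
      have h3 := hW.sep_mem (Q := fun z => z ∈ γ ∧ z ∈ s) hd3 hbW
      refine ⟨_, hc.subset hbH h3 fun z hz => (ZFSet.mem_sep.1 hz).1, ?_, ?_⟩
      · intro u hu
        exact ZFSet.mem_sep.1 hu
      · intro u hu hu'
        exact ZFSet.mem_sep.2 ⟨hu, hu'⟩)
    have h4 : π.val (nnm (hε E μ)) ∩ b = y := by
      ext z
      rw [ZFSet.mem_inter]
      constructor
      · rintro ⟨h5, h6⟩
        have h7 := hγ' z (ZFSet.mem_sep.2 ⟨h6, hxo h5⟩)
        exact h2 z h6 ⟨h7, (hs' z h7).1 h5⟩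
      · intro h5
        obtain ⟨h6, h7, h8⟩ := h1 z h5
        exact ⟨(hs' z h7).2 h8, h6⟩
    rw [h4]
    exact hy
  · rintro ⟨e, he, h⟩
    exact c.h_not hN he fun i hi => h i (c.o1_sub hi)

end Pool.Agent.X209.Vi
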