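import Mathlib

/-!
# Countable nodes
-/

set_option autoImplicit false

open Set

namespace Pool.Agent.X209.Vi

/-- A well-order with a coding of its countable subsets by elements, and its element `ω₁`. -/
structure Setup (K : Type) [LinearOrder K] [WellFoundedLT K] where
  cd : Set K → K
  inj : ∀ s t : Set K, s.Countable → t.Countable → cd s = cd t → s = t
  b0 : K
  b0_le : ∀ x, b0 ≤ x
  o1 : K
  o1_unc : ¬ (Iio o1).Countable
  o1_cnt : ∀ x < o1, (Iio x).Countable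

variable {K : Type} [LinearOrder K] [WellFoundedLT K] (E : Setup K)

namespace Setup

/-- `x` is the least element that does not belong to `s`. -/
def IsMex (s : Set K) (x : K) : Prop := x ∉ s ∧ Iio x ⊆ s

/-- The heights: the closure points of the coding. -/
structure Ht (γ : K) : Prop where
  o1 : E.o1 < γ
  up : ∀ s : Set K, s.Countable → s ⊆ Iio γ → E.cd s < γ
  dn : ∀ s : Set K, s.Countable → E.cd s < γ → s ⊆ Iio γ

/-- The nodes. -/
structure Nd (N : Set K) : Prop where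
  cnt : N.Countable
  b0 : E.b0 ∈ N
  sub : ∀ s : Set K, s.Countable → E.cd s ∈ N → s ⊆ N
  trim : ∀ s : Set K, s.Countable → E.cd s ∈ N → ∀ y ∈ N, E.cd (s ∩ Iio y) ∈ N
  seg : ∀ x ∈ N, x < E.o1 → Iio x ⊆ N
  mex : ∀ s : Set K, s.Countable → E.cd s ∈ N → ∀ x, IsMex s x → x ∈ N

variable {E}

theorem IsMex.lt_o1 {s : Set K} {x : K} (hs : s.Countable) (h : IsMex s x) : x < E.o1 := by
  by_contra h1
  push Not at h1
  exact E.o1_unc ((hs.mono h.2).mono (Iio_subset_Iio h1))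

theorem Nd.inter {N : Set K} (hN : E.Nd N) {γ : K} (hγ : E.Ht γ) : E.Nd (N ∩ Iio γ) where
  cnt := hN.cnt.mono inter_subset_left
  b0 := ⟨hN.b0, (E.b0_le _).trans_lt hγ.o1⟩
  sub s hs h := subset_inter (hN.sub s hs h.1) (hγ.dn s hs h.2)
  trim s hs h y hy := ⟨hN.trim s hs h.1 y hy.1, hγ.up _ (hs.mono inter_subset_left)
    (inter_subset_left.trans (hγ.dn s hs h.2))⟩
  seg x hx h1 := by
    intro y hy
    exact ⟨hN.seg x hx.1 h1 hy, lt_trans (mem_Iio.1 hy) hx.2⟩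
  mex s hs h x hx := ⟨hN.mex s hs h.1 x hx, (hx.lt_o1 hs).trans hγ.o1⟩

/-- Projections preserve the relation between the nodes. -/
theorem Nd.cd_inter {N N' : Set K} (hN : E.Nd N) (hN' : E.Nd N') (h : E.cd N ∈ N') {γ : K}
    (hγ : E.Ht γ) : E.cd (N ∩ Iio γ) ∈ N' ∩ Iio γ := by
  have hsub : N ⊆ N' := hN'.sub N hN.cnt h
  refine ⟨?_, hγ.up _ (hN.cnt.mono inter_subset_left) inter_subset_right⟩
  by_cases h1 : ∃ y ∈ N', γ ≤ y
  · have h2 : ({y | y ∈ N' ∧ γ ≤ y} : Set K).Nonempty := h1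
    obtain ⟨y, ⟨hy1, hy2⟩, hmin⟩ := WellFounded.has_min (wellFounded_lt (α := K)) _ h2
    have h3 : N ∩ Iio γ = N ∩ Iio y := by
      ext x
      constructor
      · rintro ⟨hx1, hx2⟩
        exact ⟨hx1, lt_of_lt_of_le hx2 hy2⟩
      · rintro ⟨hx1, hx2⟩
        refine ⟨hx1, ?_⟩
        by_contra hx3
        exact hmin x ⟨hsub hx1, not_lt.1 hx3⟩ hx2
    rw [h3]
    exact hN'.trim N hN.cnt h y hy1
  · push Not at h1
    have h3 : N ∩ Iio γ = N := inter_eq_left.2 fun x hx => h1 x (hsub hx)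
    rw [h3]
    exact h

/-- Comparability of two nodes. -/
def Cp (E : Setup K) (N N' : Set K) : Prop := N = N' ∨ E.cd N ∈ N' ∨ E.cd N' ∈ N

theorem Cp.symm {N N' : Set K} (h : Cp E N N') : Cp E N' N := by
  rcases h with h | h | h
  · exact Or.inl h.symm
  · exact Or.inr (Or.inr h)
  · exact Or.inr (Or.inl h)

theorem Cp.inter {N N' : Set K} (h : Cp E N N') (hN : E.Nd N) (hN' : E.Nd N') {γ : K}
    (hγ : E.Ht γ) : Cp E (N ∩ Iio γ) (N' ∩ Iio γ) := by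
  rcases h with h | h | h
  · exact Or.inl (by rw [h])
  · exact Or.inr (Or.inl (hN.cd_inter hN' h hγ))
  · exact Or.inr (Or.inr (hN'.cd_inter hN h hγ))

/-- The part of the order between `δ` and the next element of `D`. -/
def cut (D : Set K) (δ : K) : Set K := {x | ∀ δ' ∈ D, δ' ≤ x → δ' ≤ δ}

theorem cut_cases {D : Set K} (hD : D.Finite) (δ : K) :
    cut D δ = univ ∨ ∃ ρ ∈ D, δ < ρ ∧ cut D δ = Iio ρ := by
  by_cases h : ∃ ρ ∈ D, δ < ρ
  · right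
    obtain ⟨ρ, ⟨h1, h2⟩, hmin⟩ := WellFounded.has_min (wellFounded_lt (α := K))
      {ρ | ρ ∈ D ∧ δ < ρ} h
    refine ⟨ρ, h1, h2, ?_⟩
    ext x
    constructor
    · intro hx
      by_contra h3
      exact absurd (hx ρ h1 (not_lt.1 h3)) (not_le.2 h2)
    · intro hx δ' h4 h5
      by_contra h6
      exact hmin δ' ⟨h4, not_le.1 h6⟩ (lt_of_le_of_lt h5 hx)
  · left
    push Not at h
    exact eq_univ_of_forall fun x δ' h1 _ => h δ' h1

theorem cut_anti {D D' : Set K} (h : D ⊆ D') {δ δ' : K} (h1 : δ' ∈ cut D δ) :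
    cut D' δ' ⊆ cut D δ := by
  intro x hx η hη hηx
  exact h1 η hη (hx η (h hη) hηx)

end Setup

open Setup

/-- The conditions: finite sets `D` of heights and `M` of nodes. -/
@[ext] structure Cnd (E : Setup K) where
  D : Set K
  M : Set (Set K)
  finD : D.Finite
  finM : M.Finite
  bot : E.b0 ∈ D
  ht : ∀ δ ∈ D, δ ≠ E.b0 → E.Ht δ
  nd : ∀ N ∈ M, E.Nd N
  pr : ∀ N ∈ M, ∀ x ∈ N, ∃ δ ∈ D, δ ∈ N ∧ δ ≤ x ∧ x ∈ cut D δ
  cp : ∀ N ∈ M, ∀ N' ∈ M, ∀ δ ∈ D, δ ∈ N → δ ∈ N' → Cp E (N ∩ cut D δ) (N' ∩ cut D δ)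

namespace Cnd

variable {E}

instance : PartialOrder (Cnd E) where
  le q p := p.D ⊆ q.D ∧ p.M ⊆ q.M
  le_refl p := ⟨subset_rfl, subset_rfl⟩
  le_trans p q r h1 h2 := ⟨h2.1.trans h1.1, h2.2.trans h1.2⟩
  le_antisymm p q h1 h2 := Cnd.ext (subset_antisymm h2.1 h1.1) (subset_antisymm h2.2 h1.2)

theorem le_def {p q : Cnd E} : q ≤ p ↔ p.D ⊆ q.D ∧ p.M ⊆ q.M := Iff.rfl

instance : OrderTop (Cnd E) where
  top := ⟨{E.b0}, ∅, finite_singleton _, finite_empty, rfl, fun δ h1 h2 => absurd h1 h2,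
    fun N h => h.elim, fun N h => h.elim, fun N h => h.elim⟩
  le_top p := ⟨singleton_subset_iff.2 p.bot, empty_subset _⟩

/-- the trace of a node on an interval is a node -/
theorem nd_cut {D : Set K} (hD : D.Finite) (ht : ∀ δ ∈ D, δ ≠ E.b0 → E.Ht δ) {N : Set K}
    (hN : E.Nd N) (δ : K) : E.Nd (N ∩ cut D δ) := by
  rcases cut_cases hD δ with h | ⟨ρ, h1, h2, h3⟩
  · rw [h, inter_univ]; exact hN
  · rw [h3]
    exact hN.inter (ht ρ h1 ((E.b0_le δ).trans_lt h2).ne')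

theorem cd_cut {D : Set K} (hD : D.Finite) (ht : ∀ δ ∈ D, δ ≠ E.b0 → E.Ht δ) {N N' : Set K}
    (hN : E.Nd N) (hN' : E.Nd N') (h : E.cd N ∈ N') (δ : K) :
    E.cd (N ∩ cut D δ) ∈ N' ∩ cut D δ := by
  rcases cut_cases hD δ with h1 | ⟨ρ, h1, h2, h3⟩
  · rw [h1, inter_univ, inter_univ]; exact h
  · rw [h3]
    exact hN.cd_inter hN' h (ht ρ h1 ((E.b0_le δ).trans_lt h2).ne')

theorem cp_cut {D : Set K} (hD : D.Finite) (ht : ∀ δ ∈ D, δ ≠ E.b0 → E.Ht δ) {N N' : Set K}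
    (hN : E.Nd N) (hN' : E.Nd N') (h : Cp E N N') (δ : K) :
    Cp E (N ∩ cut D δ) (N' ∩ cut D δ) := by
  rcases cut_cases hD δ with h1 | ⟨ρ, h1, h2, h3⟩
  · rw [h1, inter_univ, inter_univ]; exact h
  · rw [h3]
    exact h.inter hN hN' (ht ρ h1 ((E.b0_le δ).trans_lt h2).ne')

/-- comparability passes to smaller intervals -/
theorem cp_anti {D D' : Set K} (hD : D.Finite) (hD' : D'.Finite)
    (ht : ∀ δ ∈ D, δ ≠ E.b0 → E.Ht δ) (ht' : ∀ δ ∈ D', δ ≠ E.b0 → E.Ht δ) (hDD : D ⊆ D')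
    {N N' : Set K} (hN : E.Nd N) (hN' : E.Nd N') {δ η : K} (hη : η ∈ cut D δ)
    (h : Cp E (N ∩ cut D δ) (N' ∩ cut D δ)) :
    Cp E (N ∩ cut D' η) (N' ∩ cut D' η) := by
  have h1 := cp_cut hD' ht' (nd_cut hD ht hN δ) (nd_cut hD ht hN' δ) h η
  rwa [inter_assoc, inter_assoc, inter_eq_self_of_subset_right (cut_anti hDD hη)] at h1

end Cnd

end Pool.Agent.X209.Vi
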