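import Pool.Agent.X209.Vi.Amal

/-!
# Countable partial functions, and the product
-/

set_option autoImplicit false
set_option linter.unusedSectionVars false

open Set

namespace Pool.Agent.X209.Vi

open Setup

/-- The countable functions from a subset of `K` to `Bool`. -/
@[ext] structure Ad (K : Type) where
  f : K → Option Bool
  cnt : {k | f k ≠ none}.Countable

namespace Ad

variable {K : Type}

instance : PartialOrder (Ad K) where
  le c b := ∀ k v, b.f k = some v → c.f k = some v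
  le_refl b := fun _ _ h => h
  le_trans a b c h1 h2 := fun k v h => h1 k v (h2 k v h)
  le_antisymm a b h1 h2 := by
    ext k v
    constructor
    · exact h2 k v
    · exact h1 k v

theorem le_def {b c : Ad K} : c ≤ b ↔ ∀ k v, b.f k = some v → c.f k = some v := Iff.rfl

instance : OrderTop (Ad K) where
  top := ⟨fun _ => none, by simp⟩
  le_top b := fun k v h => by simp at h

theorem exists_lower (b : ℕ → Ad K) (hb : ∀ n, b (n + 1) ≤ b n) : ∃ c : Ad K, ∀ n, c ≤ b n := by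
  classical
  have hb' : Antitone b := antitone_nat_of_succ_le hb
  refine ⟨⟨fun k => if h : ∃ n, (b n).f k ≠ none then (b h.choose).f k else none, ?_⟩, ?_⟩
  · refine (countable_iUnion fun n => (b n).cnt).mono ?_
    intro k hk
    simp only [mem_setOf_eq] at hk
    by_cases h : ∃ n, (b n).f k ≠ none
    · obtain ⟨n, hn⟩ := h
      exact mem_iUnion.2 ⟨n, hn⟩
    · rw [dif_neg h] at hk
      exact absurd rfl hk
  · intro n k v hv
    have h : ∃ n, (b n).f k ≠ none := ⟨n, by rw [hv]; simp⟩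
    simp only [dif_pos h]
    obtain ⟨w, hw⟩ := Option.ne_none_iff_exists'.1 h.choose_spec
    have h1 := hb' (le_max_left n h.choose) k v hv
    have h2 := hb' (le_max_right n h.choose) k w hw
    rw [h1] at h2
    rw [hw, h2]

/-- The restriction to `Y`. -/
noncomputable def on (Y : Set K) (b : Ad K) : Ad K :=
  ⟨fun k => by classical exact if k ∈ Y then b.f k else none, b.cnt.mono fun k hk => by
    simp only [mem_setOf_eq] at hk ⊢
    split_ifs at hk with h
    · exact hk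
    · exact absurd rfl hk⟩

theorem on_f_of {Y : Set K} {b : Ad K} {k : K} (h : k ∈ Y) : (b.on Y).f k = b.f k := by
  classical
  unfold on
  simp [h]

theorem on_f_not {Y : Set K} {b : Ad K} {k : K} (h : k ∉ Y) : (b.on Y).f k = none := by
  classical
  unfold on
  simp [h]

theorem on_some {Y : Set K} {b : Ad K} {k : K} {v : Bool} : (b.on Y).f k = some v ↔
    k ∈ Y ∧ b.f k = some v := by
  by_cases h : k ∈ Y
  · rw [on_f_of h]; simp [h]
  · rw [on_f_not h]; simp [h]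

theorem le_on (Y : Set K) (b : Ad K) : b ≤ b.on Y := fun _ _ h => (on_some.1 h).2

theorem on_mono {Y : Set K} {b c : Ad K} (h : c ≤ b) : c.on Y ≤ b.on Y := fun k v h1 =>
  on_some.2 ⟨(on_some.1 h1).1, h k v (on_some.1 h1).2⟩

/-- The union of two functions. -/
def jn (b c : Ad K) : Ad K :=
  ⟨fun k => (b.f k).or (c.f k), (b.cnt.union c.cnt).mono fun k hk => by
    simp only [mem_setOf_eq, ne_eq, Option.or_eq_none_iff, not_and] at hk
    by_cases h : b.f k = none
    · exact Or.inr (hk h)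
    · exact Or.inl h⟩

theorem jn_le_left (b c : Ad K) : jn b c ≤ b := by
  intro k v h
  simp [jn, h]

theorem jn_le_right {b c : Ad K} (h : ∀ k v w, b.f k = some v → c.f k = some w → v = w) :
    jn b c ≤ c := by
  intro k v hv
  rcases hb : b.f k with _ | w
  · simp [jn, hb, hv]
  · simp [jn, hb, h k w v hb hv]

theorem jn_some {b c : Ad K} {k : K} {v : Bool} : (jn b c).f k = some v ↔
    b.f k = some v ∨ b.f k = none ∧ c.f k = some v := by
  rcases hb : b.f k with _ | w <;> simp [jn, hb]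

theorem le_jn {a b c : Ad K} (h1 : a ≤ b) (h2 : a ≤ c) : a ≤ jn b c := by
  intro k v h
  rcases jn_some.1 h with h | ⟨-, h⟩
  · exact h1 k v h
  · exact h2 k v h

end Ad

variable {K : Type} [LinearOrder K] [WellFoundedLT K] {E : Setup K}

/-- The forcing. -/
abbrev Qt (E : Setup K) : Type := Cnd E × Ad K

namespace Qt

open Cnd

/-- The condition lives below `μ`. -/
def BL (μ : K) (u : Qt E) : Prop := Bl μ u.1 ∧ ∀ k, u.2.f k ≠ none → k < μ

/-- The restriction of a condition. -/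
noncomputable def Rs {μ : K} (hμ : E.Ht μ) (q : Qt E) : Qt E := (rs hμ q.1, q.2.on (Iio μ))

variable {μ : K} (hμ : E.Ht μ)

theorem BL_Rs {q : Qt E} (h : μ ∈ q.1.D) : BL μ (Rs hμ q) := by
  refine ⟨bl_rs hμ h, fun k hk => ?_⟩
  by_contra h1
  exact hk (Ad.on_f_not h1)

theorem Rs_mono {q s : Qt E} (h : μ ∈ q.1.D) (hs : s ≤ q) : Rs hμ s ≤ Rs hμ q :=
  ⟨rs_mono hμ h hs.1, Ad.on_mono hs.2⟩

theorem Rs_le {u s : Qt E} (h : μ ∈ s.1.D) (hu : BL μ u) (hs : s ≤ u) : Rs hμ s ≤ u := by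
  refine ⟨rs_le hμ h hu.1 hs.1, fun k v hv => Ad.on_some.2 ⟨hu.2 k (by rw [hv]; simp), hs.2 k v hv⟩⟩

theorem jn_on {b c : Ad K} (hc : ∀ k, c.f k ≠ none → k < μ) (h : c ≤ b.on (Iio μ)) :
    (∀ k v w, b.f k = some v → c.f k = some w → v = w) ∧ (Ad.jn b c).on (Iio μ) = c := by
  have h1 : ∀ k v w, b.f k = some v → c.f k = some w → v = w := by
    intro k v w h1 h2
    have h3 : k < μ := hc k (by rw [h2]; simp)
    have h4 := h k v (Ad.on_some.2 ⟨h3, h1⟩)
    rw [h2] at h4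
    exact (Option.some.inj h4).symm
  refine ⟨h1, le_antisymm ?_ ?_⟩
  · intro k v hv
    exact Ad.on_some.2 ⟨hc k (by rw [hv]; simp), Ad.jn_le_right h1 k v hv⟩
  · intro k v hv
    obtain ⟨h2, h3⟩ := Ad.on_some.1 hv
    rcases Ad.jn_some.1 h3 with h4 | ⟨-, h4⟩
    · exact h k v (Ad.on_some.2 ⟨h2, h4⟩)
    · exact h4

theorem exists_fac {q u : Qt E} (h : μ ∈ q.1.D) (hu : BL μ u) (hs : u ≤ Rs hμ q) :
    ∃ s : Qt E, s ≤ q ∧ s ≤ u ∧ Rs hμ s = u ∧ ∀ t : Qt E, t ≤ q → t ≤ u → t ≤ s := by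
  obtain ⟨s, h1, h2, h3, h4⟩ := exists_factor hμ h hu.1 hs.1
  obtain ⟨h5, h6⟩ := jn_on hu.2 hs.2
  exact ⟨(s, Ad.jn q.2 u.2), ⟨h1, Ad.jn_le_left _ _⟩, ⟨h2, Ad.jn_le_right h5⟩, Prod.ext h3 h6,
    fun t h7 h8 => ⟨h4 t.1 h7.1 h8.1, Ad.le_jn h7.2 h8.2⟩⟩

end Qt

/-! ### Names of subsets of `K` -/

section dec

variable {Q : Type} [Preorder Q]

/-- `q` forces that `α` belongs to `x`. -/
def FI (x : K → Set Q) (α : K) (q : Q) : Prop := ∀ q' ≤ q, ∃ q'' ≤ q', ∃ r ∈ x α, q'' ≤ r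

/-- `q` forces that `α` does not belong to `x`. -/
def NI (x : K → Set Q) (α : K) (q : Q) : Prop := ∀ q' ≤ q, ∀ r ∈ x α, ¬ q' ≤ r

/-- `q` forces that `x` and `e` agree below `β`. -/
def Eqv (x e : K → Set Q) (q : Q) (β : K) : Prop := ∀ α < β, ∀ r ≤ q, FI x α r ↔ FI e α r

variable {x e : K → Set Q} {α β : K} {p q : Q}

theorem FI.mono (h : FI x α p) (hq : q ≤ p) : FI x α q := fun q' hq' => h q' (hq'.trans hq)

theorem NI.mono (h : NI x α p) (hq : q ≤ p) : NI x α q := fun q' hq' => h q' (hq'.trans hq)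

theorem Eqv.mono (h : Eqv x e p β) (hq : q ≤ p) : Eqv x e q β :=
  fun α hα r hr => h α hα r (hr.trans hq)

theorem ni_iff : NI x α q ↔ ∀ q' ≤ q, ¬ FI x α q' := by
  constructor
  · intro h q' hq' h1
    obtain ⟨q'', h2, r, hr, h3⟩ := h1 q' le_rfl
    exact h q'' (h2.trans hq') r hr h3
  · intro h q' hq' r hr h1
    exact h q' hq' fun q'' h2 => ⟨q'', le_rfl, r, hr, h2.trans h1⟩

theorem fi_of_not_ni (h : ∀ q' ≤ q, ¬ NI x α q') : FI x α q := by
  intro q' hq'
  have h1 := h q' hq'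
  unfold NI at h1
  push Not at h1
  obtain ⟨q'', h2, r, hr, h3⟩ := h1
  exact ⟨q'', h2, r, hr, h3⟩

theorem Eqv.ni (h : Eqv x e q β) (hα : α < β) (h1 : NI x α q) : NI e α q := by
  rw [ni_iff] at h1 ⊢
  exact fun q' hq' h2 => h1 q' hq' ((h α hα q' hq').2 h2)

theorem Eqv.symm (h : Eqv x e q β) : Eqv e x q β := fun α hα r hr => (h α hα r hr).symm

theorem fi_of_le {r : Q} (hr : r ∈ x α) (h : q ≤ r) : FI x α q :=
  fun q' hq' => ⟨q', le_rfl, r, hr, hq'.trans h⟩

end dec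

end Pool.Agent.X209.Vi
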