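import Pool.Agent.X209.Vi.Wf

/-!
# Elementarity
-/

set_option autoImplicit false
set_option linter.unreachableTactic false
set_option linter.unusedTactic false
set_option linter.unusedSectionVars false
set_option linter.deprecated false

namespace Pool.Agent.X209.Vi

open Pool.Agent.W868 Pool.Agent.W868.PName Pool.Agent.X209.Gss
open ZFSet (pair)
open Cardinal

variable {K : Type} [LinearOrder K] [WellFoundedLT K] {E : Setup K}
  {a : Set (TT E)} {μ : K} {π : Pkg (Qt E)}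

theorem nd_satN {n : ℕ} (φ : Fml Empty (n + 1)) (τ : Fin n → HN K (Qt E)) (σ : HN K (Qt E)) :
    ND (SatS τ σ) (SatN φ τ σ) := by
  have h := nd_satH (K := K) (P := Qt E) (S := SatS τ σ) (Or.inl (by simp)) φ (m := 0)
    (Fin.cases (Sum.inr (HN.nm σ)) fun i => Sum.inr (HN.nm (τ i))) (by
      intro k b hb
      revert hb
      refine Fin.cases ?_ (fun i => ?_) k
      · intro hb
        simp only [Fin.cases_zero, Sum.inr.injEq] at hb
        rw [← hb]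
        exact Or.inl (by simp)
      · intro hb
        simp only [Fin.cases_succ, Sum.inr.injEq] at hb
        rw [← hb]
        exact Or.inr ⟨i, rfl⟩)
  refine h.congr fun π _ v _ => ?_
  have h1 : (fun k : Fin (n + 1) => Sum.elim v π.val
      ((Fin.cases (Sum.inr (HN.nm σ)) fun i => Sum.inr (HN.nm (τ i)) :
        Fin (n + 1) → Fin 0 ⊕ PName (Qt E)) k)) =
      Fin.cons (π.val (HN.nm σ)) fun i => π.val (HN.nm (τ i)) := by
    funext k
    refine Fin.cases ?_ (fun i => ?_) k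
    · rfl
    · rfl
  rw [h1]
  rfl

/-- The Tarski-Vaught criterion. -/
theorem Ctx.tv (c : Ctx a μ π) {n : ℕ} (φ : Fml Empty (n + 1)) {v : Fin n → ZFSet.{0}}
    (hv : ∀ i, v i ∈ π.val (Mn a))
    (h : ∃ y ∈ Hs K π, Sat (Hs K π) Empty.elim φ (Fin.cons y v)) :
    ∃ y ∈ π.val (Mn a), Sat (Hs K π) Empty.elim φ (Fin.cons y v) := by
  have h0 : ∀ i, ∃ τ, jH E τ ∈ a ∧ HN.nm τ ∈ π.N ∧ π.val (HN.nm τ) = v i := fun i =>
    mem_Mn.1 (hv i)
  choose τ hτa hτN hτv using h0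
  have hv' : v = fun i => π.val (HN.nm (τ i)) := funext fun i => (hτv i).symm
  rw [hv'] at h ⊢
  let S : Set (PName (Qt E)) := Set.range fun i => HN.nm (τ i)
  have hSc : S.Countable := Set.countable_range _
  have hSπ : ∀ {π' : Pkg (Qt E)}, (∀ i, HN.nm (τ i) ∈ π'.N) → S ⊆ π'.N := by
    rintro π' h1 _ ⟨i, rfl⟩
    exact h1 i
  have sH : HH K (Qt E) ∈ (Sn a μ ∪ S) := Or.inl (by simp [Sn])
  have sM : Mn a ∈ (Sn a μ ∪ S) := Or.inl (by simp [Sn])
  -- definability of the statement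
  have hdφ : ∀ x ∈ (Sn a μ ∪ S), ND (Sn a μ ∪ S) fun π : Pkg (Qt E) => ∃ y ∈ π.val x,
      Sat (Hs K π) Empty.elim φ (Fin.cons y fun i => π.val (HN.nm (τ i))) := by
    intro x hx
    refine NDfn.bex (F := fun π _ => π.val x) (Q := fun π y _ => Sat (Hs K π) Empty.elim φ
      (Fin.cons y fun i => π.val (HN.nm (τ i)))) (NDfnF.val hx) ?_
    have h1 := nd_satH (K := K) (P := Qt E) (S := Sn a μ ∪ S) sH φ (m := 1)
      (Fin.cases (Sum.inl 0) fun i => Sum.inr (HN.nm (τ i))) (by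
        intro k b hb
        revert hb
        refine Fin.cases ?_ (fun i => ?_) k
        · intro hb
          simp at hb
        · intro hb
          simp only [Fin.cases_succ, Sum.inr.injEq] at hb
          rw [← hb]
          exact Or.inr ⟨i, rfl⟩)
    refine h1.congr fun π _ w _ => ?_
    have h2 : (fun k : Fin (n + 1) => Sum.elim w π.val
        ((Fin.cases (Sum.inl 0) fun i => Sum.inr (HN.nm (τ i)) :
          Fin (n + 1) → Fin 1 ⊕ PName (Qt E)) k)) =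
        Fin.cons (w 0) fun i => π.val (HN.nm (τ i)) := by
      funext k
      refine Fin.cases ?_ (fun i => ?_) k
      · rfl
      · rfl
    rw [h2]
  have hd := (hdφ _ sH).not.or (hdφ _ sM)
  have key := c.get (S := S) hSc (hSπ hτN)
    (R := fun π => ¬ (∃ y ∈ π.val (HH K (Qt E)), Sat (Hs K π) Empty.elim φ
        (Fin.cons y fun i => π.val (HN.nm (τ i)))) ∨
      ∃ y ∈ π.val (Mn a), Sat (Hs K π) Empty.elim φ (Fin.cons y fun i => π.val (HN.nm (τ i)))) hd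
    (jH E) (fun σ => SatS τ σ) (fun σ => by
      unfold SatS
      exact (Set.toFinite _).countable.union (Set.countable_range _))
    (fun σ => SatN φ τ σ) ?_ ?_ ?_
  · rcases key with key | key
    · exact absurd h key
    · exact key
  · intro u hu ⟨u', hu', σ, hσ⟩
    obtain ⟨y, hy, z, hz, h3⟩ := c.apt.cl (.fm n φ) (Fin.cons (jQ E u) (fun i => jH E (τ i))) (by
      intro j
      refine Fin.cases ?_ (fun i => ?_) j
      · exact (c.apt.q u).2 hu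
      · exact hτa i)
      ⟨_, _, τ, u, u', σ, rfl, rfl, rfl, hu', hσ⟩
    obtain ⟨τ', u₁, u₁', σ', h4, rfl, rfl, h5, h6⟩ := h3
    have e1 : jQ E u = jQ E u₁ := congrFun h4 0
    have e2 : τ = τ' := by
      funext i
      exact jH_inj E (congrFun h4 i.succ)
    obtain rfl := jQ_inj E e1
    subst e2
    exact ⟨u₁', h5, (c.apt.q _).1 hy, σ', hz, h6⟩
  · intro π' c' hS' h3
    have h4 : ∃ y ∈ π'.val (HH K (Qt E)), Sat (Hs K π') Empty.elim φ
        (Fin.cons y fun i => π'.val (HN.nm (τ i))) := by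
      by_contra h5
      exact h3 (Or.inl h5)
    obtain ⟨y, hy, h5⟩ := h4
    obtain ⟨σ, hσ, rfl⟩ := (mem_HH π').1 hy
    refine ⟨σ, exists_fc (nd_satN φ τ σ) ?_ h5⟩
    rintro x ((rfl | rfl) | ⟨i, rfl⟩)
    exacts [c'.hH, hσ, hS' ⟨i, rfl⟩]
  · intro π' c' hS' σ hσ hX h3
    exact Or.inr ⟨π'.val (HN.nm σ), mem_Mn.2 ⟨σ, hσ, hX (Or.inl (by simp)), rfl⟩, h3⟩

theorem Ctx.cons_mem {M : ZFSet.{0}} {n : ℕ} {v : Fin n → ZFSet.{0}} {x : ZFSet.{0}} (hx : x ∈ M)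
    (hv : ∀ i, v i ∈ M) : ∀ i, (Fin.cons x v : Fin (n + 1) → ZFSet.{0}) i ∈ M := by
  intro i
  refine Fin.cases ?_ (fun i => ?_) i
  · exact hx
  · exact hv i

/-- The submodel is elementary in `H`. -/
theorem Ctx.elem (c : Ctx a μ π) : {n : ℕ} → (φ : Fml Empty n) → (v : Fin n → ZFSet.{0}) →
    (∀ i, v i ∈ π.val (Mn a)) →
    (Sat {x | x ∈ π.val (Mn a)} Empty.elim φ v ↔ Sat (Hs K π) Empty.elim φ v)
  | _, .mem s t, v, hv => Iff.rfl
  | _, .eq s t, v, hv => Iff.rfl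
  | _, .neg φ, v, hv => not_congr (c.elem φ v hv)
  | _, .and φ ψ, v, hv => and_congr (c.elem φ v hv) (c.elem ψ v hv)
  | _, .ex φ, v, hv => by
    simp only [Sat]
    constructor
    · rintro ⟨x, hx, h⟩
      exact ⟨x, c.sub_H hx, (c.elem φ _ (Ctx.cons_mem hx hv)).1 h⟩
    · intro h
      obtain ⟨y, hy, h1⟩ := c.tv φ hv h
      exact ⟨y, hy, (c.elem φ _ (Ctx.cons_mem hy hv)).2 h1⟩

/-- Formulas without parameters. -/
theorem exists_fml_empty {M : Set ZFSet.{0}} : {n : ℕ} → (φ : Fml ZFSet.{0} n) → φ.Over ∅ →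
    ∃ ψ : Fml Empty n, ∀ v, Sat M Empty.elim ψ v ↔ Sat M id φ v
  | n, .mem (Sum.inl i) (Sum.inl j), h => ⟨.mem (Sum.inl i) (Sum.inl j), fun _ => Iff.rfl⟩
  | n, .eq (Sum.inl i) (Sum.inl j), h => ⟨.eq (Sum.inl i) (Sum.inl j), fun _ => Iff.rfl⟩
  | n, .mem (Sum.inr b) _, h => (h.1 b rfl).elim
  | n, .mem _ (Sum.inr b), h => (h.2 b rfl).elim
  | n, .eq (Sum.inr b) _, h => (h.1 b rfl).elim
  | n, .eq _ (Sum.inr b), h => (h.2 b rfl).elim
  | n, .neg φ, h => by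
    obtain ⟨ψ, hψ⟩ := exists_fml_empty φ h
    exact ⟨.neg ψ, fun v => not_congr (hψ v)⟩
  | n, .and φ φ', h => by
    obtain ⟨ψ, hψ⟩ := exists_fml_empty φ h.1
    obtain ⟨ψ', hψ'⟩ := exists_fml_empty φ' h.2
    exact ⟨.and ψ ψ', fun v => and_congr (hψ v) (hψ' v)⟩
  | n, .ex φ, h => by
    obtain ⟨ψ, hψ⟩ := exists_fml_empty φ h
    refine ⟨.ex ψ, fun v => ?_⟩
    simp only [Sat]
    exact ⟨fun ⟨x, hx, h1⟩ => ⟨x, hx, (hψ _).1 h1⟩, fun ⟨x, hx, h1⟩ => ⟨x, hx, (hψ _).2 h1⟩⟩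

/-- Witnesses of definable relations can be found in the submodel. -/
theorem Ctx.wit (c : Ctx a μ π) {n : ℕ} {Q : ZFSet.{0} → (Fin n → ZFSet.{0}) → Prop}
    (hd : Dfn ∅ (Hs K π) fun w : Fin (n + 1) → ZFSet.{0} => Q (w 0) (Fin.tail w))
    {v : Fin n → ZFSet.{0}} (hv : ∀ i, v i ∈ π.val (Mn a)) (h : ∃ y ∈ Hs K π, Q y v) :
    ∃ y ∈ π.val (Mn a), Q y v := by
  obtain ⟨φ, h1, h2⟩ := hd
  obtain ⟨ψ, hψ⟩ := exists_fml_empty (M := Hs K π) φ h1
  have hvH : ∀ i, v i ∈ Hs K π := fun i => c.sub_H (hv i)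
  have key : ∀ y ∈ Hs K π, (Sat (Hs K π) Empty.elim ψ (Fin.cons y v) ↔ Q y v) := by
    intro y hy
    rw [hψ, h2 _ (Pkg.cons_mem hy hvH)]
    rfl
  obtain ⟨y, hy, h3⟩ := h
  obtain ⟨z, hz, h4⟩ := c.tv ψ hv ⟨y, hy, (key y hy).2 h3⟩
  exact ⟨z, hz, (key z (c.sub_H hz)).1 h4⟩

end Pool.Agent.X209.Vi
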