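import Pool.Agent.X209.Vi.Hf

/-!
# The submodel
-/

set_option autoImplicit false
set_option linter.unreachableTactic false
set_option linter.unusedTactic false
set_option linter.unusedSectionVars false
set_option linter.deprecated false

namespace Pool.Agent.X209.Vi

open Pool.Agent.W868 Pool.Agent.W868.PName Pool.Agent.X209.Gss
open ZFSet (pair)
open Cardinal

section gen

variable {K : Type} [LinearOrder K] [WellFoundedLT K] {P : Type} [Preorder P] [OrderTop P]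

theorem by_dense {S : Set (PName P)} {R : Pkg P → Prop} (hd : ND S R) (hS : S.Countable)
    {π : Pkg P} (hSπ : S ⊆ π.N) (h : ∀ q ≤ π.g 0, ∃ r ≤ q, ∃ A : Set (PName P), A.Countable ∧
      ∀ π' : Pkg P, S ⊆ π'.N → A ⊆ π'.N → π'.g 0 = r → R π') : R π :=
  fc_of_dense hd hS h π hSπ ⟨0, le_rfl⟩

/-- Parameters that are not mentioned can be dropped. -/
theorem fc_drop {S A : Set (PName P)} {R : Pkg P → Prop} {p : P} (h : Fc A R p) (hd : ND S R)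
    (hS : S.Countable) (hA : A.Countable) : Fc S R p :=
  fc_of_dense hd hS fun q hq => ⟨q, le_rfl, A, hA, fun π _ hA' h0 => h π hA' ⟨0, h0.le.trans hq⟩⟩

/-- Witnesses in an extension are forced. -/
theorem exists_fc {S : Set (PName P)} {R : Pkg P → Prop} (hd : ND S R) {π : Pkg P}
    (hS : S ⊆ π.N) (hR : R π) : ∃ s' ≤ π.g 0, Fc S R s' := by
  obtain ⟨m, hm⟩ := fc_gen hd π hS hR
  exact ⟨π.g m, π.g_anti (Nat.zero_le m), hm⟩

end gen

variable {K : Type} [LinearOrder K] [WellFoundedLT K] {E : Setup K}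

/-- The name of the submodel. -/
noncomputable def Mn (a : Set (TT E)) : PName (Qt E) :=
  .mk {τ : HN K (Qt E) // jH E τ ∈ a} (fun τ => HN.nm τ.1) (fun _ => ⊤)

theorem mem_Mn {a : Set (TT E)} {π : Pkg (Qt E)} {z : ZFSet.{0}} : z ∈ π.val (Mn a) ↔
    ∃ τ, jH E τ ∈ a ∧ HN.nm τ ∈ π.N ∧ π.val (HN.nm τ) = z := by
  rw [Pkg.mem_val]
  constructor
  · rintro ⟨y, hy, c, hc, -, rfl⟩
    obtain ⟨⟨τ, hτ⟩, rfl, rfl⟩ := el_mk.1 hc
    exact ⟨τ, hτ, hy, rfl⟩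
  · rintro ⟨τ, hτ, h, rfl⟩
    exact ⟨_, h, ⊤, el_mk.2 ⟨⟨τ, hτ⟩, rfl, rfl⟩, ⟨0, le_top⟩, rfl⟩

/-- The assumptions on the extension. -/
structure Ctx (a : Set (TT E)) (μ : K) (π : Pkg (Qt E)) : Prop where
  apt : Apt a μ
  top : μ ∈ (π.g 0).1.D
  sL : ∃ e : K → List K, Function.Surjective e
  sP : ∃ e : K → K × Qt E, Function.Surjective e
  hH : HH K (Qt E) ∈ π.N
  hM : Mn a ∈ π.N
  hk : check (kz K) ∈ π.N
  ho : ck E.o1 ∈ π.N
  hmu : ck μ ∈ π.N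
  hb : ck E.b0 ∈ π.N

/-- The names that are always available. -/
def Sn (a : Set (TT E)) (μ : K) : Set (PName (Qt E)) :=
  {HH K (Qt E), Mn a, check (kz K), ck E.o1, ck μ, ck E.b0}

theorem Sn_cnt (a : Set (TT E)) (μ : K) : (Sn a μ).Countable := by
  unfold Sn
  exact (Set.toFinite _).countable

variable {a : Set (TT E)} {μ : K} {π : Pkg (Qt E)}

theorem Ctx.sub (c : Ctx a μ π) : Sn a μ ⊆ π.N := by
  rintro x (rfl | rfl | rfl | rfl | rfl | rfl)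
  exacts [c.hH, c.hM, c.hk, c.ho, c.hmu, c.hb]

theorem Ctx.change (c : Ctx a μ π) {π' : Pkg (Qt E)} (h : Sn a μ ⊆ π'.N)
    (h0 : π'.g 0 ≤ π.g 0) : Ctx a μ π' :=
  ⟨c.apt, h0.1.1 c.top, c.sL, c.sP, h (by simp [Sn]), h (by simp [Sn]), h (by simp [Sn]),
    h (by simp [Sn]), h (by simp [Sn]), h (by simp [Sn])⟩

theorem Ctx.hc (c : Ctx a μ π) : HC K π := ⟨c.sL, c.sP, c.hH, c.hk⟩

theorem Ctx.ne (c : Ctx a μ π) : ∃ x ∈ π.hat (kz K), ∃ y ∈ π.hat (kz K), x ≠ y := by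
  refine ⟨_, (mem_hat_kz π).2 ⟨E.b0, c.hb, rfl⟩, _, (mem_hat_kz π).2 ⟨E.o1, c.ho, rfl⟩, ?_⟩
  rw [Ne, hat_el_inj π c.hb c.ho]
  intro h
  have h1 := E.o1_unc
  rw [← h] at h1
  refine h1 ?_
  have h2 : Set.Iio E.b0 = ∅ := by
    ext x
    simp [not_lt.2 (E.b0_le x)]
  rw [h2]
  exact Set.countable_empty

theorem Ctx.base (c : Ctx a μ π) : IsBase (Hs K π) := c.hc.base c.ne

/-- A package below a condition. -/
theorem Ctx.exists_pkg (c : Ctx a μ π) {q : Qt E} (hq : q ≤ π.g 0) (A : Set (PName (Qt E)))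
    (hA : A.Countable) : ∃ π' : Pkg (Qt E), A ⊆ π'.N ∧ π'.g 0 = q ∧ Ctx a μ π' := by
  obtain ⟨π', h1, h2⟩ := exists_pkg' (Sn a μ ∪ A) ((Sn_cnt a μ).union hA) q
  exact ⟨π', fun x hx => h1 (Or.inr hx), h2, c.change (fun x hx => h1 (Or.inl hx))
    (by rw [h2]; exact hq)⟩

theorem Ctx.below (c : Ctx a μ π) {q : Qt E} (hq : q ≤ π.g 0) : μ ∈ q.1.D := hq.1.1 c.top

/-- The general form of the arguments that produce elements of the submodel. -/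
theorem Ctx.get (c : Ctx a μ π) {S : Set (PName (Qt E))} (hS : S.Countable) (hSπ : S ⊆ π.N)
    {R : Pkg (Qt E) → Prop} (hd : ND (Sn a μ ∪ S) R)
    {B : Type} (j : B → TT E) (X : B → Set (PName (Qt E))) (hX : ∀ b, (X b).Countable)
    (Ψ : B → Pkg (Qt E) → Prop)
    (hcl : ∀ u, Qt.BL μ u → (∃ u' ≤ u, ∃ b, Fc (X b) (Ψ b) u') →
      ∃ u' ≤ u, Qt.BL μ u' ∧ ∃ b, j b ∈ a ∧ Fc (X b) (Ψ b) u')
    (h1 : ∀ π' : Pkg (Qt E), Ctx a μ π' → S ⊆ π'.N → ¬ R π' →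
      ∃ b, ∃ s' ≤ π'.g 0, Fc (X b) (Ψ b) s')
    (h2 : ∀ π' : Pkg (Qt E), Ctx a μ π' → S ⊆ π'.N → ∀ b, j b ∈ a → X b ⊆ π'.N → Ψ b π' → R π') :
    R π := by
  have hSc : (Sn a μ ∪ S).Countable := (Sn_cnt a μ).union hS
  refine by_dense hd hSc (Set.union_subset c.sub hSπ) fun q hq => ?_
  obtain ⟨q', hq', h3 | h3⟩ := fc_dec hd hSc q
  · exact ⟨q', hq', ∅, Set.countable_empty, fun π' hS' _ h0 => h3 π' hS' ⟨0, h0.le⟩⟩
  obtain ⟨r, hr, b, hb, hΨ⟩ := c.apt.dense (fun b u => Fc (X b) (Ψ b) u) j hcl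
    (fun b u u' h hu => h.mono hu) (c.below (hq'.trans hq)) (fun s hs => by
      obtain ⟨π', hA, h0, c'⟩ := c.exists_pkg (hs.trans (hq'.trans hq)) S hS
      obtain ⟨b, s', hs', h4⟩ := h1 π' c' hA (h3 π' (Set.union_subset c'.sub hA)
        ⟨0, h0.le.trans hs⟩)
      exact ⟨s', hs'.trans h0.le, b, h4⟩)
  exact ⟨r, hr.trans hq', X b, hX b, fun π' hS' hA h0 => h2 π' (c.change
    (Set.subset_union_left.trans hS') (by rw [h0]; exact hr.trans (hq'.trans hq)))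
    (Set.subset_union_right.trans hS') b hb hA (hΨ π' hA ⟨0, h0.le⟩)⟩

theorem mem2l {x y : PName (Qt E)} : x ∈ ({x, y} : Set (PName (Qt E))) := by simp
theorem mem2r {x y : PName (Qt E)} : y ∈ ({x, y} : Set (PName (Qt E))) := by simp

theorem nd_valeq (x y : PName (Qt E)) : ND {x, y} fun π : Pkg (Qt E) => π.val x = π.val y :=
  NDfn.eq (NDfnF.val mem2l) (NDfnF.val mem2r)

/-- The ordinals below `μ` belong to the submodel. -/
theorem Ctx.ord_mem (c : Ctx a μ π) {k : K} (hk : k < μ) (hkN : ck k ∈ π.N) :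
    π.hat (el k) ∈ π.val (Mn a) := by
  have s1 : check (el k) ∈ (Sn a μ ∪ {ck k} : Set (PName (Qt E))) := Or.inr rfl
  have s2 : Mn a ∈ (Sn a μ ∪ {ck k} : Set (PName (Qt E))) := Or.inl (by simp [Sn])
  refine c.get (S := {ck k}) (Set.countable_singleton _) (Set.singleton_subset_iff.2 hkN)
    (R := fun π => π.hat (el k) ∈ π.val (Mn a)) (NDfn.mem (NDfnF.hat s1) (NDfnF.val s2))
    (jH E) (fun σ => {HN.nm σ, ck k}) (fun σ => (Set.toFinite _).countable)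
    (fun σ π => π.val (HN.nm σ) = π.hat (el k)) ?_ ?_ ?_
  · intro u hu ⟨u', hu', σ, hσ⟩
    obtain ⟨y, hy, z, hz, h⟩ := c.apt.cl .ord ![jQ E u, jK E k, jK E k] (by
      intro j
      fin_cases j
      exacts [(c.apt.q u).2 hu, (c.apt.k k).2 hk, (c.apt.k k).2 hk])
      ⟨_, _, k, u, u', σ, rfl, rfl, rfl, hu', hσ⟩
    obtain ⟨k', u₁, u₁', σ', h1, rfl, rfl, h2, h3⟩ := h
    have e1 : jQ E u = jQ E u₁ := congrFun h1 0
    have e2 : jK E k = jK E k' := congrFun h1 1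
    obtain rfl := jQ_inj E e1
    obtain rfl := jK_inj E e2
    exact ⟨u₁', h2, (c.apt.q _).1 hy, σ', hz, h3⟩
  · intro π' c' hS' _
    have hk' : ck k ∈ π'.N := hS' rfl
    obtain ⟨σ, hσ, h⟩ := (mem_HH π').1 (c'.hc.ord_mem ((mem_hat_kz π').2 ⟨k, hk', rfl⟩))
    exact ⟨σ, exists_fc (nd_valeq _ _) (by rintro x (rfl | rfl) <;> assumption) h⟩
  · intro π' c' hS' σ hσ hX h
    exact mem_Mn.2 ⟨σ, hσ, hX mem2l, h⟩

/-- The height of the submodel. -/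
theorem Ctx.kap_mem (c : Ctx a μ π) : π.hat (kz K) ∈ π.val (Mn a) := by
  have s1 : check (kz K) ∈ (Sn a μ ∪ ∅ : Set (PName (Qt E))) := Or.inl (by simp [Sn])
  have s2 : Mn a ∈ (Sn a μ ∪ ∅ : Set (PName (Qt E))) := Or.inl (by simp [Sn])
  refine c.get (S := ∅) Set.countable_empty (Set.empty_subset _)
    (R := fun π => π.hat (kz K) ∈ π.val (Mn a)) (NDfn.mem (NDfnF.hat s1) (NDfnF.val s2))
    (jH E) (fun σ => {HN.nm σ, check (kz K)}) (fun σ => (Set.toFinite _).countable)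
    (fun σ π => π.val (HN.nm σ) = π.hat (kz K)) ?_ ?_ ?_
  · intro u hu ⟨u', hu', σ, hσ⟩
    obtain ⟨y, hy, z, hz, h⟩ := c.apt.cl .kap ![jQ E u, jQ E u, jQ E u] (by
      intro j
      fin_cases j
      exacts [(c.apt.q u).2 hu, (c.apt.q u).2 hu, (c.apt.q u).2 hu])
      ⟨_, _, u, u', σ, rfl, rfl, rfl, hu', hσ⟩
    obtain ⟨u₁, u₁', σ', h1, rfl, rfl, h2, h3⟩ := h
    have e1 : jQ E u = jQ E u₁ := congrFun h1 0
    obtain rfl := jQ_inj E e1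
    exact ⟨u₁', h2, (c.apt.q _).1 hy, σ', hz, h3⟩
  · intro π' c' hS' _
    obtain ⟨σ, hσ, h⟩ := (mem_HH π').1 c'.hc.kap_mem
    exact ⟨σ, exists_fc (nd_valeq _ _) (by
      rintro x (rfl | rfl)
      exacts [hσ, c'.hk]) h⟩
  · intro π' c' hS' σ hσ hX h
    exact mem_Mn.2 ⟨σ, hσ, hX mem2l, h⟩

/-- The ordinals below `κ` in the submodel are below `μ`. -/
theorem Ctx.lt_mu (c : Ctx a μ π) {k : K} (hkN : ck k ∈ π.N)
    (h : π.hat (el k) ∈ π.val (Mn a)) : k < μ := by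
  obtain ⟨τ, hτ, hτN, hval⟩ := mem_Mn.1 h
  by_contra hk
  have s1 : check (el k) ∈ (Sn a μ ∪ {ck k, HN.nm τ} : Set (PName (Qt E))) := Or.inr mem2l
  have s2 : HN.nm τ ∈ (Sn a μ ∪ {ck k, HN.nm τ} : Set (PName (Qt E))) := Or.inr mem2r
  refine c.get (S := {ck k, HN.nm τ}) (Set.toFinite _).countable
    (by rintro x (rfl | rfl) <;> assumption)
    (R := fun π => ¬ π.val (HN.nm τ) = π.hat (el k))
    (NDfn.not (NDfn.eq (NDfnF.val s2) (NDfnF.hat s1)))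
    (jK E) (fun k' => {HN.nm τ, ck k'}) (fun σ => (Set.toFinite _).countable)
    (fun k' π => π.val (HN.nm τ) = π.hat (el k')) ?_ ?_ ?_ hval
  · intro u hu ⟨u', hu', k₁, hk₁⟩
    obtain ⟨y, hy, z, hz, h⟩ := c.apt.cl .dec ![jQ E u, jH E τ, jH E τ] (by
      intro j
      fin_cases j
      exacts [(c.apt.q u).2 hu, hτ, hτ])
      ⟨_, _, τ, u, u', k₁, rfl, rfl, rfl, hu', hk₁⟩
    obtain ⟨τ', u₁, u₁', k', h1, rfl, rfl, h2, h3⟩ := h
    have e1 : jQ E u = jQ E u₁ := congrFun h1 0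
    have e2 : jH E τ = jH E τ' := congrFun h1 1
    obtain rfl := jQ_inj E e1
    obtain rfl := jH_inj E e2
    exact ⟨u₁', h2, (c.apt.q _).1 hy, k', hz, h3⟩
  · intro π' c' hS' h3
    exact ⟨k, exists_fc (nd_valeq _ _) (by
      rintro x (rfl | rfl)
      exacts [hS' mem2r, hS' mem2l]) (not_not.1 h3)⟩
  · intro π' c' hS' k' hk' hX h3 h4
    have h5 : π'.hat (el k) = π'.hat (el k') := h4.symm.trans h3
    rw [hat_el_inj π' (hS' mem2l) (hX mem2r)] at h5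
    rw [← h5] at hk'
    exact hk ((c.apt.k k).1 hk')

/-- Elements of the submodel belong to `H`. -/
theorem Ctx.sub_H (c : Ctx a μ π) {x : ZFSet.{0}} (hx : x ∈ π.val (Mn a)) : x ∈ Hs K π := by
  obtain ⟨τ, -, h1, h2⟩ := mem_Mn.1 hx
  exact (mem_HH π).2 ⟨τ, h1, h2⟩

end Pool.Agent.X209.Vi
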